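import Pool.Agent.H689.MM.Stm

namespace Pool.Agent.H689.MM

open Finset

namespace BARL

variable {V : Type}

/-- A perfect matching of the induced graph gives the involution form. -/
theorem hasPM_of (G : SimpleGraph V) (A : Finset V)
    (h : ∃ M : (G.induce (A : Set V)).Subgraph, M.IsPerfectMatching) : HasPM G A := by
  classical
  obtain ⟨M, hM⟩ := h
  have hM' := SimpleGraph.Subgraph.isPerfectMatching_iff.mp hM
  choose g hg hg' using hM'
  refine ⟨fun v => if hv : v ∈ A then (g ⟨v, hv⟩ : V) else v, ?_⟩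
  constructor
  · intro v hv
    simp only [hv, dif_pos]
    exact (g ⟨v, hv⟩).2
  · intro v hv
    simp only [hv, dif_pos]
    have := M.adj_sub (hg ⟨v, hv⟩)
    exact this
  · intro v hv
    have h1 : ((g ⟨v, hv⟩ : (A : Set V)) : V) ∈ A := (g ⟨v, hv⟩).2
    simp only [hv, dif_pos]
    rw [dif_pos h1]
    have h2 : M.Adj (g ⟨v, hv⟩) ⟨v, hv⟩ := (hg ⟨v, hv⟩).symm
    have h3 := hg' (g ⟨v, hv⟩) ⟨v, hv⟩ h2
    have h4 : (⟨(g ⟨v, hv⟩ : V), h1⟩ : (A : Set V)) = g ⟨v, hv⟩ := rfl
    rw [h4, ← h3]

end BARL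

open BARL in
/-- **Leaf BAR.** -/
theorem bar : S_BAR := by
  classical
  intro V _ _ G A hA
  set H := G.induce (A : Set V) with hH
  have hno : ¬ ∃ M : H.Subgraph, M.IsPerfectMatching := fun h => hA (hasPM_of G A h)
  rw [SimpleGraph.tutte] at hno
  push Not at hno
  obtain ⟨u, hu⟩ := hno
  unfold SimpleGraph.IsTutteViolator at hu
  set K := ((⊤ : H.Subgraph).deleteVerts u).coe with hK
  -- the embedding of the vertices of `K`
  let φ : ((⊤ : H.Subgraph).deleteVerts u).verts → V := fun x => x.1.1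
  have hφ : Function.Injective φ := fun x y hxy => Subtype.ext (Subtype.ext hxy)
  let S : K.ConnectedComponent → Finset V := fun c => univ.filter (fun v => ∃ x, x ∈ c.supp ∧ φ x = v)
  have memS : ∀ c v, v ∈ S c ↔ ∃ x, x ∈ c.supp ∧ φ x = v := fun c v => by simp [S]
  have hScard : ∀ c, (S c).card = c.supp.ncard := by
    intro c
    rw [← Set.ncard_image_of_injective c.supp hφ, ← Set.ncard_coe_finset]
    congr 1
    ext v
    simp [memS]
  have hne : ∀ c : K.ConnectedComponent, ∃ x, x ∈ c.supp := fun c => c.nonempty_supp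
  have hcomp : ∀ c d : K.ConnectedComponent, ∀ v, v ∈ S c → v ∈ S d → c = d := by
    intro c d v hc hd
    obtain ⟨x, hx, hxv⟩ := (memS c v).mp hc
    obtain ⟨y, hy, hyv⟩ := (memS d v).mp hd
    have : x = y := hφ (hxv.trans hyv.symm)
    subst this
    rw [SimpleGraph.ConnectedComponent.mem_supp_iff] at hx hy
    exact hx.symm.trans hy
  have hSinj : Function.Injective S := by
    intro c d hcd
    obtain ⟨x, hx⟩ := hne c
    have h1 : φ x ∈ S c := (memS c _).mpr ⟨x, hx, rfl⟩
    have h2 : φ x ∈ S d := hcd ▸ h1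
    exact hcomp c d _ h1 h2
  let U : Finset V := univ.filter (fun v => ∃ h : v ∈ A, (⟨v, h⟩ : (A : Set V)) ∈ u)
  have memU : ∀ v, v ∈ U ↔ ∃ h : v ∈ A, (⟨v, h⟩ : (A : Set V)) ∈ u := fun v => by simp [U]
  have hUcard : U.card = u.ncard := by
    rw [← Set.ncard_image_of_injective u Subtype.val_injective, ← Set.ncard_coe_finset]
    congr 1
    ext v
    simp only [Set.mem_image, Subtype.exists, exists_and_right, exists_eq_right, mem_coe, memU]
  let 𝒳 : Finset (Finset V) := (univ.filter (fun c : K.ConnectedComponent => Odd c.supp.ncard)).image S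
  have h𝒳card : 𝒳.card = K.oddComponents.ncard := by
    rw [card_image_of_injective _ hSinj, ← Set.ncard_coe_finset]
    congr 1
    ext c
    simp
  have mem𝒳 : ∀ X, X ∈ 𝒳 ↔ ∃ c : K.ConnectedComponent, Odd c.supp.ncard ∧ S c = X := fun X => by
    simp [𝒳]
  refine ⟨U, 𝒳, ?_, ?_, ?_⟩
  · constructor
    · intro v hv
      obtain ⟨h, _⟩ := (memU v).mp hv
      exact h
    · intro X hX v hv
      obtain ⟨c, _, rfl⟩ := (mem𝒳 X).mp hX
      obtain ⟨x, _, rfl⟩ := (memS c v).mp hv
      rw [mem_sdiff]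
      refine ⟨x.1.2, fun h => ?_⟩
      obtain ⟨h1, h2⟩ := (memU _).mp h
      have := x.2
      simp only [SimpleGraph.Subgraph.induce_verts, SimpleGraph.Subgraph.verts_top] at this
      exact this.2 h2
    · intro X hX
      obtain ⟨c, hc, rfl⟩ := (mem𝒳 X).mp hX
      rw [hScard]
      exact hc
    · intro X hX Y hY hXY
      obtain ⟨c, _, rfl⟩ := (mem𝒳 X).mp hX
      obtain ⟨d, _, rfl⟩ := (mem𝒳 Y).mp hY
      rw [Finset.disjoint_left]
      intro v hv hv'
      exact hXY (congrArg S (hcomp c d v hv hv'))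
    · intro X hX v hv w hw hvw
      obtain ⟨c, _, rfl⟩ := (mem𝒳 X).mp hX
      obtain ⟨x, hx, rfl⟩ := (memS c v).mp hv
      by_cases hwu : (⟨w, hw⟩ : (A : Set V)) ∈ u
      · right
        exact (memU w).mpr ⟨hw, hwu⟩
      · left
        have hwK : (⟨w, hw⟩ : (A : Set V)) ∈ ((⊤ : H.Subgraph).deleteVerts u).verts := by
          simp only [SimpleGraph.Subgraph.induce_verts, SimpleGraph.Subgraph.verts_top]
          exact ⟨trivial, hwu⟩
        refine (memS c w).mpr ⟨⟨⟨w, hw⟩, hwK⟩, ?_, rfl⟩
        have hadj : K.Adj x ⟨⟨w, hw⟩, hwK⟩ := by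
          rw [hK, SimpleGraph.Subgraph.coe_adj, SimpleGraph.Subgraph.deleteVerts_adj]
          refine ⟨trivial, x.2.2, trivial, hwu, ?_⟩
          rw [SimpleGraph.Subgraph.top_adj]
          exact hvw
        rw [SimpleGraph.ConnectedComponent.mem_supp_iff] at hx ⊢
        rw [← hx]
        exact SimpleGraph.ConnectedComponent.sound hadj.symm.reachable
  · rw [hUcard, h𝒳card]
    exact hu
  · intro hev
    have hpar := SimpleGraph.odd_ncard_oddComponents (G := K)
    have hcardK : Nat.card ((⊤ : H.Subgraph).deleteVerts u).verts = A.card - U.card := by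
      have h1 : Nat.card ((⊤ : H.Subgraph).deleteVerts u).verts = (univ \ u.toFinset : Finset (A : Set V)).card := by
        rw [Nat.card_coe_set_eq, ← Set.ncard_coe_finset]
        congr 1
        ext x
        simp
      have h2 : Fintype.card (A : Set V) = A.card := by simp
      rw [h1, card_sdiff_of_subset (subset_univ _), card_univ, h2, hUcard,
        Set.ncard_eq_toFinset_card']
    rw [hcardK, ← h𝒳card] at hpar
    have hUA : U.card ≤ A.card := card_le_card (fun v hv => ((memU v).mp hv).1)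
    have hlt : U.card < 𝒳.card := by rw [hUcard, h𝒳card]; exact hu
    rcases Nat.even_or_odd 𝒳.card with he | ho
    · have hne2 : ¬ Odd (A.card - U.card) := by
        rw [← hpar]; exact Nat.not_odd_iff_even.mpr he
      have : Even U.card := by
        rw [Nat.not_odd_iff_even] at hne2
        have h3 := (Nat.even_sub hUA).mp hne2
        exact h3.mp hev
      obtain ⟨a, ha⟩ := he
      obtain ⟨b, hb⟩ := this
      omega
    · have h2 : Odd (A.card - U.card) := hpar.mp ho
      have : Odd U.card := by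
        by_contra hno'
        rw [Nat.not_odd_iff_even] at hno'
        have h4 : Even (A.card - U.card) := (Nat.even_sub hUA).mpr (by simp [hev, hno'])
        exact (Nat.not_odd_iff_even.mpr h4) h2
      obtain ⟨a, ha⟩ := ho
      obtain ⟨b, hb⟩ := this
      omega

end Pool.Agent.H689.MM
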