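import Pool.Agent.H689.MM.Stm

/-! Leaf BAS. -/

set_option autoImplicit false

namespace Pool.Agent.H689.MM

open Finset

namespace BASL

variable {V : Type} [Fintype V] [DecidableEq V] {A : V → V → ℚ}

/-- the product of the matrix and a vector -/
def az (A : V → V → ℚ) (z : V → ℚ) (v : V) : ℚ := ∑ w, A v w * z w

omit [DecidableEq V] in
theorem az_add (z z' : V → ℚ) (v : V) : az A (z + z') v = az A z v + az A z' v := by
  simp only [az, Pi.add_apply, mul_add, Finset.sum_add_distrib]

omit [DecidableEq V] in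
theorem az_smul (c : ℚ) (z : V → ℚ) (v : V) : az A (c • z) v = c * az A z v := by
  simp only [az, Pi.smul_apply, smul_eq_mul, Finset.mul_sum]
  exact Finset.sum_congr rfl fun w _ => by ring

omit [DecidableEq V] in
theorem az_sub (z z' : V → ℚ) (v : V) : az A (z - z') v = az A z v - az A z' v := by
  simp only [az, Pi.sub_apply, mul_sub, Finset.sum_sub_distrib]

theorem az_single (x v : V) : az A (Pi.single x 1) v = A v x := by
  rw [az, Finset.sum_eq_single x]
  · simp
  · intro w _ hw
    simp [hw]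
  · simp

omit [DecidableEq V] in
theorem az_skew (hA : ∀ v w, A v w = - A w v) (z z' : V → ℚ) :
    ∑ v, z v * az A z' v = - ∑ v, z' v * az A z v := by
  simp only [az, Finset.mul_sum]
  rw [Finset.sum_comm, ← Finset.sum_neg_distrib]
  refine Finset.sum_congr rfl fun w _ => ?_
  rw [← Finset.sum_neg_distrib]
  refine Finset.sum_congr rfl fun v _ => ?_
  rw [hA v w]
  ring

omit [DecidableEq V] in
theorem az_self (hA : ∀ v w, A v w = - A w v) (z : V → ℚ) : ∑ v, z v * az A z v = 0 := by
  have := az_skew hA z z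
  linarith

/-- solving a linear system -/
theorem solve {E : Finset V} (h : NS A E) (b : V → ℚ) :
    ∃ z : V → ℚ, (∀ v, v ∉ E → z v = 0) ∧ ∀ v ∈ E, az A z v = b v := by
  let ext : (E → ℚ) → V → ℚ := fun z v => if hv : v ∈ E then z ⟨v, hv⟩ else 0
  have hext : ∀ (z : E → ℚ) (v : V), az A (ext z) v = ∑ w : E, A v w * z w := by
    intro z v
    rw [az, ← Finset.sum_subset (Finset.subset_univ E), ← Finset.sum_coe_sort E]
    · refine Finset.sum_congr rfl fun w _ => ?_
      simp [ext]
    · intro w _ hw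
      simp [ext, hw]
  let f : (E → ℚ) →ₗ[ℚ] (E → ℚ) := Matrix.mulVecLin (Matrix.of fun v w : E => A v w)
  have hf : ∀ z v, f z v = ∑ w : E, A v w * z w := by
    intro z v
    simp [f, Matrix.mulVec, dotProduct]
  have hinj : Function.Injective f := by
    rw [injective_iff_map_eq_zero]
    intro z hz
    have h1 : ext z = 0 := by
      apply h
      · intro v hv
        simp [ext, hv]
      · intro v hv
        have h2 := congrFun hz ⟨v, hv⟩
        rw [hf] at h2
        have h3 := hext z v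
        rw [az] at h3
        rw [h3]
        exact h2
    funext v
    have h2 := congrFun h1 v
    simpa [ext] using h2
  obtain ⟨z, hz⟩ := (LinearMap.injective_iff_surjective.1 hinj) (fun v => b v)
  refine ⟨ext z, fun v hv => by simp [ext, hv], fun v hv => ?_⟩
  rw [hext]
  have := congrFun hz ⟨v, hv⟩
  rw [hf] at this
  exact this

/-- the form of a bad set -/
theorem om (hA : ∀ v w, A v w = - A w v) {D : Finset V} (hD : ¬ NS A D) {x₀ y₀ : V}
    (hx₀ : x₀ ∈ D) (hy₀ : y₀ ∈ D) (hxy₀ : x₀ ≠ y₀) (hE : NS A (D \ {x₀, y₀})) :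
    ∃ ω : V → V → ℚ, (∀ v w, ω v w = - ω w v) ∧ (∀ v w, ω v w ≠ 0 → v ∈ D) ∧
      (∀ w, ∀ v ∈ D, az A (fun u => ω u w) v = 0) ∧
      ∀ x ∈ D, ∀ y ∈ D, x ≠ y → (ω x y ≠ 0 ↔ NS A (D \ {x, y})) := by
  set E := D \ {x₀, y₀} with hEdef
  have hxE : x₀ ∉ E := by simp [hEdef]
  have hyE : y₀ ∉ E := by simp [hEdef]
  have hED : ∀ v, v ∈ E → v ∈ D := fun v hv => (Finset.mem_sdiff.1 hv).1
  have hDE : ∀ v, v ∈ D → v ≠ x₀ → v ≠ y₀ → v ∈ E := by
    intro v hv h1 h2
    rw [hEdef, Finset.mem_sdiff]
    simp [hv, h1, h2]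
  -- the two vectors
  have hw : ∀ x ∈ D, ∃ w : V → ℚ, (∀ v, v ∉ D → w v = 0) ∧ (∀ v, v ∉ E → w v = Pi.single (M := fun _ => ℚ) x 1 v) ∧
      (∀ v ∈ E, az A w v = 0) ∨ x ∈ E := by
    intro x hx
    by_cases hxE' : x ∈ E
    · exact ⟨0, Or.inr hxE'⟩
    obtain ⟨z, hz1, hz2⟩ := solve hE (fun v => - A v x)
    refine ⟨Pi.single x 1 + z, Or.inl ⟨?_, ?_, ?_⟩⟩
    · intro v hv
      have h1 : v ≠ x := fun h => hv (h ▸ hx)
      rw [Pi.add_apply, hz1 v (fun h => hv (hED v h))]
      simp [h1]
    · intro v hv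
      rw [Pi.add_apply, hz1 v hv, add_zero]
    · intro v hv
      rw [az_add, az_single, hz2 v hv]
      ring
  obtain ⟨w₁, hw₁⟩ := hw x₀ hx₀
  obtain ⟨h1D, h1E, h1A⟩ := hw₁.resolve_right hxE
  obtain ⟨w₂, hw₂⟩ := hw y₀ hy₀
  obtain ⟨h2D, h2E, h2A⟩ := hw₂.resolve_right hyE
  have h1x : w₁ x₀ = 1 := by rw [h1E x₀ hxE]; simp
  have h1y : w₁ y₀ = 0 := by rw [h1E y₀ hyE]; simp [hxy₀.symm]
  have h2x : w₂ x₀ = 0 := by rw [h2E x₀ hxE]; simp [hxy₀]
  have h2y : w₂ y₀ = 1 := by rw [h2E y₀ hyE]; simp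
  -- sums over `D`
  have hsum : ∀ w u : V → ℚ, (∀ v, v ∉ D → w v = 0) → (∀ v ∈ E, u v = 0) →
      ∑ v, w v * u v = w x₀ * u x₀ + w y₀ * u y₀ := by
    intro w u hw hu
    rw [← Finset.sum_subset (Finset.subset_univ ({x₀, y₀} : Finset V)), Finset.sum_pair hxy₀]
    intro v _ hv
    simp only [Finset.mem_insert, Finset.mem_singleton, not_or] at hv
    by_cases hvD : v ∈ D
    · rw [hu v (hDE v hvD hv.1 hv.2), mul_zero]
    · rw [hw v hvD, zero_mul]
  have hspan : ∀ z : V → ℚ, (∀ v, v ∉ D → z v = 0) → (∀ v ∈ E, az A z v = 0) →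
      z = z x₀ • w₁ + z y₀ • w₂ := by
    intro z hz1 hz2
    have h0 : z - (z x₀ • w₁ + z y₀ • w₂) = 0 := by
      apply hE
      · intro v hv
        simp only [Pi.sub_apply, Pi.add_apply, Pi.smul_apply, smul_eq_mul]
        by_cases hvx : v = x₀
        · rw [hvx, h1x, h2x]; ring
        by_cases hvy : v = y₀
        · rw [hvy, h1y, h2y]; ring
        have hvD : v ∉ D := fun h => hv (hDE v h hvx hvy)
        rw [hz1 v hvD, h1D v hvD, h2D v hvD]; ring
      · intro v hv
        change az A _ v = 0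
        rw [az_sub, az_add, az_smul, az_smul, hz2 v hv, h1A v hv, h2A v hv]; ring
    exact sub_eq_zero.1 h0
  -- they are killed on `D`
  have e1 : az A w₁ x₀ = 0 := by
    have := az_self hA w₁
    rw [hsum w₁ (az A w₁) h1D h1A, h1x, h1y] at this
    linarith
  have e2 : az A w₂ y₀ = 0 := by
    have := az_self hA w₂
    rw [hsum w₂ (az A w₂) h2D h2A, h2x, h2y] at this
    linarith
  have e3 : az A w₁ y₀ = - az A w₂ x₀ := by
    have := az_skew hA w₂ w₁
    rw [hsum w₂ (az A w₁) h2D h1A, hsum w₁ (az A w₂) h1D h2A, h1x, h1y, h2x, h2y] at this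
    linarith
  have hc : az A w₁ y₀ = 0 := by
    unfold NS at hD
    push Not at hD
    obtain ⟨z, hz1, hz2, hz3⟩ := hD
    have hz := hspan z hz1 (fun v hv => hz2 v (hED v hv))
    have f1 : az A z x₀ = 0 := hz2 x₀ hx₀
    have f2 : az A z y₀ = 0 := hz2 y₀ hy₀
    rw [hz, az_add, az_smul, az_smul, e1] at f1
    rw [hz, az_add, az_smul, az_smul, e2] at f2
    by_contra hne
    have g1 : z x₀ = 0 := by
      rcases mul_eq_zero.1 (by linarith : z x₀ * az A w₁ y₀ = 0) with h | h
      · exact h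
      · exact absurd h hne
    have g2 : z y₀ = 0 := by
      rcases mul_eq_zero.1 (by rw [e3]; linarith : z y₀ * az A w₁ y₀ = 0) with h | h
      · exact h
      · exact absurd h hne
    apply hz3
    rw [hz, g1, g2]
    simp
  have k1 : ∀ v ∈ D, az A w₁ v = 0 := by
    intro v hv
    by_cases hvx : v = x₀
    · rw [hvx]; exact e1
    by_cases hvy : v = y₀
    · rw [hvy]; exact hc
    exact h1A v (hDE v hv hvx hvy)
  have k2 : ∀ v ∈ D, az A w₂ v = 0 := by
    intro v hv
    by_cases hvx : v = x₀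
    · rw [hvx]; linarith
    by_cases hvy : v = y₀
    · rw [hvy]; exact e2
    exact h2A v (hDE v hv hvx hvy)
  refine ⟨fun v w => w₁ v * w₂ w - w₁ w * w₂ v, ?_, ?_, ?_, ?_⟩
  · intro v w
    ring
  · intro v w h
    by_contra hv
    apply h
    simp only [h1D v hv, h2D v hv]
    ring
  · intro w v hv
    have : (fun u => w₁ u * w₂ w - w₁ w * w₂ u) = w₂ w • w₁ - w₁ w • w₂ := by
      funext u
      simp only [Pi.sub_apply, Pi.smul_apply, smul_eq_mul]
      ring
    rw [this, az_sub, az_smul, az_smul, k1 v hv, k2 v hv]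
    ring
  · intro x hx y hy hxy
    show w₁ x * w₂ y - w₁ y * w₂ x ≠ 0 ↔ _
    -- combinations vanishing at `x` and `y`
    have hcomb : NS A (D \ {x, y}) → ∀ a b : ℚ, a * w₁ x + b * w₂ x = 0 →
        a * w₁ y + b * w₂ y = 0 → a = 0 ∧ b = 0 := by
      intro hNS a b ha hb
      have h0 : a • w₁ + b • w₂ = 0 := by
        apply hNS
        · intro v hv
          simp only [Pi.add_apply, Pi.smul_apply, smul_eq_mul]
          by_cases hvx : v = x
          · rw [hvx]; exact ha
          by_cases hvy : v = y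
          · rw [hvy]; exact hb
          have hvD : v ∉ D := by
            intro h
            apply hv
            rw [Finset.mem_sdiff]
            simp [h, hvx, hvy]
          rw [h1D v hvD, h2D v hvD]; ring
        · intro v hv
          change az A _ v = 0
          have hvD := (Finset.mem_sdiff.1 hv).1
          rw [az_add, az_smul, az_smul, k1 v hvD, k2 v hvD]; ring
      have f1 := congrFun h0 x₀
      have f2 := congrFun h0 y₀
      simp only [Pi.add_apply, Pi.smul_apply, smul_eq_mul, Pi.zero_apply, h1x, h2x, h1y, h2y] at f1 f2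
      constructor <;> linarith
    constructor
    · intro hω z hz1 hz2
      have hz1' : ∀ v, v ∉ D → z v = 0 := fun v hv => hz1 v (fun h => hv (Finset.mem_sdiff.1 h).1)
      have hzx : z x = 0 := hz1 x (by simp)
      have hzy : z y = 0 := hz1 y (by simp)
      -- the products with `w₁`, `w₂`
      have hp : ∀ w : V → ℚ, (∀ v, v ∉ D → w v = 0) → (∀ v ∈ D, az A w v = 0) →
          w x * az A z x + w y * az A z y = 0 := by
        intro w hw1 hw2
        have h1 : ∑ v, z v * az A w v = 0 := by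
          refine Finset.sum_eq_zero fun v _ => ?_
          by_cases hvD : v ∈ D
          · rw [hw2 v hvD, mul_zero]
          · rw [hz1' v hvD, zero_mul]
        have h2 : ∑ v, w v * az A z v = w x * az A z x + w y * az A z y := by
          rw [← Finset.sum_subset (Finset.subset_univ ({x, y} : Finset V)), Finset.sum_pair hxy]
          intro v _ hv
          simp only [Finset.mem_insert, Finset.mem_singleton, not_or] at hv
          by_cases hvD : v ∈ D
          · have : az A z v = 0 := hz2 v (by rw [Finset.mem_sdiff]; simp [hvD, hv.1, hv.2])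
            rw [this, mul_zero]
          · rw [hw1 v hvD, zero_mul]
        have h3 := az_skew hA z w
        rw [h1, h2] at h3
        linarith
      have p1 := hp w₁ h1D k1
      have p2 := hp w₂ h2D k2
      have q1 : az A z x = 0 := by
        have : (w₁ x * w₂ y - w₁ y * w₂ x) * az A z x = 0 := by
          linear_combination w₂ y * p1 - w₁ y * p2
        exact (mul_eq_zero.1 this).resolve_left hω
      have q2 : az A z y = 0 := by
        have : (w₁ x * w₂ y - w₁ y * w₂ x) * az A z y = 0 := by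
          linear_combination (- w₂ x) * p1 + w₁ x * p2
        exact (mul_eq_zero.1 this).resolve_left hω
      have hz2' : ∀ v ∈ D, az A z v = 0 := by
        intro v hv
        by_cases hvx : v = x
        · rw [hvx]; exact q1
        by_cases hvy : v = y
        · rw [hvy]; exact q2
        exact hz2 v (by rw [Finset.mem_sdiff]; simp [hv, hvx, hvy])
      have hz := hspan z hz1' (fun v hv => hz2' v (hED v hv))
      have r1 : z x₀ * w₁ x + z y₀ * w₂ x = 0 := by
        have := congrFun hz x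
        simp only [Pi.add_apply, Pi.smul_apply, smul_eq_mul] at this
        rw [← this]; exact hzx
      have r2 : z x₀ * w₁ y + z y₀ * w₂ y = 0 := by
        have := congrFun hz y
        simp only [Pi.add_apply, Pi.smul_apply, smul_eq_mul] at this
        rw [← this]; exact hzy
      have s1 : z x₀ = 0 := by
        have : (w₁ x * w₂ y - w₁ y * w₂ x) * z x₀ = 0 := by
          linear_combination w₂ y * r1 - w₂ x * r2
        exact (mul_eq_zero.1 this).resolve_left hω
      have s2 : z y₀ = 0 := by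
        have : (w₁ x * w₂ y - w₁ y * w₂ x) * z y₀ = 0 := by
          linear_combination (- w₁ y) * r1 + w₁ x * r2
        exact (mul_eq_zero.1 this).resolve_left hω
      rw [hz, s1, s2]
      simp
    · intro hNS hω
      have t1 := hcomb hNS (w₂ x) (- w₁ x) (by ring) (by linear_combination - hω)
      have t2 := hcomb hNS (w₂ y) (- w₁ y) (by linear_combination hω) (by ring)
      have t3 := hcomb hNS 1 0 (by linarith [t1.2]) (by linarith [t2.2])
      exact one_ne_zero t3.1

/-- a form with columns killed on `N` is determined by its values on `T × T` -/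
theorem form_zero {T N : Finset V} (hN : N = univ \ T) (hNS : NS A N) {ω : V → V → ℚ}
    (h1 : ∀ v w, ω v w = - ω w v) (h2 : ∀ w, ∀ v ∈ N, az A (fun u => ω u w) v = 0)
    (h3 : ∀ t ∈ T, ∀ t' ∈ T, ω t t' = 0) : ω = 0 := by
  have hT : ∀ v, v ∉ N → v ∈ T := by
    intro v hv
    by_contra h
    exact hv (by rw [hN]; simp [h])
  have h4 : ∀ t ∈ T, ∀ u, ω u t = 0 := by
    intro t ht u
    have := hNS (fun u => ω u t) (fun v hv => h3 v (hT v hv) t ht) (h2 t)
    exact congrFun this u
  funext u w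
  have := hNS (fun u => ω u w) (fun v hv => by
    show ω v w = 0
    rw [h1, h4 v (hT v hv), neg_zero]) (h2 w)
  exact congrFun this u

end BASL

open BASL in
theorem bas : S_BAS := by
  classical
  intro V _ _ A T N hA hN hNS ℬ hℬ
  have hch : ∀ R : ℬ, ∃ ω : V → V → ℚ, (∀ v w, ω v w = - ω w v) ∧
      (∀ v w, ω v w ≠ 0 → v ∈ N ∪ R.1) ∧
      (∀ w, ∀ v ∈ N ∪ R.1, az A (fun u => ω u w) v = 0) ∧
      ∀ x ∈ N ∪ R.1, ∀ y ∈ N ∪ R.1, x ≠ y → (ω x y ≠ 0 ↔ NS A ((N ∪ R.1) \ {x, y})) := by
    intro R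
    obtain ⟨-, h2, x₀, hx₀, y₀, hy₀, hne, h3⟩ := hℬ R.1 R.2
    exact om hA h2 hx₀ hy₀ hne h3
  choose ω hω1 hω2 hω3 hω4 using hch
  obtain ⟨κ, a, ha, hspan, hli⟩ := exists_linearIndependent' ℚ ω
  have : Finite κ := Finite.of_injective a ha
  let _ : Fintype κ := Fintype.ofFinite κ
  -- the space of forms
  let 𝒲 : Submodule ℚ (V → V → ℚ) :=
    { carrier := {ρ | (∀ v w, ρ v w = - ρ w v) ∧ ∀ w, ∀ v ∈ N, az A (fun u => ρ u w) v = 0}
      add_mem' := by
        rintro ρ ρ' ⟨h1, h2⟩ ⟨h1', h2'⟩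
        refine ⟨fun v w => ?_, fun w v hv => ?_⟩
        · simp only [Pi.add_apply]
          rw [h1 v w, h1' v w]; ring
        · have : (fun u => (ρ + ρ') u w) = (fun u => ρ u w) + (fun u => ρ' u w) := rfl
          rw [this, az_add, h2 w v hv, h2' w v hv, add_zero]
      zero_mem' := by
        refine ⟨fun v w => by simp, fun w v _ => ?_⟩
        simp [az]
      smul_mem' := by
        rintro c ρ ⟨h1, h2⟩
        refine ⟨fun v w => ?_, fun w v hv => ?_⟩
        · simp only [Pi.smul_apply, smul_eq_mul]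
          rw [h1 v w]; ring
        · have : (fun u => (c • ρ) u w) = c • (fun u => ρ u w) := rfl
          rw [this, az_smul, h2 w v hv, mul_zero] }
  have hmem : ∀ R, ω R ∈ 𝒲 := fun R =>
    ⟨hω1 R, fun w v hv => hω3 R w v (Finset.mem_union_left _ hv)⟩
  let res : (V → V → ℚ) →ₗ[ℚ] (T × T → ℚ) :=
    { toFun := fun ρ p => ρ p.1 p.2
      map_add' := fun _ _ => rfl
      map_smul' := fun _ _ => rfl }
  have hdisj : Disjoint (Submodule.span ℚ (Set.range (ω ∘ a))) (LinearMap.ker res) := by
    rw [Submodule.disjoint_def]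
    intro ρ hρ hker
    have hρ' : ρ ∈ 𝒲 := by
      refine (Submodule.span_le.2 ?_) hρ
      rintro _ ⟨i, rfl⟩
      exact hmem _
    refine form_zero hN hNS hρ'.1 hρ'.2 ?_
    intro t ht t' ht'
    exact congrFun (LinearMap.mem_ker.1 hker) (⟨t, ht⟩, ⟨t', ht'⟩)
  have hli' := hli.map hdisj
  have hcard : Fintype.card κ ≤ T.card ^ 2 := by
    have h1 := hli'.fintype_card_le_finrank
    rw [Module.finrank_fintype_fun_eq_card, Fintype.card_prod, Fintype.card_coe] at h1
    rw [pow_two]
    exact h1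
  refine ⟨Finset.univ.image (fun i => (a i).1), ?_, ?_, ?_⟩
  · intro R hR
    obtain ⟨i, -, rfl⟩ := Finset.mem_image.1 hR
    exact (a i).2
  · exact (Finset.card_image_le.trans (le_of_eq Finset.card_univ)).trans hcard
  · intro R hR x hx y hy hxy hNS'
    have hne : ω ⟨R, hR⟩ x y ≠ 0 := (hω4 ⟨R, hR⟩ x hx y hy hxy).2 hNS'
    have hex : ∃ i, ω (a i) x y ≠ 0 := by
      by_contra hcon
      push Not at hcon
      apply hne
      let ev : (V → V → ℚ) →ₗ[ℚ] ℚ :=
        { toFun := fun ρ => ρ x y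
          map_add' := fun _ _ => rfl
          map_smul' := fun _ _ => rfl }
      have h1 : Submodule.span ℚ (Set.range (ω ∘ a)) ≤ LinearMap.ker ev := by
        rw [Submodule.span_le]
        rintro _ ⟨i, rfl⟩
        exact hcon i
      rw [hspan] at h1
      exact h1 (Submodule.subset_span ⟨⟨R, hR⟩, rfl⟩)
    obtain ⟨i, hi⟩ := hex
    have hi' : ω (a i) y x ≠ 0 := by
      intro h
      apply hi
      rw [hω1, h, neg_zero]
    have m1 := hω2 (a i) x y hi
    have m2 := hω2 (a i) y x hi'
    exact ⟨(a i).1, Finset.mem_image.2 ⟨i, Finset.mem_univ _, rfl⟩, m1, m2,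
      (hω4 (a i) x m1 y m2 hxy).1 hi⟩

end Pool.Agent.H689.MM
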