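import Pool.Agent.H689.MM.Basic

/-!
Maximal barriers of graphs that lose their deficiency after deleting two vertices.
-/

namespace Pool.Agent.H689.MM

open Finset

theorem bar_count {V : Type*} [DecidableEq V] {G : SimpleGraph V} {A U : Finset V}
    {X : Finset (Finset V)} (hb : IsBar G A U X) {x y : V} (hpm : HasPM G (A \ {x, y})) :
    (X.filter (fun Y => x ∉ Y ∧ y ∉ Y)).card ≤ (U \ {x, y}).card := by
  obtain ⟨f, hf⟩ := hpm
  have hv : ∀ Y ∈ X.filter (fun Y => x ∉ Y ∧ y ∉ Y), ∃ v ∈ Y, v ∈ A \ {x, y} ∧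
      f v ∈ U \ {x, y} := by
    intro Y hY
    obtain ⟨hY, hxY, hyY⟩ := Finset.mem_filter.1 hY
    by_contra hcon
    push Not at hcon
    have hsub : ∀ v ∈ Y, v ∈ A \ {x, y} := by
      intro v hv
      refine Finset.mem_sdiff.2 ⟨(Finset.mem_sdiff.1 (hb.xsub Y hY hv)).1, ?_⟩
      simp only [Finset.mem_insert, Finset.mem_singleton]
      rintro (rfl | rfl)
      · exact hxY hv
      · exact hyY hv
    have hev : Even Y.card := by
      apply even_of_invol (h := f)
      · intro v hv
        have h1 := hf.mem v (hsub v hv)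
        have h2 := hb.closed Y hY v hv (f v) (Finset.mem_sdiff.1 h1).1 (hf.adj v (hsub v hv))
        rcases h2 with h2 | h2
        · exact h2
        · exact absurd (Finset.mem_sdiff.2 ⟨h2, (Finset.mem_sdiff.1 h1).2⟩)
            (hcon v hv (hsub v hv))
      · exact fun v hv => hf.inv v (hsub v hv)
      · exact fun v hv => hf.ne (hsub v hv)
    exact (Nat.not_even_iff_odd.2 (hb.odd Y hY)) hev
  apply Finset.card_le_card_of_forall_subsingleton
    (fun Y u => ∃ v ∈ Y, v ∈ A \ {x, y} ∧ f v = u)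
  · intro Y hY
    obtain ⟨v, h1, h2, h3⟩ := hv Y hY
    exact ⟨f v, h3, v, h1, h2, rfl⟩
  · intro u _ Y hY Z hZ
    obtain ⟨hY1, v, hv1, hv2, hv3⟩ := hY
    obtain ⟨hZ1, w, hw1, hw2, hw3⟩ := hZ
    have hvw : v = w := hf.inj hv2 hw2 (hv3.trans hw3.symm)
    subst hvw
    by_contra hne
    exact (Finset.disjoint_left.1 (hb.disj Y (Finset.mem_filter.1 hY1).1 Z
      (Finset.mem_filter.1 hZ1).1 hne)) hv1 hw1

theorem bar_le_one {V : Type*} [DecidableEq V] {G : SimpleGraph V} {A U : Finset V}
    {X : Finset (Finset V)} (hb : IsBar G A U X) (x : V) :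
    (X.filter (fun Y => x ∈ Y)).card ≤ 1 := by
  rw [Finset.card_le_one]
  intro Y hY Z hZ
  obtain ⟨hY, hxY⟩ := Finset.mem_filter.1 hY
  obtain ⟨hZ, hxZ⟩ := Finset.mem_filter.1 hZ
  by_contra hne
  exact (Finset.disjoint_left.1 (hb.disj Y hY Z hZ hne)) hxY hxZ

theorem bar_split {V : Type*} [DecidableEq V] (X : Finset (Finset V)) (x y : V) :
    X.card ≤ (X.filter (fun Y => x ∉ Y ∧ y ∉ Y)).card +
      ((X.filter (fun Y => x ∈ Y)) ∪ (X.filter (fun Y => y ∈ Y))).card := by
  have h := Finset.card_filter_add_card_filter_not (s := X) (fun Y => x ∉ Y ∧ y ∉ Y)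
  have h2 : X.filter (fun Y => ¬ (x ∉ Y ∧ y ∉ Y)) ⊆
      (X.filter (fun Y => x ∈ Y)) ∪ (X.filter (fun Y => y ∈ Y)) := by
    intro Y hY
    obtain ⟨hY, h⟩ := Finset.mem_filter.1 hY
    rw [Finset.mem_union, Finset.mem_filter, Finset.mem_filter]
    by_cases hx : x ∈ Y
    · exact Or.inl ⟨hY, hx⟩
    · by_cases hy : y ∈ Y
      · exact Or.inr ⟨hY, hy⟩
      · exact absurd ⟨hx, hy⟩ h
  have h3 := Finset.card_le_card h2
  omega

/-- adding the uncovered part -/
theorem bar_cover {V : Type*} [DecidableEq V] {G : SimpleGraph V} {A U : Finset V}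
    {X : Finset (Finset V)} (hA : Even A.card) (hb : IsBar G A U X) (hc : X.card = U.card + 2)
    {w : V} (hw : w ∈ A) (hwU : w ∉ U) (hwX : ∀ Y ∈ X, w ∉ Y) :
    ∃ (U' : Finset V) (X' : Finset (Finset V)), IsBar G A U' X' ∧ U'.card + 2 ≤ X'.card ∧
      U.card < U'.card := by
  set C := X.biUnion id with hC
  set W := A \ (U ∪ C) with hW
  have hCA : C ⊆ A \ U := by
    intro v hv
    obtain ⟨Y, hY, hvY⟩ := Finset.mem_biUnion.1 hv
    exact hb.xsub Y hY hvY
  have hUC : Disjoint U C := by
    rw [Finset.disjoint_left]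
    intro v hv hv'
    exact (Finset.mem_sdiff.1 (hCA hv')).2 hv
  have hsubA : U ∪ C ⊆ A := Finset.union_subset hb.sub (hCA.trans Finset.sdiff_subset)
  have hcard : W.card + (U ∪ C).card = A.card := Finset.card_sdiff_add_card_eq_card hsubA
  have hcC : C.card = ∑ Y ∈ X, Y.card := by
    rw [hC, Finset.card_biUnion]
    · rfl
    · intro Y hY Z hZ hne
      exact hb.disj Y hY Z hZ hne
  have hpar : Even C.card ↔ Even X.card := by
    rw [hcC, Finset.even_sum_iff_even_card_odd, Finset.filter_true_of_mem hb.odd]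
  have hwW : w ∈ W := by
    refine Finset.mem_sdiff.2 ⟨hw, ?_⟩
    rw [Finset.mem_union, Finset.mem_biUnion]
    rintro (h | ⟨Y, hY, h⟩)
    · exact hwU h
    · exact hwX Y hY h
  have hWe : Even W.card := by
    rw [Finset.card_union_of_disjoint hUC] at hcard
    rw [hc] at hpar
    rw [← hcard] at hA
    rcases Nat.even_or_odd U.card with h | h
    · have : Even C.card := hpar.2 (by simpa [Nat.even_add] using h)
      simpa [Nat.even_add, h, this] using hA
    · have h' : ¬ Even U.card := Nat.not_even_iff_odd.2 h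
      have : ¬ Even C.card := by
        rw [hpar]
        simpa [Nat.even_add] using h
      simpa [Nat.even_add, h', this] using hA
  have hWodd : Odd (W.erase w).card := by
    rw [← Finset.card_erase_add_one hwW, Nat.even_add_one, Nat.not_even_iff_odd] at hWe
    exact hWe
  have hWX : ∀ Y ∈ X, Disjoint Y W := by
    intro Y hY
    rw [Finset.disjoint_left]
    intro v hvY hvW
    exact (Finset.mem_sdiff.1 hvW).2 (Finset.mem_union_right _ (Finset.mem_biUnion.2 ⟨Y, hY, hvY⟩))
  have hnot : W.erase w ∉ X := by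
    intro h
    have h1 : (W.erase w).Nonempty := by
      rw [← Finset.card_pos]
      exact hWodd.pos
    obtain ⟨v, hv⟩ := h1
    exact (Finset.disjoint_left.1 (hWX _ h)) hv (Finset.mem_of_mem_erase hv)
  refine ⟨insert w U, insert (W.erase w) X, ⟨?_, ?_, ?_, ?_, ?_⟩, ?_, ?_⟩
  · intro v hv
    rcases Finset.mem_insert.1 hv with rfl | hv
    · exact hw
    · exact hb.sub hv
  · intro Y hY v hv
    rcases Finset.mem_insert.1 hY with rfl | hY
    · obtain ⟨hne, hvW⟩ := Finset.mem_erase.1 hv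
      obtain ⟨h1, h2⟩ := Finset.mem_sdiff.1 hvW
      refine Finset.mem_sdiff.2 ⟨h1, ?_⟩
      intro h3
      rcases Finset.mem_insert.1 h3 with h3 | h3
      · exact hne h3
      · exact h2 (Finset.mem_union_left _ h3)
    · obtain ⟨h1, h2⟩ := Finset.mem_sdiff.1 (hb.xsub Y hY hv)
      refine Finset.mem_sdiff.2 ⟨h1, ?_⟩
      intro h3
      rcases Finset.mem_insert.1 h3 with h3 | h3
      · rw [h3] at hv
        exact hwX Y hY hv
      · exact h2 h3
  · intro Y hY
    rcases Finset.mem_insert.1 hY with rfl | hY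
    · exact hWodd
    · exact hb.odd Y hY
  · intro Y hY Z hZ hne
    rcases Finset.mem_insert.1 hY with rfl | hY <;> rcases Finset.mem_insert.1 hZ with rfl | hZ
    · exact absurd rfl hne
    · exact ((hWX Z hZ).mono_right (Finset.erase_subset _ _)).symm
    · exact (hWX Y hY).mono_right (Finset.erase_subset _ _)
    · exact hb.disj Y hY Z hZ hne
  · intro Y hY v hv z hz hadj
    rcases Finset.mem_insert.1 hY with rfl | hY
    · obtain ⟨hne, hvW⟩ := Finset.mem_erase.1 hv
      obtain ⟨h1, h2⟩ := Finset.mem_sdiff.1 hvW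
      by_cases hzU : z ∈ U
      · exact Or.inr (Finset.mem_insert_of_mem hzU)
      · by_cases hzC : z ∈ C
        · obtain ⟨Y, hY, hzY⟩ := Finset.mem_biUnion.1 hzC
          exfalso
          rcases hb.closed Y hY z hzY v h1 hadj.symm with h3 | h3
          · exact h2 (Finset.mem_union_right _ (Finset.mem_biUnion.2 ⟨Y, hY, h3⟩))
          · exact h2 (Finset.mem_union_left _ h3)
        · by_cases hzw : z = w
          · exact Or.inr (by rw [hzw]; exact Finset.mem_insert_self _ _)
          · left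
            refine Finset.mem_erase.2 ⟨hzw, Finset.mem_sdiff.2 ⟨hz, ?_⟩⟩
            intro h3
            rcases Finset.mem_union.1 h3 with h3 | h3
            · exact hzU h3
            · exact hzC h3
    · rcases hb.closed Y hY v hv z hz hadj with h3 | h3
      · exact Or.inl h3
      · exact Or.inr (Finset.mem_insert_of_mem h3)
  · rw [Finset.card_insert_of_notMem hwU, Finset.card_insert_of_notMem hnot]
    omega
  · rw [Finset.card_insert_of_notMem hwU]
    omega

/-- refining a class that is not factor-critical -/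
theorem bar_refine (hBAR : S_BAR) {V : Type} [Fintype V] [DecidableEq V] {G : SimpleGraph V}
    {A U : Finset V} {X : Finset (Finset V)} (hb : IsBar G A U X) (hc : U.card + 2 ≤ X.card)
    {Y : Finset V} (hY : Y ∈ X) {v : V} (hv : v ∈ Y) (hno : ¬ HasPM G (Y.erase v)) :
    ∃ (U' : Finset V) (X' : Finset (Finset V)), IsBar G A U' X' ∧ U'.card + 2 ≤ X'.card ∧
      U.card < U'.card := by
  obtain ⟨U1, X1, h1, _, h3⟩ := hBAR V G (Y.erase v) hno
  have hev : Even (Y.erase v).card := by
    have := hb.odd Y hY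
    rw [← Finset.card_erase_add_one hv, Nat.odd_add_one, Nat.not_odd_iff_even] at this
    exact this
  have h4 := h3 hev
  have hYs := hb.xsub Y hY
  have hX1Y : ∀ Z ∈ X1, Z ⊆ Y := fun Z hZ =>
    ((h1.xsub Z hZ).trans Finset.sdiff_subset).trans (Finset.erase_subset _ _)
  have hd : Disjoint (X.erase Y) X1 := by
    rw [Finset.disjoint_left]
    intro Z hZ hZ1
    obtain ⟨hne, hZX⟩ := Finset.mem_erase.1 hZ
    have hpos : Z.Nonempty := by
      rw [← Finset.card_pos]
      exact (hb.odd Z hZX).pos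
    obtain ⟨z, hz⟩ := hpos
    exact (Finset.disjoint_left.1 (hb.disj Z hZX Y hY hne)) hz (hX1Y Z hZ1 hz)
  have hvU : v ∉ U := (Finset.mem_sdiff.1 (hYs hv)).2
  have hU1Y : U1 ⊆ Y := h1.sub.trans (Finset.erase_subset _ _)
  refine ⟨U ∪ insert v U1, X.erase Y ∪ X1, ⟨?_, ?_, ?_, ?_, ?_⟩, ?_, ?_⟩
  · intro w hw
    rcases Finset.mem_union.1 hw with hw | hw
    · exact hb.sub hw
    · rcases Finset.mem_insert.1 hw with rfl | hw
      · exact (Finset.mem_sdiff.1 (hYs hv)).1
      · exact (Finset.mem_sdiff.1 (hYs (hU1Y hw))).1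
  · intro Z hZ w hw
    rcases Finset.mem_union.1 hZ with hZ | hZ
    · obtain ⟨hne, hZX⟩ := Finset.mem_erase.1 hZ
      obtain ⟨h5, h6⟩ := Finset.mem_sdiff.1 (hb.xsub Z hZX hw)
      have hwY : w ∉ Y := fun h => (Finset.disjoint_left.1 (hb.disj Z hZX Y hY hne)) hw h
      refine Finset.mem_sdiff.2 ⟨h5, ?_⟩
      intro h7
      rcases Finset.mem_union.1 h7 with h7 | h7
      · exact h6 h7
      · rcases Finset.mem_insert.1 h7 with rfl | h7
        · exact hwY hv
        · exact hwY (hU1Y h7)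
    · obtain ⟨h5, h6⟩ := Finset.mem_sdiff.1 (h1.xsub Z hZ hw)
      obtain ⟨h8, h9⟩ := Finset.mem_erase.1 h5
      refine Finset.mem_sdiff.2 ⟨(Finset.mem_sdiff.1 (hYs h9)).1, ?_⟩
      intro h7
      rcases Finset.mem_union.1 h7 with h7 | h7
      · exact (Finset.mem_sdiff.1 (hYs h9)).2 h7
      · rcases Finset.mem_insert.1 h7 with h7 | h7
        · exact h8 h7
        · exact h6 h7
  · intro Z hZ
    rcases Finset.mem_union.1 hZ with hZ | hZ
    · exact hb.odd Z (Finset.mem_of_mem_erase hZ)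
    · exact h1.odd Z hZ
  · intro Z hZ Z' hZ' hne
    rcases Finset.mem_union.1 hZ with hZ | hZ <;> rcases Finset.mem_union.1 hZ' with hZ' | hZ'
    · exact hb.disj Z (Finset.mem_of_mem_erase hZ) Z' (Finset.mem_of_mem_erase hZ') hne
    · obtain ⟨hn, hZX⟩ := Finset.mem_erase.1 hZ
      exact (hb.disj Z hZX Y hY hn).mono_right (hX1Y Z' hZ')
    · obtain ⟨hn, hZX⟩ := Finset.mem_erase.1 hZ'
      exact ((hb.disj Z' hZX Y hY hn).mono_right (hX1Y Z hZ)).symm
    · exact h1.disj Z hZ Z' hZ' hne
  · intro Z hZ w hw z hz hadj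
    rcases Finset.mem_union.1 hZ with hZ | hZ
    · obtain ⟨hn, hZX⟩ := Finset.mem_erase.1 hZ
      rcases hb.closed Z hZX w hw z hz hadj with h | h
      · exact Or.inl h
      · exact Or.inr (Finset.mem_union_left _ h)
    · have hwY : w ∈ Y := hX1Y Z hZ hw
      rcases hb.closed Y hY w hwY z hz hadj with h | h
      · by_cases e : z = v
        · exact Or.inr (Finset.mem_union_right _ (by rw [e]; exact Finset.mem_insert_self _ _))
        · rcases h1.closed Z hZ w hw z (Finset.mem_erase.2 ⟨e, h⟩) hadj with h | h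
          · exact Or.inl h
          · exact Or.inr (Finset.mem_union_right _ (Finset.mem_insert_of_mem h))
      · exact Or.inr (Finset.mem_union_left _ h)
  · have h5 := Finset.card_union_le U (insert v U1)
    have h6 := Finset.card_insert_le v U1
    rw [Finset.card_union_of_disjoint hd]
    have h7 := Finset.card_erase_add_one hY
    omega
  · apply Finset.card_lt_card
    rw [Finset.ssubset_iff_of_subset Finset.subset_union_left]
    exact ⟨v, Finset.mem_union_right _ (Finset.mem_insert_self _ _), hvU⟩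

theorem max_barrier (hBAR : S_BAR) {V : Type} [Fintype V] [DecidableEq V] (G : SimpleGraph V)
    (A : Finset V) (hno : ¬ HasPM G A) {x0 y0 : V} (hx : x0 ∈ A) (hy : y0 ∈ A) (hxy : x0 ≠ y0)
    (hpm : HasPM G (A \ {x0, y0})) :
    ∃ (U : Finset V) (X : Finset (Finset V)), IsBar G A U X ∧ X.card = U.card + 2 ∧
      (∀ v ∈ A, v ∉ U → ∃ Y ∈ X, v ∈ Y) ∧ (∀ Y ∈ X, ∀ v ∈ Y, HasPM G (Y.erase v)) ∧
      ∀ x ∈ A, ∀ y ∈ A, x ≠ y → HasPM G (A \ {x, y}) →
        x ∉ U ∧ y ∉ U ∧ ∀ Y ∈ X, ¬ (x ∈ Y ∧ y ∈ Y) := by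
  classical
  have hAe : Even A.card := by
    obtain ⟨f, hf⟩ := hpm
    have h1 := hf.even
    have h2 : ({x0, y0} : Finset V) ⊆ A := by
      intro v hv
      rcases Finset.mem_insert.1 hv with rfl | hv
      · exact hx
      · rw [Finset.mem_singleton.1 hv]; exact hy
    have h3 := Finset.card_sdiff_add_card_eq_card h2
    rw [Finset.card_pair hxy] at h3
    rw [← h3]
    simpa [Nat.even_add] using h1
  obtain ⟨U0, X0, hb0, _, hc0⟩ := hBAR V G A hno
  obtain ⟨⟨U, X⟩, hUX, hmax⟩ := Finset.exists_max_image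
    (univ.filter (fun p : Finset V × Finset (Finset V) => IsBar G A p.1 p.2 ∧
      p.1.card + 2 ≤ p.2.card)) (fun p => p.1.card)
    ⟨(U0, X0), by simp only [Finset.mem_filter, Finset.mem_univ, true_and]; exact ⟨hb0, hc0 hAe⟩⟩
  simp only [Finset.mem_filter, Finset.mem_univ, true_and] at hUX
  obtain ⟨hb, hc⟩ := hUX
  have hmax' : ∀ (U' : Finset V) (X' : Finset (Finset V)), IsBar G A U' X' →
      U'.card + 2 ≤ X'.card → ¬ U.card < U'.card := by
    intro U' X' h1 h2
    exact not_lt.2 (hmax (U', X') (by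
      simp only [Finset.mem_filter, Finset.mem_univ, true_and]; exact ⟨h1, h2⟩))
  have hupper : X.card = U.card + 2 := by
    apply le_antisymm _ hc
    have h1 := bar_count hb hpm
    have h2 := bar_split X x0 y0
    have h3 := Finset.card_union_le (X.filter (fun Y => x0 ∈ Y)) (X.filter (fun Y => y0 ∈ Y))
    have h4 := bar_le_one hb x0
    have h5 := bar_le_one hb y0
    have h6 : (U \ {x0, y0}).card ≤ U.card := Finset.card_le_card Finset.sdiff_subset
    omega
  refine ⟨U, X, hb, hupper, ?_, ?_, ?_⟩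
  · intro v hv hvU
    by_contra hcon
    push Not at hcon
    obtain ⟨U', X', h1, h2, h3⟩ := bar_cover hAe hb hupper hv hvU hcon
    exact hmax' U' X' h1 h2 h3
  · intro Y hY v hv
    by_contra hcon
    obtain ⟨U', X', h1, h2, h3⟩ := bar_refine hBAR hb hc hY hv hcon
    exact hmax' U' X' h1 h2 h3
  · intro x hx y hy hne hpm'
    have h1 := bar_count hb hpm'
    have h2 := bar_split X x y
    have h3 := Finset.card_union_le (X.filter (fun Y => x ∈ Y)) (X.filter (fun Y => y ∈ Y))
    have h4 := bar_le_one hb x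
    have h5 := bar_le_one hb y
    have h6 : (U \ {x, y}).card ≤ U.card := Finset.card_le_card Finset.sdiff_subset
    have hxU : x ∉ U := by
      intro hxU
      have h7 : X.filter (fun Y => x ∈ Y) = ∅ := by
        rw [Finset.filter_eq_empty_iff]
        intro Y hY hxY
        exact (Finset.mem_sdiff.1 (hb.xsub Y hY hxY)).2 hxU
      have h8 : (U \ {x, y}).card < U.card := by
        apply Finset.card_lt_card
        rw [Finset.ssubset_iff_of_subset Finset.sdiff_subset]
        exact ⟨x, hxU, by simp⟩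
      rw [h7, Finset.card_empty] at h3
      rw [h7] at h2
      omega
    have hyU : y ∉ U := by
      intro hyU
      have h7 : X.filter (fun Y => y ∈ Y) = ∅ := by
        rw [Finset.filter_eq_empty_iff]
        intro Y hY hyY
        exact (Finset.mem_sdiff.1 (hb.xsub Y hY hyY)).2 hyU
      have h8 : (U \ {x, y}).card < U.card := by
        apply Finset.card_lt_card
        rw [Finset.ssubset_iff_of_subset Finset.sdiff_subset]
        exact ⟨y, hyU, by simp⟩
      rw [h7, Finset.card_empty] at h3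
      rw [h7] at h2
      omega
    refine ⟨hxU, hyU, ?_⟩
    rintro Y hY ⟨hxY, hyY⟩
    have h7 : X.filter (fun Z => x ∈ Z) ∪ X.filter (fun Z => y ∈ Z) ⊆ {Y} := by
      intro Z hZ
      rw [Finset.mem_singleton]
      by_contra hne'
      rcases Finset.mem_union.1 hZ with hZ | hZ
      · obtain ⟨hZ, h⟩ := Finset.mem_filter.1 hZ
        exact (Finset.disjoint_left.1 (hb.disj Z hZ Y hY hne')) h hxY
      · obtain ⟨hZ, h⟩ := Finset.mem_filter.1 hZ
        exact (Finset.disjoint_left.1 (hb.disj Z hZ Y hY hne')) h hyY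
    have h8 := Finset.card_le_card h7
    rw [Finset.card_singleton] at h8
    omega

end Pool.Agent.H689.MM
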