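import Pool.Agent.H689.MM.Stm

/-!
Basic lemmas on perfect matchings in involution form, parity and the slack lemma.
-/

namespace Pool.Agent.H689.MM

open Finset

theorem even_of_invol {V : Type*} {Y : Finset V} {h : V → V} (h1 : ∀ v ∈ Y, h v ∈ Y)
    (h2 : ∀ v ∈ Y, h (h v) = v) (h3 : ∀ v ∈ Y, h v ≠ v) : Even Y.card := by
  have key : ((Y.card : ℕ) : ZMod 2) = 0 := by
    have := Finset.sum_involution (s := Y) (f := fun _ => (1 : ZMod 2)) (fun v _ => h v)
      (by intro v hv; decide) (by intro v hv _; exact h3 v hv) (by intro v hv; exact h1 v hv)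
      (by intro v hv; exact h2 v hv)
    simpa using this
  exact (ZMod.natCast_eq_zero_iff_even).1 key

namespace IsPM

variable {V : Type*} {G : SimpleGraph V} {A B : Finset V} {f g : V → V}

theorem ne (h : IsPM G A f) {v : V} (hv : v ∈ A) : f v ≠ v := (h.adj v hv).ne'

theorem inj (h : IsPM G A f) {v w : V} (hv : v ∈ A) (hw : w ∈ A) (e : f v = f w) : v = w := by
  rw [← h.inv v hv, ← h.inv w hw, e]

theorem injOn (h : IsPM G A f) : Set.InjOn f (A : Set V) := fun v hv w hw e =>
  h.inj hv hw e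

theorem even (h : IsPM G A f) : Even A.card :=
  even_of_invol h.mem h.inv (fun _ hv => h.ne hv)

theorem restrict (h : IsPM G A f) (hB : B ⊆ A) (hc : ∀ v ∈ B, f v ∈ B) : IsPM G B f :=
  ⟨hc, fun v hv => h.adj v (hB hv), fun v hv => h.inv v (hB hv)⟩

theorem hasPM (h : IsPM G A f) : HasPM G A := ⟨f, h⟩

/-- the complement of a closed set is closed -/
theorem compl (h : IsPM G A f) (hB : B ⊆ A) (hc : ∀ v ∈ B, f v ∈ B) {v : V} (hv : v ∈ A)
    (hvB : v ∉ B) : f v ∉ B := by
  intro hf
  apply hvB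
  have := hc _ hf
  rwa [h.inv v hv] at this

theorem sdiff [DecidableEq V] (h : IsPM G A f) (hB : B ⊆ A) (hc : ∀ v ∈ B, f v ∈ B) :
    IsPM G (A \ B) f := by
  refine h.restrict Finset.sdiff_subset ?_
  intro v hv
  rw [Finset.mem_sdiff] at hv ⊢
  exact ⟨h.mem v hv.1, h.compl hB hc hv.1 hv.2⟩

theorem glue [DecidableEq V] (h : IsPM G A f) (h' : IsPM G B g) (hd : Disjoint A B) :
    IsPM G (A ∪ B) (fun v => if v ∈ A then f v else g v) := by
  have hd' : ∀ v ∈ B, v ∉ A := fun v hv hA => (Finset.disjoint_left.1 hd) hA hv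
  refine ⟨?_, ?_, ?_⟩
  · intro v hv
    by_cases hA : v ∈ A
    · simp only [hA, if_true]; exact Finset.mem_union_left _ (h.mem v hA)
    · simp only [hA, if_false]
      exact Finset.mem_union_right _ (h'.mem v ((Finset.mem_union.1 hv).resolve_left hA))
  · intro v hv
    by_cases hA : v ∈ A
    · simp only [hA, if_true]; exact h.adj v hA
    · simp only [hA, if_false]
      exact h'.adj v ((Finset.mem_union.1 hv).resolve_left hA)
  · intro v hv
    by_cases hA : v ∈ A
    · simp only [hA, if_true, h.mem v hA, h.inv v hA]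
    · have hB := (Finset.mem_union.1 hv).resolve_left hA
      simp only [hA, if_false, hd' _ (h'.mem v hB), h'.inv v hB]

end IsPM

theorem isPM_pair {V : Type*} [DecidableEq V] {G : SimpleGraph V} {a b : V} (h : G.Adj a b) :
    IsPM G {a, b} (fun v => if v = a then b else a) := by
  have hne := h.ne
  refine ⟨?_, ?_, ?_⟩
  · intro v hv
    by_cases e : v = a <;> simp [e]
  · intro v hv
    by_cases e : v = a
    · simp only [e, if_true]; exact h
    · have : v = b := by simpa [e] using hv
      simp only [e, if_false]; rw [this]; exact h.symm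
  · intro v hv
    by_cases e : v = a
    · simp only [e, if_true, hne.symm, if_false]
    · have : v = b := by simpa [e] using hv
      simp [this, hne.symm]

theorem HasPM.glue {V : Type*} [DecidableEq V] {G : SimpleGraph V} {A B : Finset V}
    (h : HasPM G A) (h' : HasPM G B) (hd : Disjoint A B) : HasPM G (A ∪ B) := by
  obtain ⟨f, hf⟩ := h
  obtain ⟨g, hg⟩ := h'
  exact ⟨_, hf.glue hg hd⟩

theorem hasPM_empty {V : Type*} (G : SimpleGraph V) : HasPM G ∅ :=
  ⟨id, ⟨by simp, by simp, by simp⟩⟩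

/-- if `u v` is an edge inside `A` and `A \ {u,v}` has a perfect matching, so has `A`. -/
theorem hasPM_add {V : Type*} [DecidableEq V] {G : SimpleGraph V} {A : Finset V} {u v : V}
    (hu : u ∈ A) (hv : v ∈ A) (h : G.Adj u v) (hA : HasPM G (A \ {u, v})) : HasPM G A := by
  have h2 := (isPM_pair h).hasPM.glue hA Finset.disjoint_sdiff
  rwa [Finset.union_sdiff_of_subset] at h2
  intro w hw
  rcases Finset.mem_insert.1 hw with rfl | hw
  · exact hu
  · rw [Finset.mem_singleton.1 hw]; exact hv

/-- removing a matching edge -/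
theorem IsPM.remove {V : Type*} [DecidableEq V] {G : SimpleGraph V} {A : Finset V} {f : V → V}
    (h : IsPM G A f) {u v : V} (hu : u ∈ A) (huv : f u = v) : IsPM G (A \ {u, v}) f := by
  subst huv
  apply h.sdiff
  · intro w hw
    rcases Finset.mem_insert.1 hw with rfl | hw
    · exact hu
    · rw [Finset.mem_singleton.1 hw]; exact h.mem u hu
  · intro w hw
    rcases Finset.mem_insert.1 hw with rfl | hw
    · simp
    · rw [Finset.mem_singleton.1 hw, h.inv u hu]; simp

section Slack

variable {V : Type*} [DecidableEq V]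

/-- the vertices of `X` that are not matched inside `X` by the perfect matching `g` of `B` -/
def cr (g : V → V) (B X : Finset V) : Finset V := X.filter (fun v => v ∉ B ∨ g v ∉ X)

theorem mem_cr {g : V → V} {B X : Finset V} {v : V} :
    v ∈ cr g B X ↔ v ∈ X ∧ (v ∉ B ∨ g v ∉ X) := by
  simp [cr]

theorem cr_odd {G : SimpleGraph V} {A B U : Finset V} {𝒳 : Finset (Finset V)} {g : V → V}
    (hb : IsBar G A U 𝒳) (hg : IsPM G B g) {X : Finset V} (hX : X ∈ 𝒳) :
    Odd (cr g B X).card := by
  have h1 : Even (X.filter (fun v => ¬ (v ∉ B ∨ g v ∉ X))).card := by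
    apply even_of_invol (h := g)
    · intro v hv
      simp only [Finset.mem_filter, not_or, not_not] at hv ⊢
      exact ⟨hv.2.2, hg.mem v hv.2.1, by rw [hg.inv v hv.2.1]; exact hv.1⟩
    · intro v hv
      simp only [Finset.mem_filter, not_or, not_not] at hv
      exact hg.inv v hv.2.1
    · intro v hv
      simp only [Finset.mem_filter, not_or, not_not] at hv
      exact hg.ne hv.2.1
  have h2 := Finset.card_filter_add_card_filter_not (s := X) (fun v => v ∉ B ∨ g v ∉ X)
  have h3 := hb.odd X hX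
  rw [← h2] at h3
  rw [Nat.odd_add] at h3
  exact h3.2 h1

theorem slack {G : SimpleGraph V} {A B U : Finset V} {𝒳 : Finset (Finset V)} {g : V → V} {k : ℕ}
    (hb : IsBar G A U 𝒳) (hg : IsPM G B g) (hc : 𝒳.card = U.card + 2)
    (hk : (A \ B).card + (B \ A).card ≤ k) :
    ((U ∩ B).filter (fun u => g u ∈ U)).card + ∑ X ∈ 𝒳, (cr g B X).card + 2 ≤ k + 𝒳.card := by
  have hsum : ∑ X ∈ 𝒳, (cr g B X).card = (𝒳.biUnion (cr g B)).card := by
    rw [Finset.card_biUnion]
    intro X hX Y hY hXY
    exact (hb.disj X hX Y hY hXY).mono (Finset.filter_subset _ _) (Finset.filter_subset _ _)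
  set C := 𝒳.biUnion (cr g B) with hC
  have h1 := Finset.card_filter_add_card_filter_not (s := C) (fun v => v ∈ B)
  have h2 : (C.filter (fun v => ¬ v ∈ B)).card ≤ (A \ B).card := by
    apply Finset.card_le_card
    intro v hv
    simp only [hC, Finset.mem_filter, Finset.mem_biUnion, mem_cr] at hv
    obtain ⟨⟨X, hX, hvX, _⟩, hvB⟩ := hv
    exact Finset.mem_sdiff.2 ⟨(Finset.mem_sdiff.1 (hb.xsub X hX hvX)).1, hvB⟩
  have h3 : (C.filter (fun v => v ∈ B)).card ≤
      ((B \ A) ∪ (U ∩ B).filter (fun u => ¬ g u ∈ U)).card := by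
    apply Finset.card_le_card_of_injOn g
    · intro v hv
      simp only [hC, Finset.coe_filter, Finset.mem_biUnion, mem_cr, Set.mem_setOf_eq] at hv
      obtain ⟨⟨X, hX, hvX, hvg⟩, hvB⟩ := hv
      have hgv : g v ∉ X := by
        rcases hvg with h | h
        · exact absurd hvB h
        · exact h
      have hxs := Finset.mem_sdiff.1 (hb.xsub X hX hvX)
      rw [Finset.mem_coe, Finset.mem_union]
      by_cases hA : g v ∈ A
      · right
        rw [Finset.mem_filter, Finset.mem_inter]
        refine ⟨⟨(hb.closed X hX v hvX _ hA (hg.adj v hvB)).resolve_left hgv, hg.mem v hvB⟩, ?_⟩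
        rw [hg.inv v hvB]
        exact hxs.2
      · left
        exact Finset.mem_sdiff.2 ⟨hg.mem v hvB, hA⟩
    · intro v hv w hw e
      simp only [Finset.coe_filter, Set.mem_setOf_eq] at hv hw
      exact hg.inj hv.2 hw.2 e
  have h4 := Finset.card_union_le (B \ A) ((U ∩ B).filter (fun u => ¬ g u ∈ U))
  have h5 := Finset.card_filter_add_card_filter_not (s := U ∩ B) (fun u => g u ∈ U)
  have h6 : (U ∩ B).card ≤ U.card := Finset.card_le_card Finset.inter_subset_left
  rw [hsum]
  omega

theorem slack_bad {G : SimpleGraph V} {A B U : Finset V} {𝒳 : Finset (Finset V)} {g : V → V}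
    {k : ℕ} (hb : IsBar G A U 𝒳) (hg : IsPM G B g) (hc : 𝒳.card = U.card + 2)
    (hk : (A \ B).card + (B \ A).card ≤ k) :
    ((U ∩ B).filter (fun u => g u ∈ U)).card ≤ k ∧
    (𝒳.filter (fun X => (cr g B X).card ≠ 1)).card ≤ k ∧
    ((𝒳.filter (fun X => (cr g B X).card ≠ 1)).biUnion (cr g B)).card ≤ 2 * k := by
  have h0 := slack hb hg hc hk
  have h1 := Finset.sum_filter_add_sum_filter_not 𝒳 (fun X => (cr g B X).card ≠ 1)
    (fun X => (cr g B X).card)
  have h2 := Finset.card_filter_add_card_filter_not (s := 𝒳) (fun X => (cr g B X).card ≠ 1)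
  have h3 : ∑ X ∈ 𝒳.filter (fun X => ¬ (cr g B X).card ≠ 1), (cr g B X).card =
      (𝒳.filter (fun X => ¬ (cr g B X).card ≠ 1)).card := by
    rw [Finset.card_eq_sum_ones]
    apply Finset.sum_congr rfl
    intro X hX
    simpa using (Finset.mem_filter.1 hX).2
  have h4 : 3 * (𝒳.filter (fun X => (cr g B X).card ≠ 1)).card ≤
      ∑ X ∈ 𝒳.filter (fun X => (cr g B X).card ≠ 1), (cr g B X).card := by
    rw [mul_comm, ← smul_eq_mul, ← Finset.sum_const]
    apply Finset.sum_le_sum
    intro X hX
    obtain ⟨hX, h⟩ := Finset.mem_filter.1 hX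
    obtain ⟨j, hj⟩ := cr_odd hb hg hX
    omega
  have h5 : ((𝒳.filter (fun X => (cr g B X).card ≠ 1)).biUnion (cr g B)).card ≤
      ∑ X ∈ 𝒳.filter (fun X => (cr g B X).card ≠ 1), (cr g B X).card := Finset.card_biUnion_le
  refine ⟨?_, ?_, ?_⟩ <;> omega

end Slack

end Pool.Agent.H689.MM
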