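import Pool.Agent.H689.MM.Stm

/-!
# Leaf CNV: the two forms of perfect matchings (helper225)
-/

set_option autoImplicit false

namespace Pool.Agent.H689.MM

open Finset

namespace CNVL

universe u

variable {V : Type u} [Fintype V] [DecidableEq V] {G : SimpleGraph V} {S : Finset V}

theorem mem_iff {v : V} : v ∈ (((S : Finset V) : Set V)ᶜ) ↔ v ∈ univ \ S := by
  rw [Set.mem_compl_iff, mem_coe, mem_sdiff]
  simp

theorem of_matching (M : (G.induce (((S : Finset V) : Set V)ᶜ)).Subgraph)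
    (hM : M.IsPerfectMatching) : HasPM G (univ \ S) := by
  classical
  rw [SimpleGraph.Subgraph.isPerfectMatching_iff] at hM
  choose p hp hp' using hM
  have hinv : ∀ v, p (p v) = v := fun v => (hp' (p v) v (hp v).symm).symm
  obtain ⟨f, hf⟩ : ∃ f : V → V, ∀ (v : V) (h : v ∈ (((S : Finset V) : Set V)ᶜ)),
      f v = (p ⟨v, h⟩ : V) := by
    refine ⟨fun v => if h : v ∈ (((S : Finset V) : Set V)ᶜ) then (p ⟨v, h⟩ : V) else v, ?_⟩
    intro v h
    simp only [dif_pos h]
  refine ⟨f, ?_, ?_, ?_⟩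
  · intro v hv
    have h := mem_iff.2 hv
    rw [hf v h]
    exact mem_iff.1 (p ⟨v, h⟩).2
  · intro v hv
    have h := mem_iff.2 hv
    rw [hf v h]
    exact (hp ⟨v, h⟩).adj_sub
  · intro v hv
    have h := mem_iff.2 hv
    rw [hf v h, hf _ (p ⟨v, h⟩).2]
    exact congrArg Subtype.val (hinv ⟨v, h⟩)

theorem to_matching (h : HasPM G (univ \ S)) :
    ∃ M : (G.induce (((S : Finset V) : Set V)ᶜ)).Subgraph, M.IsPerfectMatching := by
  obtain ⟨f, h1, h2, h3⟩ := h
  refine ⟨⟨Set.univ, fun a b => f a = b, ?_, fun _ => Set.mem_univ _, ?_⟩, ?_⟩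
  · intro a b hab
    show G.Adj a b
    rw [← hab]
    exact h2 a (mem_iff.1 a.2)
  · refine ⟨fun a b hab => ?_⟩
    show f b = a
    rw [← hab]
    exact h3 a (mem_iff.1 a.2)
  · rw [SimpleGraph.Subgraph.isPerfectMatching_iff]
    intro v
    refine ⟨⟨f v, mem_iff.2 (h1 v (mem_iff.1 v.2))⟩, rfl, ?_⟩
    intro w hw
    exact Subtype.ext (Eq.symm hw)

end CNVL

universe u

theorem cnv : S_CNV.{u} := fun _ _ _ _ _ =>
  ⟨fun ⟨M, hM⟩ => CNVL.of_matching M hM, CNVL.to_matching⟩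

end Pool.Agent.H689.MM
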