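import Pool.Agent.H689.MM.Basic

/-!
The combinatorial core: a system of barriers that separates all nonadjacent pairs forces every
perfect matching (suitably chosen) to agree with `M` up to a bounded number of vertices.
-/

namespace Pool.Agent.H689.MM

open Finset

structure Dat {V : Type*} [DecidableEq V] (G : SimpleGraph V) (N T : Finset V) (M : V → V)
    (ι : Type*) where
  R : ι → Finset V
  U : ι → Finset V
  X : ι → Finset (Finset V)
  hNT : Disjoint N T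
  hM : IsPM G N M
  hR : ∀ l, R l ⊆ T
  bar : ∀ l, IsBar G (N ∪ R l) (U l) (X l)
  crd : ∀ l, (X l).card = (U l).card + 2
  part : ∀ l, ∀ v ∈ N ∪ R l, v ∉ U l → ∃ Y ∈ X l, v ∈ Y
  fc : ∀ l, ∀ Y ∈ X l, ∀ v ∈ Y, HasPM G (Y.erase v)
  sep : ∀ x y, x ≠ y → ¬ G.Adj x y → ∃ l, x ∈ N ∪ R l ∧ y ∈ N ∪ R l ∧ x ∉ U l ∧ y ∉ U l ∧
    ∀ Y ∈ X l, ¬ (x ∈ Y ∧ y ∈ Y)
  v2 : ∀ u ∈ N, ∀ v ∈ N, G.Adj u v → ∃ x y, G.Adj u x ∧ G.Adj v y ∧ x ≠ y ∧ ¬ G.Adj x y

theorem plain_props {V : Type*} [DecidableEq V] {g : V → V} {B X : Finset V} {v : V}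
    (hc : (cr g B X).card = 1) (hv : v ∈ cr g B X) {w : V} (hw : w ∈ X) (hwv : w ≠ v) :
    w ∈ B ∧ g w ∈ X := by
  obtain ⟨a, ha⟩ := Finset.card_eq_one.1 hc
  rw [ha, Finset.mem_singleton] at hv
  have : w ∉ cr g B X := by
    rw [ha, Finset.mem_singleton, ← hv]; exact hwv
  rw [mem_cr] at this
  push Not at this
  exact this hw

namespace Dat

variable {V : Type*} [DecidableEq V] {G : SimpleGraph V} {N T : Finset V} {M : V → V}
  {ι : Type*}

/-- wasted vertices for the index `l` -/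
def wst (D : Dat G N T M ι) (l : ι) : Finset V :=
  N.filter (fun v => (v ∈ D.U l ∧ M v ∈ D.U l) ∨
    ∃ Y ∈ D.X l, (cr M N Y).card ≠ 1 ∧ (v ∈ cr M N Y ∨ M v ∈ cr M N Y))

theorem nw1 (D : Dat G N T M ι) {l : ι} {v : V} (hv : v ∈ N) (hw : v ∉ D.wst l)
    (hU : v ∈ D.U l) : M v ∉ D.U l := by
  intro h
  exact hw (Finset.mem_filter.2 ⟨hv, Or.inl ⟨hU, h⟩⟩)

theorem nw2 (D : Dat G N T M ι) {l : ι} {v : V} (hv : v ∈ N) (hw : v ∉ D.wst l)
    {Y : Finset V} (hY : Y ∈ D.X l) (hvY : v ∈ Y) (hMv : M v ∉ Y) : (cr M N Y).card = 1 := by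
  by_contra h
  exact hw (Finset.mem_filter.2 ⟨hv, Or.inr ⟨Y, hY, h, Or.inl (mem_cr.2 ⟨hvY, Or.inr hMv⟩)⟩⟩)

theorem nw3 (D : Dat G N T M ι) {l : ι} {v : V} (hv : v ∈ N) (hw : v ∉ D.wst l)
    {Y : Finset V} (hY : Y ∈ D.X l) (hMv : M v ∈ Y) (hvY : v ∉ Y) : (cr M N Y).card = 1 := by
  by_contra h
  exact hw (Finset.mem_filter.2 ⟨hv, Or.inr ⟨Y, hY, h, Or.inr (mem_cr.2 ⟨hMv, Or.inr
    (by rw [D.hM.inv v hv]; exact hvY)⟩)⟩⟩)

theorem notU (D : Dat G N T M ι) {l : ι} {Y : Finset V} (hY : Y ∈ D.X l) {v : V} (hv : v ∈ Y) :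
    v ∉ D.U l := (Finset.mem_sdiff.1 ((D.bar l).xsub Y hY hv)).2

theorem memA (D : Dat G N T M ι) {l : ι} {Y : Finset V} (hY : Y ∈ D.X l) {v : V} (hv : v ∈ Y) :
    v ∈ N ∪ D.R l := (Finset.mem_sdiff.1 ((D.bar l).xsub Y hY hv)).1

theorem uniq (D : Dat G N T M ι) {l : ι} {Y Z : Finset V} (hY : Y ∈ D.X l) (hZ : Z ∈ D.X l)
    {v : V} (hvY : v ∈ Y) (hvZ : v ∈ Z) : Y = Z := by
  by_contra h
  exact (Finset.disjoint_left.1 ((D.bar l).disj Y hY Z hZ h)) hvY hvZ

theorem clos (D : Dat G N T M ι) {l : ι} {Y : Finset V} (hY : Y ∈ D.X l) {v w : V} (hv : v ∈ Y)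
    (hw : w ∈ N ∪ D.R l) (hwU : w ∉ D.U l) (h : G.Adj v w) : w ∈ Y :=
  ((D.bar l).closed Y hY v hv w hw h).resolve_right hwU

theorem classify (D : Dat G N T M ι) {K : Finset V} {b : V} {l : ι}
    (hKN : K ⊆ N) (hMb : M b ∉ K) (hK : ∀ v ∈ K, v ≠ b → M v ∈ K)
    (hfc : ∀ v ∈ K, HasPM G (K.erase v)) (hw : ∀ v ∈ K, v ∉ D.wst l)
    {q : V} (hq : q ∈ K) (hqU : q ∈ D.U l) :
    b ∈ D.U l ∨ ∃ u ∈ K, u ∈ D.U l ∧ M u ∈ K ∧ ∃ P ∈ D.X l, (cr M N P).card = 1 ∧ M u ∈ P ∧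
      b ∈ P ∧ M b ∈ P := by
  by_contra hcon
  push Not at hcon
  obtain ⟨hbU, hno⟩ := hcon
  have hX : ∀ u ∈ K, u ∈ D.U l → ∃ Y ∈ D.X l, M u ∈ Y ∧ (cr M N Y).card = 1 ∧ b ∉ Y ∧ u ∉ Y := by
    intro u hu huU
    have hub : u ≠ b := by rintro rfl; exact hbU huU
    have hMu : M u ∈ K := hK u hu hub
    have hMuU : M u ∉ D.U l := D.nw1 (hKN hu) (hw u hu) huU
    obtain ⟨Y, hY, hMuY⟩ := D.part l (M u) (Finset.mem_union_left _ (hKN hMu)) hMuU
    have huY : u ∉ Y := fun h => D.notU hY h huU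
    have hc := D.nw3 (hKN hu) (hw u hu) hY hMuY huY
    refine ⟨Y, hY, hMuY, hc, ?_, huY⟩
    intro hbY
    have hcr : M u ∈ cr M N Y := mem_cr.2 ⟨hMuY, Or.inr (by rw [D.hM.inv u (hKN hu)]; exact huY)⟩
    have hbne : b ≠ M u := by
      rintro rfl
      apply hMb
      rw [D.hM.inv u (hKN hu)]
      exact hu
    exact hno u hu huU hMu Y hY hc hMuY hbY (plain_props hc hcr hbY hbne).2
  obtain ⟨h, hh⟩ := hfc q hq
  have hv : ∀ u ∈ K, u ∈ D.U l → ∃ v, (∃ Y ∈ D.X l, M u ∈ Y ∧ (cr M N Y).card = 1 ∧ u ∉ Y ∧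
      v ∈ Y) ∧ v ∈ K.erase q ∧ h v ∈ K ∧ h v ≠ q ∧ h v ∈ D.U l := by
    intro u hu huU
    have hub : u ≠ b := by rintro rfl; exact hbU huU
    have hMu : M u ∈ K := hK u hu hub
    obtain ⟨Y, hY, hMuY, hc, hbY, huY⟩ := hX u hu huU
    have hcr : M u ∈ cr M N Y := mem_cr.2 ⟨hMuY, Or.inr (by rw [D.hM.inv u (hKN hu)]; exact huY)⟩
    by_contra hcon
    push Not at hcon
    have hsub : ∀ v ∈ Y ∩ K, v ∈ K.erase q := by
      intro v hv
      obtain ⟨hvY, hvK⟩ := Finset.mem_inter.1 hv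
      refine Finset.mem_erase.2 ⟨?_, hvK⟩
      rintro rfl
      exact D.notU hY hvY hqU
    have hev : Even (Y ∩ K).card := by
      apply even_of_invol (h := h)
      · intro v hv
        have hvq := hsub v hv
        obtain ⟨hvY, hvK⟩ := Finset.mem_inter.1 hv
        have hhv := hh.mem v hvq
        obtain ⟨hne, hhK⟩ := Finset.mem_erase.1 hhv
        have hhU : h v ∉ D.U l := hcon v ⟨Y, hY, hMuY, hc, huY, hvY⟩ hvq hhK hne
        exact Finset.mem_inter.2 ⟨D.clos hY hvY (Finset.mem_union_left _ (hKN hhK)) hhU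
          (hh.adj v hvq), hhK⟩
      · intro v hv
        exact hh.inv v (hsub v hv)
      · intro v hv
        exact hh.ne (hsub v hv)
    have hev2 : Even ((Y ∩ K).erase (M u)).card := by
      apply even_of_invol (h := M)
      · intro v hv
        obtain ⟨hvu, hv'⟩ := Finset.mem_erase.1 hv
        obtain ⟨hvY, hvK⟩ := Finset.mem_inter.1 hv'
        have h1 := (plain_props hc hcr hvY hvu).2
        have hvb : v ≠ b := by rintro rfl; exact hbY hvY
        refine Finset.mem_erase.2 ⟨?_, Finset.mem_inter.2 ⟨h1, hK v hvK hvb⟩⟩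
        intro e
        have := D.hM.inj (hKN hvK) (hKN hu) e
        rw [this] at hvY
        exact huY hvY
      · intro v hv
        exact D.hM.inv v (hKN (Finset.mem_inter.1 (Finset.mem_erase.1 hv).2).2)
      · intro v hv
        exact D.hM.ne (hKN (Finset.mem_inter.1 (Finset.mem_erase.1 hv).2).2)
    have hmem : M u ∈ Y ∩ K := Finset.mem_inter.2 ⟨hMuY, hMu⟩
    rw [← Finset.card_erase_add_one hmem] at hev
    rw [Nat.even_add_one] at hev
    exact hev hev2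
  choose! w hw1 hw2 hw3 hw4 hw5 using hv
  have hcard : (K.filter (fun u => u ∈ D.U l)).card ≤
      ((K.filter (fun u => u ∈ D.U l)).erase q).card := by
    apply Finset.card_le_card_of_injOn (fun u => h (w u))
    · intro u hu
      obtain ⟨huK, huU⟩ := Finset.mem_filter.1 (Finset.mem_coe.1 hu)
      exact Finset.mem_coe.2 (Finset.mem_erase.2 ⟨hw4 u huK huU, Finset.mem_filter.2
        ⟨hw3 u huK huU, hw5 u huK huU⟩⟩)
    · intro u hu u' hu' e
      obtain ⟨huK, huU⟩ := Finset.mem_filter.1 (Finset.mem_coe.1 hu)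
      obtain ⟨huK', huU'⟩ := Finset.mem_filter.1 (Finset.mem_coe.1 hu')
      have e' : w u = w u' := hh.inj (hw2 u huK huU) (hw2 u' huK' huU') e
      obtain ⟨Y, hY, hMY, hc, huY, hwY⟩ := hw1 u huK huU
      obtain ⟨Y', hY', hMY', hc', huY', hwY'⟩ := hw1 u' huK' huU'
      rw [e'] at hwY
      have hYY : Y = Y' := D.uniq hY hY' hwY hwY'
      subst hYY
      by_contra hne
      have hcr : M u ∈ cr M N Y :=
        mem_cr.2 ⟨hMY, Or.inr (by rw [D.hM.inv u (hKN huK)]; exact huY)⟩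
      have hne' : M u' ≠ M u := fun e2 => hne (D.hM.inj (hKN huK) (hKN huK') e2.symm)
      have := (plain_props hc hcr hMY' hne').2
      rw [D.hM.inv u' (hKN huK')] at this
      exact huY' this
  have hqm : q ∈ K.filter (fun u => u ∈ D.U l) := Finset.mem_filter.2 ⟨hq, hqU⟩
  exact absurd hcard (not_le.2 (Finset.card_erase_lt_of_mem hqm))

/-- all wasted vertices -/
def S0 [Fintype ι] (D : Dat G N T M ι) : Finset V := univ.biUnion D.wst

/-- the bad vertices for the perfect matching `g` of `G[N ∪ Q]` -/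
def bad [Fintype ι] (D : Dat G N T M ι) (Q : Finset V) (g : V → V) : Finset V :=
  N.filter (fun v => v ∈ D.S0 ∨ ∃ l,
    (∃ Y ∈ D.X l, v ∈ cr M N Y ∧ (cr M N Y).card = 1 ∧ (∃ w ∈ Y, w ∈ D.S0)) ∨
    (∃ Y ∈ D.X l, v ∈ cr M N Y ∧ (cr M N Y).card = 1 ∧ (cr g (N ∪ Q) Y).card ≠ 1) ∨
    (v ∈ D.U l ∧ g v ∈ D.U l) ∨
    (∃ Y ∈ D.X l, (cr g (N ∪ Q) Y).card ≠ 1 ∧ v ∈ cr g (N ∪ Q) Y))

theorem mem_bad [Fintype ι] (D : Dat G N T M ι) {Q : Finset V} {g : V → V} {v : V} :
    v ∈ D.bad Q g ↔ v ∈ N ∧ (v ∈ D.S0 ∨ ∃ l,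
    (∃ Y ∈ D.X l, v ∈ cr M N Y ∧ (cr M N Y).card = 1 ∧ (∃ w ∈ Y, w ∈ D.S0)) ∨
    (∃ Y ∈ D.X l, v ∈ cr M N Y ∧ (cr M N Y).card = 1 ∧ (cr g (N ∪ Q) Y).card ≠ 1) ∨
    (v ∈ D.U l ∧ g v ∈ D.U l) ∨
    (∃ Y ∈ D.X l, (cr g (N ∪ Q) Y).card ≠ 1 ∧ v ∈ cr g (N ∪ Q) Y)) := by
  rw [bad, Finset.mem_filter]

theorem notW [Fintype ι] (D : Dat G N T M ι) {v : V} (h : v ∉ D.S0) (l : ι) : v ∉ D.wst l :=
  fun hv => h (Finset.mem_biUnion.2 ⟨l, Finset.mem_univ _, hv⟩)

variable [Fintype ι]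

/-- replacing `g` by `M` on a set closed under both -/
theorem replace (D : Dat G N T M ι) {Q : Finset V} {g : V → V} (hg : IsPM G (N ∪ Q) g)
    {Z : Finset V} (hZN : Z ⊆ N) (hZM : ∀ v ∈ Z, M v ∈ Z) (hZg : ∀ v ∈ Z, g v ∈ Z) :
    IsPM G (N ∪ Q) (fun v => if v ∈ Z then M v else g v) := by
  have hsub : Z ⊆ N ∪ Q := hZN.trans Finset.subset_union_left
  have h := (D.hM.restrict hZN hZM).glue (hg.sdiff hsub hZg) Finset.disjoint_sdiff
  rwa [Finset.union_sdiff_of_subset hsub] at h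

theorem star (D : Dat G N T M ι) {Q : Finset V} {g : V → V} (hg : IsPM G (N ∪ Q) g)
    (hmax : ∀ g', IsPM G (N ∪ Q) g' →
      (N.filter (fun v => g' v = M v)).card ≤ (N.filter (fun v => g v = M v)).card)
    {r : V} {l : ι} {K : Finset V} (hr : r ∈ N) (hK : K ∈ D.X l) (hrK : r ∈ K)
    (hMr : M r ∈ D.U l) (hgr : g r ∈ K) (hbad : r ∉ D.bad Q g) (l' : ι) : g r ∉ D.U l' := by
  intro hgU
  rw [mem_bad] at hbad
  push Not at hbad
  obtain ⟨hS0, hbad⟩ := hbad hr
  have hMrK : M r ∉ K := fun h => D.notU hK h hMr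
  have hcK : (cr M N K).card = 1 := D.nw2 hr (D.notW hS0 l) hK hrK hMrK
  have hrcr : r ∈ cr M N K := mem_cr.2 ⟨hrK, Or.inr hMrK⟩
  have hKS : ∀ w ∈ K, w ∉ D.S0 := (hbad l).1 K hK hrcr hcK
  have hcgK : (cr g (N ∪ Q) K).card = 1 := (hbad l).2.1 K hK hrcr hcK
  have hKN : K ⊆ N := by
    intro w hw
    by_cases e : w = r
    · rw [e]; exact hr
    · exact (plain_props hcK hrcr hw e).1
  have hKM : ∀ v ∈ K, v ≠ r → M v ∈ K := fun v hv hne => (plain_props hcK hrcr hv hne).2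
  have hgN : g r ∈ N := hKN hgr
  have hrB : r ∈ N ∪ Q := Finset.mem_union_left _ hr
  rcases D.classify (l := l') hKN hMrK hKM (D.fc l K hK) (fun v hv => D.notW (hKS v hv) l')
    hgr hgU with hrU | ⟨u, huK, huU, hMuK, P, hP, hcP, hMuP, hrP, hMrP⟩
  · exact (hbad l').2.2.1 hrU hgU
  · have hgrP : g r ∉ P := fun h => D.notU hP h hgU
    have hrcg : r ∈ cr g (N ∪ Q) P := mem_cr.2 ⟨hrP, Or.inr hgrP⟩
    have hcgP : (cr g (N ∪ Q) P).card = 1 := by
      by_contra h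
      exact (hbad l').2.2.2 P hP h hrcg
    have hPg : ∀ w ∈ P, w ≠ r → g w ∈ P := fun w hw hne => (plain_props hcgP hrcg hw hne).2
    have huP : u ∉ P := fun h => D.notU hP h huU
    have hMucr : M u ∈ cr M N P :=
      mem_cr.2 ⟨hMuP, Or.inr (by rw [D.hM.inv u (hKN huK)]; exact huP)⟩
    have hPN : P ⊆ N := by
      intro w hw
      by_cases e : w = M u
      · rw [e]; exact hKN hMuK
      · exact (plain_props hcP hMucr hw e).1
    have hPM : ∀ w ∈ P, w ≠ M u → M w ∈ P := fun w hw hne => (plain_props hcP hMucr hw hne).2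
    obtain ⟨z, hz⟩ := Finset.card_eq_one.1 hcgK
    have hzcr : z ∈ cr g (N ∪ Q) K := by rw [hz]; exact Finset.mem_singleton_self z
    have hzK : z ∈ K := (mem_cr.1 hzcr).1
    have hzB : z ∈ N ∪ Q := Finset.mem_union_left _ (hKN hzK)
    have hKg : ∀ w ∈ K, w ≠ z → g w ∈ K := fun w hw hne => (plain_props hcgK hzcr hw hne).2
    have hgz : g z ∈ P \ K := by
      by_contra hgz
      have hev : Even (P \ K).card := by
        apply even_of_invol (h := g)
        · intro v hv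
          obtain ⟨hvP, hvK⟩ := Finset.mem_sdiff.1 hv
          have hvr : v ≠ r := by rintro rfl; exact hvK hrK
          have h1 := hPg v hvP hvr
          refine Finset.mem_sdiff.2 ⟨h1, ?_⟩
          intro h2
          have hgv : g (g v) = v := hg.inv v (Finset.mem_union_left _ (hPN hvP))
          have h3 : g v ∈ cr g (N ∪ Q) K := mem_cr.2 ⟨h2, Or.inr (by rw [hgv]; exact hvK)⟩
          rw [hz, Finset.mem_singleton] at h3
          apply hgz
          rw [← h3, hgv]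
          exact hv
        · intro v hv
          exact hg.inv v (Finset.mem_union_left _ (hPN (Finset.mem_sdiff.1 hv).1))
        · intro v hv
          exact hg.ne (Finset.mem_union_left _ (hPN (Finset.mem_sdiff.1 hv).1))
      have hev2 : Even ((P \ K).erase (M r)).card := by
        apply even_of_invol (h := M)
        · intro v hv
          obtain ⟨hvr, hv'⟩ := Finset.mem_erase.1 hv
          obtain ⟨hvP, hvK⟩ := Finset.mem_sdiff.1 hv'
          have hvu : v ≠ M u := by rintro rfl; exact hvK hMuK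
          have h1 := hPM v hvP hvu
          have hMMv : M (M v) = v := D.hM.inv v (hPN hvP)
          refine Finset.mem_erase.2 ⟨?_, Finset.mem_sdiff.2 ⟨h1, ?_⟩⟩
          · intro e
            have := D.hM.inj (hPN hvP) hr e
            rw [this] at hvK
            exact hvK hrK
          · intro h2
            have h3 : M v ∈ cr M N K := mem_cr.2 ⟨h2, Or.inr (by rw [hMMv]; exact hvK)⟩
            obtain ⟨c, hc⟩ := Finset.card_eq_one.1 hcK
            rw [hc, Finset.mem_singleton] at h3 hrcr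
            apply hvr
            rw [← hMMv, h3, ← hrcr]
        · intro v hv
          exact D.hM.inv v (hPN (Finset.mem_sdiff.1 (Finset.mem_erase.1 hv).2).1)
        · intro v hv
          exact D.hM.ne (hPN (Finset.mem_sdiff.1 (Finset.mem_erase.1 hv).2).1)
      have hmem : M r ∈ P \ K := Finset.mem_sdiff.2 ⟨hMrP, hMrK⟩
      rw [← Finset.card_erase_add_one hmem, Nat.even_add_one] at hev
      exact hev hev2
    have hZN : K ∪ P ⊆ N := Finset.union_subset hKN hPN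
    have hZM : ∀ v ∈ K ∪ P, M v ∈ K ∪ P := by
      intro v hv
      rcases Finset.mem_union.1 hv with hv | hv
      · by_cases e : v = r
        · rw [e]; exact Finset.mem_union_right _ hMrP
        · exact Finset.mem_union_left _ (hKM v hv e)
      · by_cases e : v = M u
        · rw [e, D.hM.inv u (hKN huK)]; exact Finset.mem_union_left _ huK
        · exact Finset.mem_union_right _ (hPM v hv e)
    have hZg : ∀ v ∈ K ∪ P, g v ∈ K ∪ P := by
      intro v hv
      rcases Finset.mem_union.1 hv with hv | hv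
      · by_cases e : v = z
        · rw [e]; exact Finset.mem_union_right _ (Finset.mem_sdiff.1 hgz).1
        · exact Finset.mem_union_left _ (hKg v hv e)
      · by_cases e : v = r
        · rw [e]; exact Finset.mem_union_left _ hgr
        · exact Finset.mem_union_right _ (hPg v hv e)
    have hnew := hmax _ (D.replace hg hZN hZM hZg)
    refine absurd hnew (not_le.2 (Finset.card_lt_card ?_))
    rw [Finset.ssubset_iff_of_subset]
    · refine ⟨r, Finset.mem_filter.2 ⟨hr, ?_⟩, ?_⟩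
      · simp only [Finset.mem_union, hrK, true_or, if_true]
      · intro h
        have := (Finset.mem_filter.1 h).2
        rw [this] at hgr
        exact hMrK hgr
    · intro v hv
      obtain ⟨hvN, hvM⟩ := Finset.mem_filter.1 hv
      refine Finset.mem_filter.2 ⟨hvN, ?_⟩
      by_cases e : v ∈ K ∪ P
      · simp only [e, if_true]
      · simp only [e, if_false, hvM]

theorem swap (D : Dat G N T M ι) {Q : Finset V} {g : V → V} (hg : IsPM G (N ∪ Q) g)
    (hmax : ∀ g', IsPM G (N ∪ Q) g' →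
      (N.filter (fun v => g' v = M v)).card ≤ (N.filter (fun v => g v = M v)).card)
    {a : V} (ha : a ∈ N) (hne : g a ≠ M a) : g a ≠ g (M a) ∧ ¬ G.Adj (g a) (g (M a)) := by
  set b := M a with hb
  have hbN : b ∈ N := D.hM.mem a ha
  have hMb : M b = a := D.hM.inv a ha
  have haB : a ∈ N ∪ Q := Finset.mem_union_left _ ha
  have hbB : b ∈ N ∪ Q := Finset.mem_union_left _ hbN
  have hab : G.Adj a b := D.hM.adj a ha
  have hgne : g a ≠ g b := fun e => hab.ne (hg.inj haB hbB e)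
  refine ⟨hgne, fun hadj => ?_⟩
  have hgga : g (g a) = a := hg.inv a haB
  have hggb : g (g b) = b := hg.inv b hbB
  have hgba : g b ≠ a := by
    intro e
    apply hne
    rw [← e, hggb]
  have hgab : g a ≠ b := hne
  have hgaa : g a ≠ a := hg.ne haB
  have hgbb : g b ≠ b := hg.ne hbB
  have hd : Disjoint ({a, b} : Finset V) {g a, g b} := by
    rw [Finset.disjoint_left]
    intro x hx hx'
    simp only [Finset.mem_insert, Finset.mem_singleton] at hx hx'
    rcases hx with rfl | rfl <;> rcases hx' with h | h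
    · exact hgaa h.symm
    · exact hgba h.symm
    · exact hgab h.symm
    · exact hgbb h.symm
  have h1 := (isPM_pair hab).glue (isPM_pair hadj) hd
  have hZ : ({a, b} ∪ {g a, g b} : Finset V) ⊆ N ∪ Q := by
    intro x hx
    simp only [Finset.mem_union, Finset.mem_insert, Finset.mem_singleton] at hx
    rcases hx with (rfl | rfl) | (rfl | rfl)
    · exact haB
    · exact hbB
    · exact hg.mem a haB
    · exact hg.mem b hbB
  have hZg : ∀ v ∈ ({a, b} ∪ {g a, g b} : Finset V), g v ∈ ({a, b} ∪ {g a, g b} : Finset V) := by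
    intro x hx
    simp only [Finset.mem_union, Finset.mem_insert, Finset.mem_singleton] at hx ⊢
    rcases hx with (rfl | rfl) | (rfl | rfl)
    · right; left; rfl
    · right; right; rfl
    · left; left; exact hgga
    · left; right; exact hggb
  have h2 := h1.glue (hg.sdiff hZ hZg) Finset.disjoint_sdiff
  rw [Finset.union_sdiff_of_subset hZ] at h2
  have hnew := hmax _ h2
  refine absurd hnew (not_le.2 (Finset.card_lt_card ?_))
  rw [Finset.ssubset_iff_of_subset]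
  · refine ⟨a, Finset.mem_filter.2 ⟨ha, ?_⟩, ?_⟩
    · simp only [Finset.mem_union, Finset.mem_insert, true_or, if_true]
      exact hb
    · intro h
      exact hne (Finset.mem_filter.1 h).2
  · intro v hv
    obtain ⟨hvN, hvM⟩ := Finset.mem_filter.1 hv
    refine Finset.mem_filter.2 ⟨hvN, ?_⟩
    have hvZ : v ∉ ({a, b} ∪ {g a, g b} : Finset V) := by
      intro hx
      simp only [Finset.mem_union, Finset.mem_insert, Finset.mem_singleton] at hx
      rcases hx with (rfl | rfl) | (rfl | rfl)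
      · exact hne hvM
      · rw [hMb] at hvM; exact hgba hvM
      · rw [hgga] at hvM
        apply hne
        have := D.hM.inv (g a) hvN
        rw [← hvM] at this
        rw [← this]
      · rw [hggb] at hvM
        have := D.hM.inv (g b) hvN
        rw [← hvM, hMb] at this
        exact hgba this.symm
    simp only [hvZ, if_false, hvM]

theorem sameclass (D : Dat G N T M ι) {l : ι} {a b p c : V} (ha : a ∈ N) (hb : b ∈ N)
    (hab : G.Adj a b) (haU : a ∉ D.U l) (hbU : b ∉ D.U l) (hap : G.Adj a p) (hbc : G.Adj b c)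
    (hp : p ∈ N ∪ D.R l) (hc : c ∈ N ∪ D.R l) (hpU : p ∉ D.U l) (hcU : c ∉ D.U l) :
    ∃ Y ∈ D.X l, p ∈ Y ∧ c ∈ Y := by
  obtain ⟨Y, hY, haY⟩ := D.part l a (Finset.mem_union_left _ ha) haU
  have hbY := D.clos hY haY (Finset.mem_union_left _ hb) hbU hab
  exact ⟨Y, hY, D.clos hY haY hp hpU hap, D.clos hY hbY hc hcU hbc⟩

theorem claim_aux (D : Dat G N T M ι) {Q : Finset V} {g : V → V} (hg : IsPM G (N ∪ Q) g)
    (hmax : ∀ g', IsPM G (N ∪ Q) g' →
      (N.filter (fun v => g' v = M v)).card ≤ (N.filter (fun v => g v = M v)).card)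
    {a b : V} {l : ι} (ha : a ∈ N) (hb : b ∈ N) (hMa : M a = b) (hMb : M b = a)
    (hne : g b ≠ a) (haU : a ∈ D.U l) (hbU : b ∉ D.U l) (hc : g b ∈ N ∪ D.R l)
    (hcU : g b ∉ D.U l) (hbad : b ∉ D.bad Q g) (hcbad : g b ∉ D.bad Q g) : False := by
  have hbB : b ∈ N ∪ Q := Finset.mem_union_left _ hb
  obtain ⟨K, hK, hbK⟩ := D.part l b (Finset.mem_union_left _ hb) hbU
  have hcK : g b ∈ K := D.clos hK hbK hc hcU (hg.adj b hbB)
  have hS0 : b ∉ D.S0 := by
    intro h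
    exact hbad (D.mem_bad.2 ⟨hb, Or.inl h⟩)
  have haK : M b ∉ K := by rw [hMb]; exact fun h => D.notU hK h haU
  have hcard := D.nw2 hb (D.notW hS0 l) hK hbK haK
  have hbcr : b ∈ cr M N K := mem_cr.2 ⟨hbK, Or.inr haK⟩
  have hcN : g b ∈ N := (plain_props hcard hbcr hcK (hg.ne hbB)).1
  have hstar1 := D.star hg hmax hb hK hbK (by rw [hMb]; exact haU) hcK hbad
  set c := g b with hcdef
  have hgc : g c = b := hg.inv b hbB
  have hdN : M c ∈ N := D.hM.mem c hcN
  have hgcM : g c ≠ M c := by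
    rw [hgc]
    intro e
    apply hne
    rw [← D.hM.inv c hcN, ← e, hMb]
  obtain ⟨hs1, hs2⟩ := D.swap hg hmax hcN hgcM
  rw [hgc] at hs1 hs2
  obtain ⟨l₂, h1, h2, h3, h4, h5⟩ := D.sep _ _ hs1 hs2
  have hcB : c ∈ N ∪ Q := Finset.mem_union_left _ hcN
  have hdB : M c ∈ N ∪ Q := Finset.mem_union_left _ hdN
  have hcb : G.Adj c b := (hg.adj b hbB).symm
  have hdU : M c ∈ D.U l₂ := by
    by_contra hdU
    obtain ⟨Y, hY, hY1, hY2⟩ := D.sameclass hcN hdN (D.hM.adj c hcN) (hstar1 l₂) hdU hcb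
      (hg.adj (M c) hdB) h1 h2 h3 h4
    exact h5 Y hY ⟨hY1, hY2⟩
  obtain ⟨Y, hY, hbY⟩ := D.part l₂ b h1 h3
  have hcY : c ∈ Y := D.clos hY hbY (Finset.mem_union_left _ hcN) (hstar1 l₂) hcb.symm
  have hstar2 := D.star hg hmax hcN hY hcY hdU (by rw [hgc]; exact hbY) hcbad
  rw [hgc] at hstar2
  obtain ⟨x, y, hx, hy, hxy, hnadj⟩ := D.v2 b hb c hcN hcb.symm
  obtain ⟨l₃, k1, k2, k3, k4, k5⟩ := D.sep x y hxy hnadj
  obtain ⟨Z, hZ, hZ1, hZ2⟩ := D.sameclass hb hcN hcb.symm (hstar2 l₃) (hstar1 l₃) hx hy k1 k2 k3 k4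
  exact k5 Z hZ ⟨hZ1, hZ2⟩

theorem claim (D : Dat G N T M ι) {Q : Finset V} {g : V → V} (hg : IsPM G (N ∪ Q) g)
    (hmax : ∀ g', IsPM G (N ∪ Q) g' →
      (N.filter (fun v => g' v = M v)).card ≤ (N.filter (fun v => g v = M v)).card)
    {a : V} (ha : a ∈ N) (hne : g a ≠ M a) :
    a ∈ D.bad Q g ∨ M a ∈ D.bad Q g ∨ g a ∈ D.bad Q g ∨ g (M a) ∈ D.bad Q g := by
  by_contra hcon
  push Not at hcon
  obtain ⟨hb1, hb2, hb3, hb4⟩ := hcon
  obtain ⟨hs1, hs2⟩ := D.swap hg hmax ha hne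
  obtain ⟨l, h1, h2, h3, h4, h5⟩ := D.sep _ _ hs1 hs2
  have haB : a ∈ N ∪ Q := Finset.mem_union_left _ ha
  have hbN : M a ∈ N := D.hM.mem a ha
  have hbB : M a ∈ N ∪ Q := Finset.mem_union_left _ hbN
  have hMb : M (M a) = a := D.hM.inv a ha
  have haS : a ∉ D.S0 := fun h => hb1 (D.mem_bad.2 ⟨ha, Or.inl h⟩)
  have hne2 : g (M a) ≠ a := by
    intro e
    apply hne
    rw [← hg.inv (M a) hbB, e]
  by_cases haU : a ∈ D.U l
  · exact D.claim_aux hg hmax ha hbN rfl hMb hne2 haU (D.nw1 ha (D.notW haS l) haU) h2 h4 hb2 hb4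
  · by_cases hbU : M a ∈ D.U l
    · exact D.claim_aux hg hmax hbN ha hMb rfl hne hbU haU h1 h3 hb1 hb3
    · obtain ⟨Y, hY, hY1, hY2⟩ := D.sameclass ha hbN (D.hM.adj a ha) haU hbU (hg.adj a haB)
        (hg.adj (M a) hbB) h1 h2 h3 h4
      exact h5 Y hY ⟨hY1, hY2⟩

end Dat

end Pool.Agent.H689.MM
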