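import Pool.Agent.H689.MM.Core

/-!
Counting the bad vertices.
-/

namespace Pool.Agent.H689.MM

open Finset

theorem card_biUnion_one {V : Type*} [DecidableEq V] (F : Finset (Finset V))
    (c : Finset V → Finset V) (h : ∀ Y ∈ F, (c Y).card = 1) : (F.biUnion c).card ≤ F.card := by
  calc (F.biUnion c).card ≤ F.card * 1 :=
        Finset.card_biUnion_le_card_mul _ _ _ (fun Y hY => (h Y hY).le)
    _ = F.card := mul_one _

namespace Dat

variable {V : Type*} [DecidableEq V] {G : SimpleGraph V} {N T : Finset V} {M : V → V}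
  {ι : Type*} {k : ℕ}

theorem slackM (D : Dat G N T M ι) (hT : T.card ≤ k) (l : ι) :
    (((N ∪ D.R l) \ N).card + (N \ (N ∪ D.R l)).card ≤ k) := by
  have h1 : (N ∪ D.R l) \ N ⊆ T := by
    intro v hv
    obtain ⟨h, h'⟩ := Finset.mem_sdiff.1 hv
    exact D.hR l ((Finset.mem_union.1 h).resolve_left h')
  have h2 : N \ (N ∪ D.R l) = ∅ := by
    rw [Finset.sdiff_eq_empty_iff_subset]
    exact Finset.subset_union_left
  rw [h2, Finset.card_empty]
  exact (Finset.card_le_card h1).trans hT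

theorem slackg (D : Dat G N T M ι) (hT : T.card ≤ k) {Q : Finset V} (hQ : Q ⊆ T) (l : ι) :
    (((N ∪ D.R l) \ (N ∪ Q)).card + ((N ∪ Q) \ (N ∪ D.R l)).card ≤ k) := by
  rw [← Finset.card_union_of_disjoint]
  · refine (Finset.card_le_card ?_).trans hT
    intro v hv
    simp only [Finset.mem_union, Finset.mem_sdiff, not_or] at hv
    rcases hv with ⟨h1 | h1, h2, h3⟩ | ⟨h1 | h1, h2, h3⟩
    · exact absurd h1 h2
    · exact D.hR l h1
    · exact absurd h1 h2
    · exact hQ h1
  · rw [Finset.disjoint_left]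
    intro v hv hv'
    exact (Finset.mem_sdiff.1 hv').2 (Finset.mem_sdiff.1 hv).1

theorem wst_card (D : Dat G N T M ι) (hT : T.card ≤ k) (l : ι) : (D.wst l).card ≤ 5 * k := by
  obtain ⟨h1, h2, h3⟩ := slack_bad (D.bar l) D.hM (D.crd l) (D.slackM hT l)
  set C := ((D.X l).filter (fun X => (cr M N X).card ≠ 1)).biUnion (cr M N) with hC
  have hsub : D.wst l ⊆ ((D.U l ∩ N).filter (fun u => M u ∈ D.U l)) ∪ (C ∪ C.image M) := by
    intro v hv
    obtain ⟨hvN, hv⟩ := Finset.mem_filter.1 hv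
    rcases hv with ⟨h, h'⟩ | ⟨Y, hY, hc, hv | hv⟩
    · exact Finset.mem_union_left _ (Finset.mem_filter.2 ⟨Finset.mem_inter.2 ⟨h, hvN⟩, h'⟩)
    · apply Finset.mem_union_right
      apply Finset.mem_union_left
      exact Finset.mem_biUnion.2 ⟨Y, Finset.mem_filter.2 ⟨hY, hc⟩, hv⟩
    · apply Finset.mem_union_right
      apply Finset.mem_union_right
      exact Finset.mem_image.2 ⟨M v, Finset.mem_biUnion.2 ⟨Y, Finset.mem_filter.2 ⟨hY, hc⟩, hv⟩,
        D.hM.inv v hvN⟩
  have h4 := Finset.card_le_card hsub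
  have h5 := Finset.card_union_le ((D.U l ∩ N).filter (fun u => M u ∈ D.U l)) (C ∪ C.image M)
  have h6 := Finset.card_union_le C (C.image M)
  have h7 : (C.image M).card ≤ C.card := Finset.card_image_le
  omega

variable [Fintype ι]

theorem S0_card (D : Dat G N T M ι) (hT : T.card ≤ k) :
    D.S0.card ≤ Fintype.card ι * (5 * k) := by
  have h := Finset.card_biUnion_le_card_mul (univ : Finset ι) D.wst (5 * k)
    (fun l _ => D.wst_card hT l)
  simpa [S0] using h

theorem bad_card (D : Dat G N T M ι) (hT : T.card ≤ k) {Q : Finset V} (hQ : Q ⊆ T) {g : V → V}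
    (hg : IsPM G (N ∪ Q) g) :
    (D.bad Q g).card ≤ 9 * (k * Fintype.card ι) + 5 * (k * Fintype.card ι ^ 2) := by
  set m := Fintype.card ι with hm
  let W2 : ι → Finset V := fun l =>
    ((D.X l).filter (fun Y => (cr M N Y).card = 1 ∧ ∃ w ∈ Y, w ∈ D.S0)).biUnion (cr M N)
  let W3 : ι → Finset V := fun l =>
    ((D.X l).filter (fun Y => (cr M N Y).card = 1 ∧ (cr g (N ∪ Q) Y).card ≠ 1)).biUnion (cr M N)
  let W4 : ι → Finset V := fun l => (D.U l ∩ (N ∪ Q)).filter (fun u => g u ∈ D.U l)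
  let W5 : ι → Finset V := fun l =>
    ((D.X l).filter (fun Y => (cr g (N ∪ Q) Y).card ≠ 1)).biUnion (cr g (N ∪ Q))
  have hsub : D.bad Q g ⊆ D.S0 ∪ univ.biUnion (fun l => W2 l ∪ (W3 l ∪ (W4 l ∪ W5 l))) := by
    intro v hv
    rw [mem_bad] at hv
    obtain ⟨hvN, hv⟩ := hv
    rcases hv with hv | ⟨l, hv⟩
    · exact Finset.mem_union_left _ hv
    · apply Finset.mem_union_right
      rw [Finset.mem_biUnion]
      refine ⟨l, Finset.mem_univ _, ?_⟩
      rcases hv with ⟨Y, hY, h1, h2, h3⟩ | ⟨Y, hY, h1, h2, h3⟩ | ⟨h1, h2⟩ | ⟨Y, hY, h1, h2⟩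
      · exact Finset.mem_union_left _ (Finset.mem_biUnion.2
          ⟨Y, Finset.mem_filter.2 ⟨hY, h2, h3⟩, h1⟩)
      · exact Finset.mem_union_right _ (Finset.mem_union_left _ (Finset.mem_biUnion.2
          ⟨Y, Finset.mem_filter.2 ⟨hY, h2, h3⟩, h1⟩))
      · exact Finset.mem_union_right _ (Finset.mem_union_right _ (Finset.mem_union_left _
          (Finset.mem_filter.2 ⟨Finset.mem_inter.2 ⟨h1, Finset.mem_union_left _ hvN⟩, h2⟩)))
      · exact Finset.mem_union_right _ (Finset.mem_union_right _ (Finset.mem_union_right _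
          (Finset.mem_biUnion.2 ⟨Y, Finset.mem_filter.2 ⟨hY, h1⟩, h2⟩)))
  have h2 : ∀ l, (W2 l).card ≤ 5 * k * m := by
    intro l
    have ha : (W2 l).card ≤
        ((D.X l).filter (fun Y => (cr M N Y).card = 1 ∧ ∃ w ∈ Y, w ∈ D.S0)).card :=
      card_biUnion_one _ _ (fun Y hY => (Finset.mem_filter.1 hY).2.1)
    have hb : ((D.X l).filter (fun Y => (cr M N Y).card = 1 ∧ ∃ w ∈ Y, w ∈ D.S0)).card ≤
        D.S0.card := by
      apply Finset.card_le_card_of_forall_subsingleton (fun Y w => w ∈ Y)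
      · intro Y hY
        obtain ⟨w, hw, hw'⟩ := (Finset.mem_filter.1 hY).2.2
        exact ⟨w, hw', hw⟩
      · intro w _ Y hY Z hZ
        have hY1 := (Finset.mem_filter.1 hY.1).1
        have hZ1 := (Finset.mem_filter.1 hZ.1).1
        exact D.uniq hY1 hZ1 hY.2 hZ.2
    have hc := D.S0_card hT
    calc (W2 l).card ≤ D.S0.card := ha.trans hb
      _ ≤ m * (5 * k) := hc
      _ = 5 * k * m := by ring
  have h345 : ∀ l, (W3 l).card ≤ k ∧ (W4 l).card ≤ k ∧ (W5 l).card ≤ 2 * k := by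
    intro l
    obtain ⟨ha, hb, hc⟩ := slack_bad (D.bar l) hg (D.crd l) (D.slackg hT hQ l)
    refine ⟨?_, ha, hc⟩
    refine le_trans ?_ hb
    refine (card_biUnion_one _ _ (fun Y hY => (Finset.mem_filter.1 hY).2.1)).trans ?_
    apply Finset.card_le_card
    intro Y hY
    obtain ⟨hY1, _, hY2⟩ := Finset.mem_filter.1 hY
    exact Finset.mem_filter.2 ⟨hY1, hY2⟩
  have hl : ∀ l, (W2 l ∪ (W3 l ∪ (W4 l ∪ W5 l))).card ≤ 5 * k * m + 4 * k := by
    intro l
    have a1 := Finset.card_union_le (W2 l) (W3 l ∪ (W4 l ∪ W5 l))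
    have a2 := Finset.card_union_le (W3 l) (W4 l ∪ W5 l)
    have a3 := Finset.card_union_le (W4 l) (W5 l)
    have a4 := h2 l
    have a5 := h345 l
    omega
  have hun := Finset.card_biUnion_le_card_mul (univ : Finset ι)
    (fun l => W2 l ∪ (W3 l ∪ (W4 l ∪ W5 l))) (5 * k * m + 4 * k) (fun l _ => hl l)
  have hS := D.S0_card hT
  have h6 := Finset.card_le_card hsub
  have h7 := Finset.card_union_le D.S0 (univ.biUnion (fun l => W2 l ∪ (W3 l ∪ (W4 l ∪ W5 l))))
  rw [Finset.card_univ, ← hm] at hun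
  calc (D.bad Q g).card ≤ m * (5 * k) + m * (5 * k * m + 4 * k) := by
        refine h6.trans (h7.trans ?_)
        exact Nat.add_le_add hS hun
    _ = 9 * (k * m) + 5 * (k * m ^ 2) := by ring

/-- every good set `Q` has a perfect matching that agrees with `M` on all but few vertices -/
theorem agree (D : Dat G N T M ι) [Fintype V] (hT : T.card ≤ k) {Q : Finset V} (hQ : Q ⊆ T)
    (hgood : HasPM G (N ∪ Q)) : ∃ g, IsPM G (N ∪ Q) g ∧
      (N.filter (fun v => g v ≠ M v)).card ≤
        4 * (9 * (k * Fintype.card ι) + 5 * (k * Fintype.card ι ^ 2)) := by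
  classical
  obtain ⟨g0, hg0⟩ := hgood
  obtain ⟨g, hg, hmax⟩ := Finset.exists_max_image
    (univ.filter (fun g : V → V => IsPM G (N ∪ Q) g))
    (fun g => (N.filter (fun v => g v = M v)).card) ⟨g0, by simp [hg0]⟩
  have hg' : IsPM G (N ∪ Q) g := (Finset.mem_filter.1 hg).2
  refine ⟨g, hg', ?_⟩
  have hmax' : ∀ g', IsPM G (N ∪ Q) g' →
      (N.filter (fun v => g' v = M v)).card ≤ (N.filter (fun v => g v = M v)).card :=
    fun g' h => hmax g' (by simp [h])
  have hsub : N.filter (fun v => g v ≠ M v) ⊆ (D.bad Q g ∪ (D.bad Q g).image M) ∪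
      ((D.bad Q g).image g ∪ ((D.bad Q g).image g).image M) := by
    intro v hv
    obtain ⟨hvN, hne⟩ := Finset.mem_filter.1 hv
    have hMM := D.hM.inv v hvN
    have hgg := hg'.inv v (Finset.mem_union_left _ hvN)
    have hggM := hg'.inv (M v) (Finset.mem_union_left _ (D.hM.mem v hvN))
    rcases D.claim hg' hmax' hvN hne with h | h | h | h
    · exact Finset.mem_union_left _ (Finset.mem_union_left _ h)
    · exact Finset.mem_union_left _ (Finset.mem_union_right _ (Finset.mem_image.2 ⟨_, h, hMM⟩))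
    · exact Finset.mem_union_right _ (Finset.mem_union_left _ (Finset.mem_image.2 ⟨_, h, hgg⟩))
    · refine Finset.mem_union_right _ (Finset.mem_union_right _ (Finset.mem_image.2
        ⟨M v, Finset.mem_image.2 ⟨_, h, hggM⟩, hMM⟩))
  have h1 := Finset.card_le_card hsub
  have h2 := Finset.card_union_le (D.bad Q g ∪ (D.bad Q g).image M)
    ((D.bad Q g).image g ∪ ((D.bad Q g).image g).image M)
  have h3 := Finset.card_union_le (D.bad Q g) ((D.bad Q g).image M)
  have h4 := Finset.card_union_le ((D.bad Q g).image g) (((D.bad Q g).image g).image M)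
  have h5 : ((D.bad Q g).image M).card ≤ (D.bad Q g).card := Finset.card_image_le
  have h6 : ((D.bad Q g).image g).card ≤ (D.bad Q g).card := Finset.card_image_le
  have h7 : (((D.bad Q g).image g).image M).card ≤ ((D.bad Q g).image g).card :=
    Finset.card_image_le
  have h8 := D.bad_card hT hQ hg'
  omega

end Dat

end Pool.Agent.H689.MM
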