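import Pool.Agent.H689.MM.Stm

namespace Pool.Agent.H689.MM

open Finset

namespace GENL

/-- Nonsingularity of the submatrix in terms of the determinant. -/
theorem ns_of_det {V : Type*} [Fintype V] [DecidableEq V] (A : V → V → ℚ) (D : Finset V)
    (h : (Matrix.of (fun v w : {x // x ∈ D} => A v.1 w.1)).det ≠ 0) : NS A D := by
  intro z hz hk
  have key : (fun w : {x // x ∈ D} => z w.1) = 0 := by
    apply Matrix.eq_zero_of_mulVec_eq_zero h
    funext v
    have h1 := hk v.1 v.2
    have h2 : ∑ w, A v.1 w * z w = ∑ w ∈ D, A v.1 w * z w := by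
      symm
      apply Finset.sum_subset (Finset.subset_univ D)
      intro w _ hw
      rw [hz w hw, mul_zero]
    rw [h2, ← Finset.sum_coe_sort D (fun w => A v.1 w * z w)] at h1
    simpa [Matrix.mulVec, dotProduct] using h1
  funext w
  by_cases hw : w ∈ D
  · exact congrFun key ⟨w, hw⟩
  · exact hz w hw

/-- The symbolic skew-symmetric matrix. -/
noncomputable def P {V : Type} (G : SimpleGraph V) (v w : V) : MvPolynomial (V × V) ℚ :=
  open Classical in
  if G.Adj v w then MvPolynomial.X (v, w) - MvPolynomial.X (w, v) else 0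

theorem P_adj {V : Type} (G : SimpleGraph V) {v w : V} (h : G.Adj v w) :
    P G v w = MvPolynomial.X (v, w) - MvPolynomial.X (w, v) := by
  unfold P
  rw [if_pos h]

theorem P_nadj {V : Type} (G : SimpleGraph V) {v w : V} (h : ¬ G.Adj v w) : P G v w = 0 := by
  unfold P
  rw [if_neg h]

/-- The determinant of the symbolic matrix on a set. -/
noncomputable def dt {V : Type} [DecidableEq V] (G : SimpleGraph V) (D : Finset V) :
    MvPolynomial (V × V) ℚ :=
  (Matrix.of (fun v w : {x // x ∈ D} => P G v.1 w.1)).det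

theorem eval_dt {V : Type} [DecidableEq V] (G : SimpleGraph V) (D : Finset V)
    (x : V × V → ℚ) : MvPolynomial.eval x (dt G D) =
      (Matrix.of (fun v w : {x // x ∈ D} => MvPolynomial.eval x (P G v.1 w.1))).det := by
  unfold dt
  rw [RingHom.map_det]
  rfl

theorem dt_ne_zero {V : Type} [Fintype V] [DecidableEq V] (G : SimpleGraph V) (D : Finset V)
    (h : HasPM G D) : dt G D ≠ 0 := by
  classical
  obtain ⟨f, hf⟩ := h
  let e := Fintype.equivFin V
  let x : V × V → ℚ := fun p => if p.2 = f p.1 ∧ e p.1 < e p.2 then 1 else 0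
  intro h0
  have h1 := eval_dt G D x
  rw [h0, map_zero] at h1
  obtain ⟨z, hz0, hz⟩ := Matrix.exists_mulVec_eq_zero_iff.mpr h1.symm
  apply hz0
  have hne : ∀ v ∈ D, e v ≠ e (f v) := fun v hv h => (hf.adj v hv).ne (e.injective h)
  have hent : ∀ v ∈ D, ∀ w ∈ D, MvPolynomial.eval x (P G v w) =
      if w = f v then (if e v < e (f v) then 1 else -1) else 0 := by
    intro v hv w hw
    unfold P
    by_cases hwf : w = f v
    · subst hwf
      rw [if_pos (hf.adj v hv), if_pos rfl]
      simp only [map_sub, MvPolynomial.eval_X, x, hf.inv v hv, true_and]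
      rcases lt_or_gt_of_ne (hne v hv) with hlt | hlt
      · rw [if_pos hlt, if_neg (not_lt.mpr hlt.le), if_pos hlt]; norm_num
      · rw [if_neg (not_lt.mpr hlt.le), if_pos hlt, if_neg (not_lt.mpr hlt.le)]; norm_num
    · rw [if_neg hwf]
      split_ifs with hadj
      · simp only [map_sub, MvPolynomial.eval_X, x]
        rw [if_neg (fun h => hwf h.1), if_neg, sub_zero]
        rintro ⟨h, _⟩
        apply hwf
        rw [h, hf.inv w hw]
      · simp
  have hzf : ∀ v : {x // x ∈ D}, z ⟨f v.1, hf.mem v.1 v.2⟩ = 0 := by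
    intro v
    have h2 := congrFun hz v
    simp only [Matrix.mulVec, dotProduct, Matrix.of_apply, Pi.zero_apply] at h2
    rw [Finset.sum_eq_single (⟨f v.1, hf.mem v.1 v.2⟩ : {x // x ∈ D})] at h2
    · rw [hent v.1 v.2 _ (hf.mem v.1 v.2), if_pos rfl] at h2
      split_ifs at h2
      · simpa using h2
      · simpa using h2
    · intro w _ hw
      rw [hent v.1 v.2 w.1 w.2, if_neg, zero_mul]
      intro h
      exact hw (Subtype.ext h)
    · intro h
      exact absurd (Finset.mem_univ _) h
  funext w
  have h3 := hzf ⟨f w.1, hf.mem w.1 w.2⟩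
  have h4 : (⟨f (f w.1), hf.mem (f w.1) (hf.mem w.1 w.2)⟩ : {x // x ∈ D}) = w :=
    Subtype.ext (hf.inv w.1 w.2)
  simpa [h4] using h3

end GENL

open GENL in
theorem gen : S_GEN := by
  classical
  intro V _ _ G
  have hprod : (∏ D ∈ (Finset.univ : Finset (Finset V)).filter (fun D => HasPM G D), dt G D) ≠ 0 := by
    rw [Finset.prod_ne_zero_iff]
    intro D hD
    exact dt_ne_zero G D (Finset.mem_filter.mp hD).2
  obtain ⟨x, hx⟩ : ∃ x : V × V → ℚ, MvPolynomial.eval x
      (∏ D ∈ (Finset.univ : Finset (Finset V)).filter (fun D => HasPM G D), dt G D) ≠ 0 := by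
    by_contra hcon
    push Not at hcon
    apply hprod
    apply MvPolynomial.funext
    intro x
    rw [hcon x, map_zero]
  rw [map_prod, Finset.prod_ne_zero_iff] at hx
  refine ⟨fun v w => MvPolynomial.eval x (P G v w), ?_, ?_, ?_⟩
  · intro v w
    show MvPolynomial.eval x (P G v w) = - MvPolynomial.eval x (P G w v)
    by_cases h : G.Adj v w
    · rw [P_adj G h, P_adj G h.symm]
      simp
    · rw [P_nadj G h, P_nadj G (fun h' => h h'.symm)]
      simp
  · intro v w h
    show MvPolynomial.eval x (P G v w) = 0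
    rw [P_nadj G h, map_zero]
  · intro D hD
    apply ns_of_det
    have h := hx D (Finset.mem_filter.mpr ⟨Finset.mem_univ D, hD⟩)
    rw [eval_dt] at h
    exact h

end Pool.Agent.H689.MM
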