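import Mathlib

/-!
Project MP_b98b77_co (polynomial-size matching-mimicking networks), statements of the leaves.
-/

namespace Pool.Agent.H689.MM

open Finset

/-- `f` is a perfect matching, written as an involution, of the subgraph of `G` induced on `A`. -/
structure IsPM {V : Type*} (G : SimpleGraph V) (A : Finset V) (f : V → V) : Prop where
  mem : ∀ v ∈ A, f v ∈ A
  adj : ∀ v ∈ A, G.Adj v (f v)
  inv : ∀ v ∈ A, f (f v) = v

/-- The subgraph of `G` induced on `A` has a perfect matching. -/
def HasPM {V : Type*} (G : SimpleGraph V) (A : Finset V) : Prop := ∃ f : V → V, IsPM G A f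

/-- `𝒳` is a family of pairwise disjoint odd subsets of `A \ U`, and an edge of `G[A]` that leaves
a member of `𝒳` ends in `U`. -/
structure IsBar {V : Type*} [DecidableEq V] (G : SimpleGraph V) (A U : Finset V)
    (𝒳 : Finset (Finset V)) : Prop where
  sub : U ⊆ A
  xsub : ∀ X ∈ 𝒳, X ⊆ A \ U
  odd : ∀ X ∈ 𝒳, Odd X.card
  disj : ∀ X ∈ 𝒳, ∀ Y ∈ 𝒳, X ≠ Y → Disjoint X Y
  closed : ∀ X ∈ 𝒳, ∀ v ∈ X, ∀ w ∈ A, G.Adj v w → w ∈ X ∨ w ∈ U

/-- The matrix `A` is nonsingular on the index set `D` (principal submatrix `A[D]`), in the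
form: a vector supported on `D` and killed by `A` on `D` is zero. -/
def NS {V : Type*} [Fintype V] (A : V → V → ℚ) (D : Finset V) : Prop :=
  ∀ z : V → ℚ, (∀ v, v ∉ D → z v = 0) → (∀ v ∈ D, ∑ w, A v w * z w = 0) → z = 0

/-- **Leaf BAR** (Tutte's theorem for induced subgraphs, from `SimpleGraph.tutte`). If `G[A]` has no
perfect matching there is a Tutte barrier `U` with its family of odd components. If moreover `|A|`
is even, the number of odd components exceeds `|U|` by at least two.

Proof. Apply `SimpleGraph.tutte` to `G.induce (A : Set V)`. A perfect matching (a `Subgraph` that is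
`IsPerfectMatching`) of `G.induce A` gives the involution `f` (send `v ∈ A` to its unique partner, and
`v ∉ A` to `v`); so there is a Tutte violator `u`. Let `U` be the image of `u` in `V` and `𝒳` the set
of images in `V` of the supports of the odd components of `((⊤ : Subgraph _).deleteVerts u).coe`.
They are nonempty (odd), pairwise disjoint (so the images of different components are different
and `𝒳.card` is the number of odd components), contained in `A \ U`, and closed. Parity: the
number of odd components is congruent to the number `|A| - |U|` of vertices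
(`SimpleGraph.odd_ncard_oddComponents`), so if `|A|` is even then `|𝒳| ≡ |U|` modulo two. -/
def S_BAR : Prop := ∀ (V : Type) [Fintype V] [DecidableEq V] (G : SimpleGraph V) (A : Finset V),
  ¬ HasPM G A → ∃ (U : Finset V) (𝒳 : Finset (Finset V)), IsBar G A U 𝒳 ∧ U.card < 𝒳.card ∧
    (Even A.card → U.card + 2 ≤ 𝒳.card)

/-- **Leaf GEN** (generic skew-symmetric evaluation of the Tutte matrix).

Proof. Work with the polynomial ring `MvPolynomial (V × V) ℚ` and the matrix `P` over it with entries
`P v w = X (v, w) - X (w, v)` if `G.Adj v w` and `0` otherwise. For a set `D` such that `G[D]` has a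
perfect matching `f`, the polynomial `det P[D]` (submatrix on the subtype `D`) is nonzero: evaluate
`X (v, w)` at `1` if `v ∈ D`, `w = f v` and `v < w` (fix any linear order on `V`, e.g. from
`Fintype.equivFin`, or any choice function) and at `0` otherwise; the matrix becomes the signed
permutation matrix of `f` on `D`, which has determinant `≠ 0` (it kills no nonzero vector:
`Matrix.exists_mulVec_eq_zero_iff`). The product of the finitely many nonzero polynomials `det P[D]`
(`D` ranging over the finsets with `HasPM G D`) is nonzero, hence has a nonzero evaluation `x` over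
the infinite field `ℚ` (`MvPolynomial.funext`). Put `A v w = eval x (P v w)`. -/
def S_GEN : Prop := ∀ (V : Type) [Fintype V] [DecidableEq V] (G : SimpleGraph V),
  ∃ A : V → V → ℚ, (∀ v w, A v w = - A w v) ∧ (∀ v w, ¬ G.Adj v w → A v w = 0) ∧
    ∀ D : Finset V, HasPM G D → NS A D

/-- **Leaf VAN** (the Tutte matrix of a graph without perfect matching is singular).

Proof from BAR. Suppose `G[D]` has no perfect matching and let `(U, 𝒳)` be as in BAR,
`|U| < |𝒳|`. For `X ∈ 𝒳` the skew-symmetric matrix `A[X]` has odd order, so determinant `0`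
(`det Bᵀ = det B` and `det (-B) = (-1)^|X| det B = - det B`), so there is a nonzero vector `w_X`
supported on `X` with `∑ w, A v w * w_X w = 0` for all `v ∈ X`. By closedness `∑ w, A v w * w_X w = 0`
for all `v ∈ D \ U` (if `v` lies outside `X` and outside `U` then `v` has no neighbour in `X`). The
vectors `w_X` (`X ∈ 𝒳`) are linearly independent (disjoint supports), and the linear map
`z ↦ (∑ w, A v w * z w)_{v ∈ U}` from their span (dimension `|𝒳|`) to `ℚ^U` has a nonzero kernel vector
`z`. It is supported on `D`, killed on `U` and on `D \ U`, so `NS A D` fails. -/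
def S_VAN : Prop := ∀ (V : Type) [Fintype V] [DecidableEq V] (G : SimpleGraph V)
  (A : V → V → ℚ), (∀ v w, A v w = - A w v) → (∀ v w, ¬ G.Adj v w → A v w = 0) →
    ∀ D : Finset V, NS A D → HasPM G D

/-- **Leaf BAS** (a basis of at most `|T|^2` bad sets separates).

Let `A` be skew-symmetric and nonsingular on `N = univ \ T`. Let `ℬ` be a set of `R ⊆ T` such that
`A` is singular on `N ∪ R`, but nonsingular on `(N ∪ R) \ {x₀, y₀}` for some `x₀ ≠ y₀` in `N ∪ R`. Then
there is `𝓘 ⊆ ℬ` with `|𝓘| ≤ |T|^2` such that whenever `R ∈ ℬ` and `x ≠ y` in `N ∪ R` are such that `A` is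
nonsingular on `(N ∪ R) \ {x, y}`, there is `R' ∈ 𝓘` with the same property for the same `x, y`.

Proof. Fix `R ∈ ℬ`, `D = N ∪ R`, and `x₀, y₀` as above, `E = D \ {x₀, y₀}`. Write `(A z) v` for
`∑ w, A v w * z w`.
(1) As `A[E]` is nonsingular, there is `w₁` supported on `D` with `w₁ x₀ = 1`, `w₁ y₀ = 0` and
`(A w₁) v = 0` for `v ∈ E` (solve a linear system; injective implies surjective), and `w₂` similarly
with `w₂ x₀ = 0`, `w₂ y₀ = 1`. By skew symmetry `0 = ∑ v, w₁ v * (A w₁) v = (A w₁) x₀`, similarly
`(A w₂) y₀ = 0`, and `c := (A w₁) y₀ = ∑ v, w₂ v * (A w₁) v = - ∑ v, w₁ v * (A w₂) v = -(A w₂) x₀`.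
(2) Any `z` supported on `D` with `(A z) v = 0` on `E` is `z x₀ • w₁ + z y₀ • w₂` (the difference
vanishes at `x₀, y₀` and is killed on `E`). As `A` is singular on `D` there is such a `z ≠ 0` with
also `(A z) x₀ = (A z) y₀ = 0`; hence `z y₀ * c = 0 = z x₀ * c`, so `c = 0`. So `w₁, w₂` are killed by
`A` on all of `D`, and they span the space `W` of vectors supported on `D` and killed on `D`.
(3) Put `ω v w = w₁ v * w₂ w - w₁ w * w₂ v` (antisymmetric, zero if `v ∉ D` or `w ∉ D`; every column
`ω (·) w` is killed by `A` on `D`, in particular on `N`).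
(4) For `x ≠ y` in `D`: `ω x y ≠ 0` iff `NS A (D \ {x, y})`. If `NS A (D \ {x,y})`: a
combination `a w₁ + b w₂` that vanishes at `x` and `y` is zero (it is supported on `D \ {x,y}` and
killed there), so `a = b = 0`, so the `2 × 2` determinant `ω x y` is nonzero. Conversely let
`ω x y ≠ 0` and let `z` be supported on `D \ {x, y}` and killed on `D \ {x, y}`. For `w ∈ W`,
`0 = ∑ v, z v * (A w) v = - ∑ v, w v * (A z) v = -(w x * (A z) x + w y * (A z) y)` for
`w = w₁, w₂`; as the `2 × 2` determinant is nonzero, `(A z) x = (A z) y = 0`. So `z ∈ W` vanishes at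
`x, y`, hence `z = a w₁ + b w₂` with `a = b = 0`, so `z = 0`.
(5) Now vary `R ∈ ℬ` and get `ω_R`. Consider the vector space of antisymmetric `ω : V → V → ℚ` all of
whose columns are killed by `A` on `N`. If such an `ω` vanishes on `T × T` it vanishes: for `t ∈ T` the
column `ω (·) t` is supported on `N` and killed on `N`, so zero by `NS A N`; by antisymmetry
`ω t v = 0` for all `v`, `t ∈ T`, so every column is supported on `N`, so zero. Choose
`𝓘 ⊆ ℬ` such that the restrictions `ω_R|_{T × T}`, `R ∈ 𝓘`, are linearly independent and span the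
restrictions for all `R ∈ ℬ` (`exists_linearIndependent`); `|𝓘| ≤ |T|^2` as these are vectors in
`ℚ^(T × T)`. For `R ∈ ℬ` the restriction of `ω_R` is a combination of those of `ω_{R'}`, `R' ∈ 𝓘`, hence
`ω_R` is the same combination of the `ω_{R'}`. So `ω_R x y ≠ 0` implies `ω_{R'} x y ≠ 0` for some
`R' ∈ 𝓘`, and then `x, y ∈ N ∪ R'` and by (4) `NS A ((N ∪ R') \ {x, y})`. -/
def S_BAS : Prop := ∀ (V : Type) [Fintype V] [DecidableEq V] (A : V → V → ℚ) (T N : Finset V),
  (∀ v w, A v w = - A w v) → N = univ \ T → NS A N →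
  ∀ ℬ : Finset (Finset V),
    (∀ R ∈ ℬ, R ⊆ T ∧ ¬ NS A (N ∪ R) ∧
      ∃ x ∈ N ∪ R, ∃ y ∈ N ∪ R, x ≠ y ∧ NS A ((N ∪ R) \ {x, y})) →
    ∃ 𝓘 ⊆ ℬ, 𝓘.card ≤ T.card ^ 2 ∧
      ∀ R ∈ ℬ, ∀ x ∈ N ∪ R, ∀ y ∈ N ∪ R, x ≠ y → NS A ((N ∪ R) \ {x, y}) →
        ∃ R' ∈ 𝓘, x ∈ N ∪ R' ∧ y ∈ N ∪ R' ∧ NS A ((N ∪ R') \ {x, y})

/-- **Leaf ZER** (zero patterns: few behaviours). `A` is any square matrix. If `𝓕` is a family of sets
`D` disjoint from `T` with `A[D]` nonsingular, and the patterns
`{R ⊆ T : A[D ∪ R] nonsingular}` (`D ∈ 𝓕`) are pairwise different, then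
`|𝓕| ≤ (2 ^ k + 1) ^ (k ^ 2)`, where `k = |T|`.

Proof. (1) Schur complement. For `D ∈ 𝓕` there is a matrix `B_D : T × T → ℚ` with
`NS A (D ∪ R) ↔ det B_D[R] ≠ 0` for all `R ⊆ T`. Indeed, by `NS A D` for `t ∈ T` there is `u_t`
supported on `D ∪ {t}` with `u_t t = 1` and `(A u_t) v = 0` for `v ∈ D`; put
`B_D s t = (A u_t) s`. A vector `z` supported on `D ∪ R` and killed on `D` is
`∑ t ∈ R, z t • u_t` (difference supported on `D`, killed on `D`), and `(A z) s = ∑ t ∈ R, B_D s t * z t`;
so `A` is nonsingular on `D ∪ R` iff `B_D[R]` is. (Or use `Matrix.det_fromBlocks₁₁`.)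
(2) Let `g_D = ∏ det X[R]` over `R ⊆ T` with `NS A (D ∪ R)`, a polynomial in the variables
`X (s, t)`, `s, t ∈ T`. Then `g_D (B_{D'}) ≠ 0` iff the pattern of `D` is contained in that of `D'`. The
`g_D` (`D ∈ 𝓕`) are linearly independent: in a vanishing combination choose `D` with nonzero
coefficient and inclusion-minimal pattern among those, and evaluate at `B_D`. Every `det X[R]` has
degree at most one in each variable (in each permutation product every variable occurs at most
once), so `g_D` has degree at most `2 ^ k` in each of the `k ^ 2` variables, and so lies in a space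
of dimension `(2 ^ k + 1) ^ (k ^ 2)` (the span of the monomials with all exponents `≤ 2 ^ k`). -/
def S_ZER : Prop := ∀ (V : Type) [Fintype V] [DecidableEq V] (A : V → V → ℚ) (T : Finset V)
  (𝓕 : Finset (Finset V)),
  (∀ D ∈ 𝓕, Disjoint D T ∧ NS A D) →
  (∀ D ∈ 𝓕, ∀ D' ∈ 𝓕, (∀ R ⊆ T, NS A (D ∪ R) ↔ NS A (D' ∪ R)) → D = D') →
  𝓕.card ≤ (2 ^ T.card + 1) ^ (T.card ^ 2)

/-- **Leaf IND** (independent sets in digraphs of bounded outdegree). If `|F v| ≤ l` for all `v`, then
every finite set `N` has a subset `I` with `|N| ≤ (2 l + 1) |I|` and `w ∉ F v` for all `v ≠ w` in `I`.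

Proof. Induction on `|N|`. If `N` is nonempty, the number of pairs `(v, w)` in `N × N` with `w ∈ F v` is
at most `l |N|`, so some `v ∈ N` has at most `l` in-neighbours in `N` (`w ∈ N` with `v ∈ F w`). Remove
`v`, its in-neighbours and `F v` from `N` (at most `2 l + 1` elements), apply induction and add
`v`. -/
def S_IND : Prop := ∀ (V : Type) [DecidableEq V] (F : V → Finset V) (l : ℕ)
  (N : Finset V), (∀ v, (F v).card ≤ l) →
  ∃ I ⊆ N, N.card ≤ (2 * l + 1) * I.card ∧ ∀ v ∈ I, ∀ w ∈ I, v ≠ w → w ∉ F v

/-- The behaviour `β` (a set of subsets of the terminal set `τ`: those terminal sets `R` such that the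
graph induced on the nonterminals and `R` has a perfect matching) is realised by a graph whose set of
nonterminals is `α`. -/
def Beh (τ α : Type) [Fintype α] [DecidableEq τ] [DecidableEq α] (β : Finset τ → Prop) : Prop :=
  ∃ G : SimpleGraph (τ ⊕ α), ∀ R : Finset τ,
    β R ↔ HasPM G (R.map Function.Embedding.inl ∪ univ.map Function.Embedding.inr)

/-- **Leaf TRA**: transport of `HasPM` along an injection, of `Beh` along a bijection of the
nonterminals, and one twist at a terminal `t`: if `β` is realised with nonterminal set `α`, then the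
behaviour `R ↦ β (R ∆ {t})` is realised with nonterminal set `Option α`.

Proof of the twist. Given `G` on `τ ⊕ α`, let `G'` on `τ ⊕ Option α` be: the new nonterminal
`inr none` plays the role of the old terminal `t` (adjacent to the images of the `G`-neighbours of
`inl t`), and is also adjacent to the terminal `inl t`, which has no other neighbour in `G'`; all the
other adjacencies are those of `G`. Let `N' = univ.map inr`. If `t ∈ R`, in a perfect matching of
`G'[R ∪ N']` the terminal `t` is matched with `inr none`, the rest is a perfect matching of (a copy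
of) `G[(R \ {t}) ∪ N]`. If `t ∉ R`, then `G'[R ∪ N']` is a copy of `G[(R ∪ {t}) ∪ N]`. -/
def S_TRA : Prop :=
  (∀ (V W : Type) (e : V ↪ W) (G : SimpleGraph W) (A : Finset V),
    HasPM (G.comap e) A ↔ HasPM G (A.map e)) ∧
  (∀ (τ α α' : Type) [Fintype α] [Fintype α'] [DecidableEq τ] [DecidableEq α] [DecidableEq α']
    (β : Finset τ → Prop), (α ≃ α') → Beh τ α β → Beh τ α' β) ∧
  (∀ (τ α : Type) [Fintype α] [DecidableEq τ] [DecidableEq α]
    (β : Finset τ → Prop) (t : τ), Beh τ α β → Beh τ (Option α) (fun R => β (symmDiff R {t})))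

/-- **Leaf CNV**: the involution form of a perfect matching agrees with Mathlib's perfect matchings of
the graph obtained by deleting the vertices of `S` (`G.induce Sᶜ`). Here `V` may live in any
universe. -/
def S_CNV.{u} : Prop := ∀ (V : Type u) [Fintype V] [DecidableEq V] (G : SimpleGraph V)
  (S : Finset V),
  (∃ M : (G.induce (((S : Finset V) : Set V)ᶜ)).Subgraph, M.IsPerfectMatching) ↔
    HasPM G (univ \ S)

end Pool.Agent.H689.MM
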