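import Mathlib
import Pool.Agent.H689.MM.Stm

/-! Leaf IND: independent sets in digraphs of bounded outdegree. -/

set_option autoImplicit false

namespace Pool.Agent.H689.MM

open Finset

theorem ind : S_IND := by
  intro V _ F l N hF
  induction N using Finset.strongInduction with
  | H N ih =>
    rcases N.eq_empty_or_nonempty with rfl | hN
    · exact ⟨∅, Finset.Subset.refl _, by simp, by simp⟩
    · have hex : ∃ v ∈ N, (N.filter fun w => v ∈ F w).card ≤ l := by
        by_contra hc
        push Not at hc
        have h1 : ∑ v ∈ N, l < ∑ v ∈ N, (N.filter fun w => v ∈ F w).card :=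
          Finset.sum_lt_sum_of_nonempty hN hc
        have h2 : ∑ v ∈ N, (N.filter fun w => v ∈ F w).card =
            ∑ w ∈ N, (N.filter fun v => v ∈ F w).card := by
          simp only [Finset.card_filter]
          exact Finset.sum_comm
        have h3 : ∑ w ∈ N, (N.filter fun v => v ∈ F w).card ≤ ∑ w ∈ N, l := by
          apply Finset.sum_le_sum
          intro w _
          refine (Finset.card_le_card ?_).trans (hF w)
          intro v hv
          exact (Finset.mem_filter.1 hv).2
        omega
      obtain ⟨v, hv, hvl⟩ := hex
      set X := insert v ((N.filter fun w => v ∈ F w) ∪ F v) with hX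
      have hXc : X.card ≤ 2 * l + 1 := by
        have h1 := Finset.card_insert_le v ((N.filter fun w => v ∈ F w) ∪ F v)
        have h2 := Finset.card_union_le (N.filter fun w => v ∈ F w) (F v)
        have h3 := hF v
        rw [← hX] at h1
        omega
      have hss : N \ X ⊂ N := by
        refine ⟨Finset.sdiff_subset, fun h => ?_⟩
        have := h hv
        rw [Finset.mem_sdiff] at this
        exact this.2 (Finset.mem_insert_self _ _)
      obtain ⟨I, hI, hIc, hIi⟩ := ih (N \ X) hss
      have hvI : v ∉ I := by
        intro h
        have := (Finset.mem_sdiff.1 (hI h)).2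
        exact this (Finset.mem_insert_self _ _)
      refine ⟨insert v I, ?_, ?_, ?_⟩
      · exact Finset.insert_subset hv (hI.trans Finset.sdiff_subset)
      · rw [Finset.card_insert_of_notMem hvI]
        have h1 : N.card ≤ (N \ X).card + X.card := by
          have := Finset.card_sdiff_add_card N X
          have h2 : N.card ≤ (N ∪ X).card := Finset.card_le_card Finset.subset_union_left
          omega
        have h2 : (2 * l + 1) * (I.card + 1) = (2 * l + 1) * I.card + (2 * l + 1) := by ring
        omega
      · intro a ha b hb hab
        rcases Finset.mem_insert.1 ha with rfl | ha'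
        · rcases Finset.mem_insert.1 hb with rfl | hb'
          · exact absurd rfl hab
          · intro h
            have := (Finset.mem_sdiff.1 (hI hb')).2
            exact this (Finset.mem_insert_of_mem (Finset.mem_union_right _ h))
        · rcases Finset.mem_insert.1 hb with rfl | hb'
          · intro h
            have h1 := Finset.mem_sdiff.1 (hI ha')
            exact h1.2 (Finset.mem_insert_of_mem (Finset.mem_union_left _ (Finset.mem_filter.2 ⟨h1.1, h⟩)))
          · exact hIi a ha' b hb' hab

end Pool.Agent.H689.MM
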