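import Pool.Agent.H689.MM.Stm

set_option autoImplicit false

namespace Pool.Agent.H689.MM

open Finset

namespace TRAL

/-- transport along an injection -/
lemma map_iff {V W : Type} (e : V ↪ W) (G : SimpleGraph W) (A : Finset V) :
    HasPM (G.comap e) A ↔ HasPM G (A.map e) := by
  classical
  constructor
  · rintro ⟨f, hf⟩
    let g : W → W := fun w => if h : ∃ v, e v = w then e (f h.choose) else w
    have hg : ∀ v, g (e v) = e (f v) := by
      intro v
      have h : ∃ v', e v' = e v := ⟨v, rfl⟩
      have h1 : g (e v) = e (f h.choose) := dif_pos h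
      rw [h1, e.injective h.choose_spec]
    refine ⟨g, ?_, ?_, ?_⟩
    · intro w hw
      obtain ⟨v, hv, rfl⟩ := mem_map.mp hw
      rw [hg]
      exact mem_map.mpr ⟨f v, hf.mem v hv, rfl⟩
    · intro w hw
      obtain ⟨v, hv, rfl⟩ := mem_map.mp hw
      rw [hg]
      exact hf.adj v hv
    · intro w hw
      obtain ⟨v, hv, rfl⟩ := mem_map.mp hw
      rw [hg, hg, hf.inv v hv]
  · rintro ⟨g, hg⟩
    let f : V → V := fun v => if h : ∃ v', e v' = g (e v) then h.choose else v
    have hf : ∀ v ∈ A, f v ∈ A ∧ e (f v) = g (e v) := by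
      intro v hv
      have hm := hg.mem (e v) (mem_map.mpr ⟨v, hv, rfl⟩)
      obtain ⟨v', hv', he⟩ := mem_map.mp hm
      have h : ∃ v', e v' = g (e v) := ⟨v', he⟩
      have h1 : f v = h.choose := dif_pos h
      have h2 := h.choose_spec
      have h3 : h.choose = v' := e.injective (h2.trans he.symm)
      rw [h1, h3]
      exact ⟨hv', he⟩
    refine ⟨f, ?_, ?_, ?_⟩
    · intro v hv
      exact (hf v hv).1
    · intro v hv
      change G.Adj (e v) (e (f v))
      rw [(hf v hv).2]
      exact hg.adj (e v) (mem_map.mpr ⟨v, hv, rfl⟩)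
    · intro v hv
      apply e.injective
      rw [(hf (f v) (hf v hv).1).2, (hf v hv).2]
      exact hg.inv (e v) (mem_map.mpr ⟨v, hv, rfl⟩)

/-- `HasPM` only depends on the adjacency inside `A` -/
lemma congr_adj {V : Type} {G G' : SimpleGraph V} {A : Finset V}
    (h : ∀ x ∈ A, ∀ y ∈ A, G.Adj x y → G'.Adj x y) (hp : HasPM G A) : HasPM G' A := by
  obtain ⟨f, hf⟩ := hp
  exact ⟨f, hf.mem, fun v hv => h v hv (f v) (hf.mem v hv) (hf.adj v hv), hf.inv⟩

/-- the vertex set -/
abbrev VS (τ α : Type) [Fintype α] [DecidableEq τ] [DecidableEq α] (R : Finset τ) :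
    Finset (τ ⊕ α) :=
  R.map Function.Embedding.inl ∪ univ.map Function.Embedding.inr

lemma mem_inl {τ α : Type} [Fintype α] [DecidableEq τ] [DecidableEq α] {R : Finset τ} {s : τ} :
    (Sum.inl s : τ ⊕ α) ∈ VS τ α R ↔ s ∈ R := by
  simp [VS]

lemma mem_inr {τ α : Type} [Fintype α] [DecidableEq τ] [DecidableEq α] {R : Finset τ} {a : α} :
    (Sum.inr a : τ ⊕ α) ∈ VS τ α R := by
  simp [VS]

/-- transport of `Beh` along a bijection of the nonterminals -/
lemma beh_equiv {τ α α' : Type} [Fintype α] [Fintype α'] [DecidableEq τ] [DecidableEq α]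
    [DecidableEq α'] {β : Finset τ → Prop} (e : α ≃ α') (h : Beh τ α β) : Beh τ α' β := by
  obtain ⟨G, hG⟩ := h
  let E : (τ ⊕ α') ↪ (τ ⊕ α) := (Equiv.sumCongr (Equiv.refl τ) e.symm).toEmbedding
  refine ⟨G.comap E, fun R => ?_⟩
  rw [hG R, map_iff]
  have hset : (VS τ α' R).map E = VS τ α R := by
    ext x
    rw [mem_map]
    constructor
    · rintro ⟨y, hy, rfl⟩
      rcases y with s | a
      · exact mem_inl.mpr (mem_inl.mp hy)
      · exact mem_inr
    · intro hx
      rcases x with s | a
      · exact ⟨Sum.inl s, mem_inl.mpr (mem_inl.mp hx), rfl⟩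
      · refine ⟨Sum.inr (e a), mem_inr, ?_⟩
        change Sum.inr (e.symm (e a)) = Sum.inr a
        rw [Equiv.symm_apply_apply]
  exact (iff_of_eq (congrArg (HasPM G) hset)).symm

section twist

variable {τ α : Type} [DecidableEq τ] [DecidableEq α]

/-- the map to the old graph -/
def phi (t : τ) : τ ⊕ Option α → τ ⊕ α
  | Sum.inl s => Sum.inl s
  | Sum.inr none => Sum.inl t
  | Sum.inr (some a) => Sum.inr a

/-- the twisted graph -/
def tw (G : SimpleGraph (τ ⊕ α)) (t : τ) : SimpleGraph (τ ⊕ Option α) where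
  Adj x y := (x ≠ Sum.inl t ∧ y ≠ Sum.inl t ∧ G.Adj (phi t x) (phi t y)) ∨
    (x = Sum.inl t ∧ y = Sum.inr none) ∨ (x = Sum.inr none ∧ y = Sum.inl t)
  symm := ⟨by
    rintro x y (⟨h1, h2, h3⟩ | ⟨h1, h2⟩ | ⟨h1, h2⟩)
    · exact Or.inl ⟨h2, h1, h3.symm⟩
    · exact Or.inr (Or.inr ⟨h2, h1⟩)
    · exact Or.inr (Or.inl ⟨h2, h1⟩)⟩
  loopless := ⟨by
    rintro x (⟨_, _, h3⟩ | ⟨h1, h2⟩ | ⟨h1, h2⟩)
    · exact G.irrefl h3
    · rw [h1] at h2
      exact absurd h2 (by simp)
    · rw [h1] at h2
      exact absurd h2 (by simp)⟩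

/-- the embedding used for `t ∈ R` -/
def e1 : (τ ⊕ α) ↪ (τ ⊕ Option α) :=
  ⟨fun x => match x with
    | Sum.inl s => Sum.inl s
    | Sum.inr a => Sum.inr (some a), by
    rintro (s | a) (s' | a') h
    · simpa using h
    · simp at h
    · simp at h
    · simpa using h⟩

/-- the embedding used for `t ∉ R` -/
def e2 (t : τ) : (τ ⊕ α) ↪ (τ ⊕ Option α) :=
  ⟨fun x => match x with
    | Sum.inl s => if s = t then Sum.inr none else Sum.inl s
    | Sum.inr a => Sum.inr (some a), by
    rintro (s | a) (s' | a') h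
    · simp only at h
      split_ifs at h with h1 h2 h2
      · rw [h1, h2]
      · simpa using h
    · simp only at h
      split_ifs at h with h1
      simp at h
    · simp only at h
      split_ifs at h with h1
      simp at h
    · simpa using h⟩

omit [DecidableEq α] in
lemma e2_ne (t : τ) (x : τ ⊕ α) : e2 t x ≠ Sum.inl t := by
  rcases x with s | a
  · change (if s = t then Sum.inr none else Sum.inl s) ≠ Sum.inl t
    split_ifs with h
    · simp
    · simpa using h
  · change Sum.inr (some a) ≠ Sum.inl t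
    simp

omit [DecidableEq α] in
lemma phi_e2 (t : τ) (x : τ ⊕ α) : phi t (e2 t x) = x := by
  rcases x with s | a
  · change phi t (if s = t then Sum.inr none else Sum.inl s) = Sum.inl s
    split_ifs with h
    · rw [h]
      rfl
    · rfl
  · rfl

omit [DecidableEq α] in
lemma comap_e2 (G : SimpleGraph (τ ⊕ α)) (t : τ) : (tw G t).comap (e2 t) = G := by
  ext x y
  change ((e2 t x ≠ Sum.inl t ∧ e2 t y ≠ Sum.inl t ∧ G.Adj (phi t (e2 t x)) (phi t (e2 t y))) ∨
    (e2 t x = Sum.inl t ∧ e2 t y = Sum.inr none) ∨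
    (e2 t x = Sum.inr none ∧ e2 t y = Sum.inl t)) ↔ G.Adj x y
  rw [phi_e2, phi_e2]
  constructor
  · rintro (⟨_, _, h⟩ | ⟨h, _⟩ | ⟨_, h⟩)
    · exact h
    · exact absurd h (e2_ne t x)
    · exact absurd h (e2_ne t y)
  · intro h
    exact Or.inl ⟨e2_ne t x, e2_ne t y, h⟩

lemma twist [Fintype α] {β : Finset τ → Prop} (t : τ) (h : Beh τ α β) :
    Beh τ (Option α) (fun R => β (symmDiff R {t})) := by
  obtain ⟨G, hG⟩ := h
  refine ⟨tw G t, fun R => ?_⟩
  change β (symmDiff R {t}) ↔ HasPM (tw G t) (VS τ (Option α) R)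
  rw [hG]
  change HasPM G (VS τ α (symmDiff R {t})) ↔ HasPM (tw G t) (VS τ (Option α) R)
  by_cases ht : t ∈ R
  · have hsd : symmDiff R {t} = R.erase t := by
      ext s
      rw [mem_symmDiff, mem_erase, mem_singleton]
      constructor
      · rintro (⟨h1, h2⟩ | ⟨h1, h2⟩)
        · exact ⟨h2, h1⟩
        · exact absurd (h1 ▸ ht) h2
      · rintro ⟨h1, h2⟩
        exact Or.inl ⟨h2, h1⟩
    rw [hsd]
    have hne1 : ∀ x ∈ VS τ α (R.erase t), x ≠ Sum.inl t := by
      rintro x hx rfl
      exact (notMem_erase t R) (mem_inl.mp hx)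
    have hadj : ∀ x y : τ ⊕ α, x ≠ Sum.inl t → y ≠ Sum.inl t →
        ((tw G t).Adj (e1 x) (e1 y) ↔ G.Adj x y) := by
      intro x y hx hy
      have hx1 : e1 x ≠ Sum.inl t := by
        rcases x with s | a
        · change Sum.inl s ≠ Sum.inl t
          intro h
          exact hx (by rw [Sum.inl.inj h])
        · change Sum.inr (some a) ≠ Sum.inl t
          simp
      have hy1 : e1 y ≠ Sum.inl t := by
        rcases y with s | a
        · change Sum.inl s ≠ Sum.inl t
          intro h
          exact hy (by rw [Sum.inl.inj h])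
        · change Sum.inr (some a) ≠ Sum.inl t
          simp
      have hphi : ∀ z : τ ⊕ α, phi t (e1 z) = z := by
        intro z
        rcases z with s | a <;> rfl
      change ((e1 x ≠ Sum.inl t ∧ e1 y ≠ Sum.inl t ∧ G.Adj (phi t (e1 x)) (phi t (e1 y))) ∨
        (e1 x = Sum.inl t ∧ e1 y = Sum.inr none) ∨
        (e1 x = Sum.inr none ∧ e1 y = Sum.inl t)) ↔ G.Adj x y
      rw [hphi, hphi]
      constructor
      · rintro (⟨_, _, h⟩ | ⟨h, _⟩ | ⟨_, h⟩)
        · exact h
        · exact absurd h hx1
        · exact absurd h hy1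
      · intro h
        exact Or.inl ⟨hx1, hy1, h⟩
    have hstep : HasPM G (VS τ α (R.erase t)) ↔
        HasPM (tw G t) ((VS τ α (R.erase t)).map e1) := by
      rw [← map_iff]
      constructor
      · exact congr_adj fun x hx y hy hxy => (hadj x y (hne1 x hx) (hne1 y hy)).mpr hxy
      · exact congr_adj fun x hx y hy hxy => (hadj x y (hne1 x hx) (hne1 y hy)).mp hxy
    rw [hstep]
    have hmem : ∀ x : τ ⊕ Option α, x ∈ (VS τ α (R.erase t)).map e1 ↔
        x ∈ VS τ (Option α) R ∧ x ≠ Sum.inl t ∧ x ≠ Sum.inr none := by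
      intro x
      rw [mem_map]
      constructor
      · rintro ⟨y, hy, rfl⟩
        rcases y with s | a
        · have hs := mem_inl.mp hy
          rw [mem_erase] at hs
          change Sum.inl s ∈ VS τ (Option α) R ∧ Sum.inl s ≠ Sum.inl t ∧
            Sum.inl s ≠ (Sum.inr none : τ ⊕ Option α)
          exact ⟨mem_inl.mpr hs.2, fun h => hs.1 (Sum.inl.inj h), by simp⟩
        · change Sum.inr (some a) ∈ VS τ (Option α) R ∧ Sum.inr (some a) ≠ Sum.inl t ∧
            Sum.inr (some a) ≠ (Sum.inr none : τ ⊕ Option α)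
          exact ⟨mem_inr, by simp, by simp⟩
      · rintro ⟨h1, h2, h3⟩
        rcases x with s | a
        · refine ⟨Sum.inl s, mem_inl.mpr (mem_erase.mpr ⟨fun h => h2 (by rw [h]), mem_inl.mp h1⟩),
            rfl⟩
        · rcases a with _ | a
          · exact absurd rfl h3
          · exact ⟨Sum.inr a, mem_inr, rfl⟩
    constructor
    · rintro ⟨f, hf⟩
      let g : τ ⊕ Option α → τ ⊕ Option α := fun x =>
        if x = Sum.inl t then Sum.inr none else if x = Sum.inr none then Sum.inl t else f x
      have g1 : g (Sum.inl t) = Sum.inr none := if_pos rfl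
      have g2 : g (Sum.inr none) = Sum.inl t := by
        change (if (Sum.inr none : τ ⊕ Option α) = Sum.inl t then Sum.inr none else
          if (Sum.inr none : τ ⊕ Option α) = Sum.inr none then Sum.inl t else _) = _
        rw [if_neg (by simp), if_pos rfl]
      have g3 : ∀ x, x ≠ Sum.inl t → x ≠ Sum.inr none → g x = f x := by
        intro x h1 h2
        change (if x = Sum.inl t then Sum.inr none else if x = Sum.inr none then Sum.inl t
          else f x) = f x
        rw [if_neg h1, if_neg h2]
      refine ⟨g, ?_, ?_, ?_⟩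
      · intro x hx
        by_cases h1 : x = Sum.inl t
        · rw [h1, g1]
          exact mem_inr
        · by_cases h2 : x = Sum.inr none
          · rw [h2, g2]
            exact mem_inl.mpr ht
          · rw [g3 x h1 h2]
            exact ((hmem _).mp (hf.mem x ((hmem x).mpr ⟨hx, h1, h2⟩))).1
      · intro x hx
        by_cases h1 : x = Sum.inl t
        · rw [h1, g1]
          exact Or.inr (Or.inl ⟨rfl, rfl⟩)
        · by_cases h2 : x = Sum.inr none
          · rw [h2, g2]
            exact Or.inr (Or.inr ⟨rfl, rfl⟩)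
          · rw [g3 x h1 h2]
            exact hf.adj x ((hmem x).mpr ⟨hx, h1, h2⟩)
      · intro x hx
        by_cases h1 : x = Sum.inl t
        · rw [h1, g1, g2]
        · by_cases h2 : x = Sum.inr none
          · rw [h2, g2, g1]
          · have hm := (hmem _).mp (hf.mem x ((hmem x).mpr ⟨hx, h1, h2⟩))
            rw [g3 x h1 h2, g3 (f x) hm.2.1 hm.2.2]
            exact hf.inv x ((hmem x).mpr ⟨hx, h1, h2⟩)
    · rintro ⟨f, hf⟩
      have htm : Sum.inl t ∈ VS τ (Option α) R := mem_inl.mpr ht
      have hft : f (Sum.inl t) = Sum.inr none := by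
        rcases hf.adj _ htm with ⟨h1, _⟩ | ⟨_, h2⟩ | ⟨h1, _⟩
        · exact absurd rfl h1
        · exact h2
        · exact absurd h1 (by simp)
      have hfn : f (Sum.inr none) = Sum.inl t := by
        rw [← hft]
        exact hf.inv _ htm
      have hne : ∀ x ∈ VS τ (Option α) R, x ≠ Sum.inl t → x ≠ Sum.inr none →
          f x ≠ Sum.inl t ∧ f x ≠ Sum.inr none := by
        intro x hx h1 h2
        refine ⟨fun h => ?_, fun h => ?_⟩
        · have h3 := hf.inv x hx
          rw [h, hft] at h3
          exact h2 h3.symm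
        · have h3 := hf.inv x hx
          rw [h, hfn] at h3
          exact h1 h3.symm
      refine ⟨f, ?_, ?_, ?_⟩
      · intro x hx
        obtain ⟨h0, h1, h2⟩ := (hmem x).mp hx
        exact (hmem _).mpr ⟨hf.mem x h0, hne x h0 h1 h2⟩
      · intro x hx
        exact hf.adj x ((hmem x).mp hx).1
      · intro x hx
        exact hf.inv x ((hmem x).mp hx).1
  · have hset : (VS τ α (symmDiff R {t})).map (e2 t) = VS τ (Option α) R := by
      ext x
      rw [mem_map]
      constructor
      · rintro ⟨y, hy, rfl⟩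
        rcases y with s | a
        · have hs := mem_inl.mp hy
          rw [mem_symmDiff, mem_singleton] at hs
          change (if s = t then Sum.inr none else Sum.inl s) ∈ VS τ (Option α) R
          split_ifs with h
          · exact mem_inr
          · refine mem_inl.mpr ?_
            rcases hs with ⟨h1, _⟩ | ⟨h1, _⟩
            · exact h1
            · exact absurd h1 h
        · exact mem_inr
      · intro hx
        rcases x with s | a
        · have hs := mem_inl.mp hx
          have hst : s ≠ t := fun h => ht (h ▸ hs)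
          refine ⟨Sum.inl s, mem_inl.mpr ?_, ?_⟩
          · rw [mem_symmDiff, mem_singleton]
            exact Or.inl ⟨hs, hst⟩
          · change (if s = t then Sum.inr none else Sum.inl s) = _
            rw [if_neg hst]
        · rcases a with _ | a
          · refine ⟨Sum.inl t, mem_inl.mpr ?_, ?_⟩
            · rw [mem_symmDiff, mem_singleton]
              exact Or.inr ⟨rfl, ht⟩
            · change (if t = t then Sum.inr none else Sum.inl t) = _
              rw [if_pos rfl]
          · exact ⟨Sum.inr a, mem_inr, rfl⟩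
    rw [← hset, ← map_iff, comap_e2]

end twist

end TRAL

theorem tra : S_TRA :=
  ⟨fun _ _ e G A => TRAL.map_iff e G A,
    fun _ _ _ _ _ _ _ _ _ e h => TRAL.beh_equiv e h,
    fun _ _ _ _ _ _ t h => TRAL.twist t h⟩

end Pool.Agent.H689.MM
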