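import Pool.Agent.H689.MM.Stm

/-!
Leaf VAN of project MP_b98b77_co: the Tutte matrix of a graph without perfect matching is singular.
-/

namespace Pool.Agent.H689.MM

open Finset

namespace VANL

/-- A skew-symmetric matrix of odd order has a nonzero kernel vector. -/
theorem skew_kernel {V : Type} [Fintype V] [DecidableEq V] (A : V → V → ℚ)
    (hs : ∀ v w, A v w = - A w v) (X : Finset V) (hX : Odd X.card) :
    ∃ z : V → ℚ, (∃ v ∈ X, z v ≠ 0) ∧ (∀ v, v ∉ X → z v = 0) ∧
      ∀ v ∈ X, ∑ w, A v w * z w = 0 := by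
  classical
  let B : Matrix X X ℚ := fun i j => A i j
  have hB : B.transpose = -B := by
    ext i j
    change A j i = - A i j
    exact hs _ _
  have hdet : B.det = 0 := by
    have h1 : B.transpose.det = B.det := Matrix.det_transpose B
    rw [hB, Matrix.det_neg, Fintype.card_coe, hX.neg_one_pow] at h1
    linarith
  obtain ⟨y, hy0, hy⟩ := Matrix.exists_mulVec_eq_zero_iff.mpr hdet
  have hex : ∃ i, y i ≠ 0 := by
    by_contra hcon
    push Not at hcon
    exact hy0 (funext hcon)
  obtain ⟨i, hi⟩ := hex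
  refine ⟨fun v => if h : v ∈ X then y ⟨v, h⟩ else 0, ⟨i.1, i.2, ?_⟩, ?_, ?_⟩
  · simpa using hi
  · intro v hv
    simp [hv]
  · intro v hv
    have h2 := congrFun hy ⟨v, hv⟩
    simp only [Matrix.mulVec, dotProduct, B, Pi.zero_apply] at h2
    refine Eq.trans ?_ h2
    rw [← Finset.sum_subset (Finset.subset_univ X)]
    · rw [← Finset.sum_coe_sort X]
      refine Finset.sum_congr rfl fun w _ => ?_
      simp
    · intro w _ hw
      simp [hw]

end VANL

theorem van (h : S_BAR) : S_VAN := by
  intro V _ _ G A hs hA D hNS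
  classical
  by_contra hPM
  obtain ⟨U, 𝒳, hbar, hcard, -⟩ := h V G D hPM
  choose! z hz0 hzsupp hzker using
    fun (X : Finset V) (hX : X ∈ 𝒳) => VANL.skew_kernel A hs X (hbar.odd X hX)
  -- the map to `ℚ ^ U`
  let M : Matrix U 𝒳 ℚ := fun u X => ∑ w, A u w * z X w
  have hker : LinearMap.ker M.mulVecLin ≠ ⊥ := by
    apply LinearMap.ker_ne_bot_of_finrank_lt
    simpa using hcard
  obtain ⟨c, hc, hc0⟩ := (Submodule.ne_bot_iff _).mp hker
  rw [LinearMap.mem_ker, Matrix.mulVecLin_apply] at hc
  have hall : ∀ X ∈ 𝒳, ∀ v ∈ D, v ∉ U → ∑ w, A v w * z X w = 0 := by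
    intro X hX v hvD hvU
    by_cases hvX : v ∈ X
    · exact hzker X hX v hvX
    · refine Finset.sum_eq_zero fun w _ => ?_
      by_cases hw : w ∈ X
      · have hadj : ¬ G.Adj v w := by
          intro hadj
          rcases hbar.closed X hX w hw v hvD hadj.symm with h1 | h1
          · exact hvX h1
          · exact hvU h1
        rw [hA v w hadj, zero_mul]
      · rw [hzsupp X hX w hw, mul_zero]
  have hzero := hNS (fun w => ∑ X : 𝒳, c X * z X w) ?_ ?_
  · -- nonzero
    have hcX : ∃ X : 𝒳, c X ≠ 0 := by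
      by_contra hcon
      push Not at hcon
      exact hc0 (funext hcon)
    obtain ⟨X, hX⟩ := hcX
    obtain ⟨v, hvX, hv⟩ := hz0 X X.2
    have h3 := congrFun hzero v
    simp only [Pi.zero_apply] at h3
    rw [Finset.sum_eq_single X] at h3
    · exact (mul_ne_zero hX hv) h3
    · intro Y _ hYX
      have hne : (Y : Finset V) ≠ X := fun h => hYX (Subtype.ext h)
      have hdis := hbar.disj Y Y.2 X X.2 hne
      have hvY : v ∉ (Y : Finset V) := fun h => (Finset.disjoint_left.mp hdis) h hvX
      rw [hzsupp Y Y.2 v hvY, mul_zero]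
    · intro h
      exact absurd (Finset.mem_univ _) h
  · intro v hv
    refine Finset.sum_eq_zero fun X _ => ?_
    have hvX : v ∉ (X : Finset V) := fun h =>
      hv (Finset.mem_sdiff.mp (hbar.xsub X X.2 h)).1
    rw [hzsupp X X.2 v hvX, mul_zero]
  · intro v hv
    have hswap : ∑ w, A v w * (∑ X : 𝒳, c X * z X w) = ∑ X : 𝒳, (∑ w, A v w * z X w) * c X := by
      simp only [Finset.mul_sum, Finset.sum_mul]
      rw [Finset.sum_comm]
      refine Finset.sum_congr rfl fun X _ => Finset.sum_congr rfl fun w _ => ?_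
      ring
    rw [hswap]
    by_cases hvU : v ∈ U
    · have := congrFun hc ⟨v, hvU⟩
      simpa [Matrix.mulVec, dotProduct, M] using this
    · refine Finset.sum_eq_zero fun X _ => ?_
      rw [hall X X.2 v hv hvU, zero_mul]

end Pool.Agent.H689.MM
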