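import Pool.Agent.H689.MM.Stm

set_option autoImplicit false

namespace Pool.Agent.H689.MM

open Finset

namespace ZERL

variable {V : Type} [Fintype V] [DecidableEq V]

/-- the corrected basis vectors -/
theorem exists_u (A : V → V → ℚ) (D : Finset V) (h : NS A D) (t : V) (ht : t ∉ D) :
    ∃ u : V → ℚ, (∀ v, v ∉ D → v ≠ t → u v = 0) ∧ u t = 1 ∧ ∀ v ∈ D, ∑ w, A v w * u w = 0 := by
  let L : ({x // x ∈ D} → ℚ) →ₗ[ℚ] ({x // x ∈ D} → ℚ) :=
    { toFun := fun z v => ∑ w : {x // x ∈ D}, A v.1 w.1 * z w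
      map_add' := by
        intro z z'
        funext v
        simp only [Pi.add_apply, mul_add, Finset.sum_add_distrib]
      map_smul' := by
        intro c z
        funext v
        simp only [Pi.smul_apply, smul_eq_mul, RingHom.id_apply, Finset.mul_sum]
        refine Finset.sum_congr rfl (fun w _ => by ring) }
  have hinj : Function.Injective L := by
    rw [injective_iff_map_eq_zero]
    intro z hz
    have h1 := h (fun v => if hv : v ∈ D then z ⟨v, hv⟩ else 0)
      (fun v hv => by simp [hv]) (fun v hv => by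
        have h2 : ∑ w, A v w * (if hw : w ∈ D then z ⟨w, hw⟩ else 0) =
            ∑ w : {x // x ∈ D}, A v w.1 * z w := by
          rw [← Finset.sum_subset (Finset.subset_univ D)
            (fun w _ hw => by simp [hw]), ← Finset.sum_coe_sort D]
          refine Finset.sum_congr rfl (fun w _ => by simp)
        rw [h2]
        have h3 := congrFun hz ⟨v, hv⟩
        exact h3)
    funext v
    have h4 := congrFun h1 v.1
    simpa using h4
  have hsur : Function.Surjective L := LinearMap.injective_iff_surjective.1 hinj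
  obtain ⟨z, hz⟩ := hsur (fun v => - A v.1 t)
  refine ⟨fun v => if hv : v ∈ D then z ⟨v, hv⟩ else if v = t then 1 else 0, ?_, ?_, ?_⟩
  · intro v hv hvt
    simp [hv, hvt]
  · simp [ht]
  · intro v hv
    have h2 : ∑ w, A v w * (if hw : w ∈ D then z ⟨w, hw⟩ else if w = t then 1 else 0) =
        A v t + ∑ w : {x // x ∈ D}, A v w.1 * z w := by
      rw [← Finset.sum_subset (Finset.subset_univ (insert t D))
        (fun w _ hw => by
          rw [Finset.mem_insert, not_or] at hw
          simp [hw.1, hw.2]), Finset.sum_insert ht, ← Finset.sum_coe_sort D]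
      congr 1
      · simp [ht]
      · refine Finset.sum_congr rfl (fun w _ => by simp)
    rw [h2]
    have h3 := congrFun hz ⟨v, hv⟩
    have h4 : ∑ w : {x // x ∈ D}, A v w.1 * z w = - A v t := h3
    rw [h4]; ring

/-- Schur complement -/
theorem schur (A : V → V → ℚ) (D : Finset V) (h : NS A D) :
    ∃ B : V → V → ℚ, ∀ R : Finset V, Disjoint D R → (NS A (D ∪ R) ↔ NS B R) := by
  have hu : ∀ t, ∃ u : V → ℚ, t ∉ D → ((∀ v, v ∉ D → v ≠ t → u v = 0) ∧ u t = 1 ∧
      ∀ v ∈ D, ∑ w, A v w * u w = 0) := by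
    intro t
    by_cases ht : t ∈ D
    · exact ⟨0, fun h => absurd ht h⟩
    · obtain ⟨u, hu⟩ := exists_u A D h t ht
      exact ⟨u, fun _ => hu⟩
  choose u hu using hu
  refine ⟨fun v t => ∑ w, A v w * u t w, fun R hR => ?_⟩
  have hRD : ∀ t ∈ R, t ∉ D := fun t ht hD => (Finset.disjoint_left.1 hR hD ht)
  -- the action on combinations
  have hcomb : ∀ (y : V → ℚ) (v : V), ∑ w, A v w * (∑ t ∈ R, y t * u t w) =
      ∑ t ∈ R, (∑ w, A v w * u t w) * y t := by
    intro y v
    simp only [Finset.mul_sum]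
    rw [Finset.sum_comm]
    refine Finset.sum_congr rfl (fun t _ => ?_)
    rw [Finset.sum_mul]
    refine Finset.sum_congr rfl (fun w _ => by ring)
  have hcombD : ∀ (y : V → ℚ) (v : V), v ∈ D → ∑ w, A v w * (∑ t ∈ R, y t * u t w) = 0 := by
    intro y v hv
    rw [hcomb]
    refine Finset.sum_eq_zero (fun t ht => ?_)
    rw [(hu t (hRD t ht)).2.2 v hv, zero_mul]
  have hval : ∀ (y : V → ℚ) (s : V), s ∈ R → ∑ t ∈ R, y t * u t s = y s := by
    intro y s hs
    rw [Finset.sum_eq_single s]
    · rw [(hu s (hRD s hs)).2.1, mul_one]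
    · intro t ht hts
      rw [(hu t (hRD t ht)).1 s (hRD s hs) (Ne.symm hts), mul_zero]
    · intro hs'; exact absurd hs hs'
  have hval0 : ∀ (y : V → ℚ) (s : V), s ∉ D → s ∉ R → ∑ t ∈ R, y t * u t s = 0 := by
    intro y s hsD hsR
    refine Finset.sum_eq_zero (fun t ht => ?_)
    rw [(hu t (hRD t ht)).1 s hsD (by rintro rfl; exact hsR ht), mul_zero]
  have hfull : ∀ (y : V → ℚ), (∀ v, v ∉ R → y v = 0) → ∀ v,
      ∑ t ∈ R, (∑ w, A v w * u t w) * y t = ∑ t, (∑ w, A v w * u t w) * y t := by
    intro y hy v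
    exact Finset.sum_subset (Finset.subset_univ R) (fun t _ ht => by rw [hy t ht, mul_zero])
  constructor
  · intro hNS y hy hk
    have h1 := hNS (fun v => ∑ t ∈ R, y t * u t v) (fun v hv => by
        rw [Finset.mem_union, not_or] at hv
        exact hval0 y v hv.1 hv.2) (fun v hv => by
        rw [Finset.mem_union] at hv
        rcases hv with hv | hv
        · exact hcombD y v hv
        · show ∑ w, A v w * (∑ t ∈ R, y t * u t w) = 0
          rw [hcomb, hfull y hy]
          exact hk v hv)
    funext v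
    by_cases hv : v ∈ R
    · have h2 : ∑ t ∈ R, y t * u t v = 0 := congrFun h1 v
      rw [hval y v hv] at h2
      exact h2
    · exact hy v hv
  · intro hNS z hz hk
    set y : V → ℚ := fun v => if v ∈ R then z v else 0 with hy
    have hy0 : ∀ v, v ∉ R → y v = 0 := fun v hv => by simp [hy, hv]
    have h1 := h (fun v => z v - ∑ t ∈ R, y t * u t v) (fun v hv => by
        by_cases hvR : v ∈ R
        · rw [hval y v hvR]
          simp [hy, hvR]
        · rw [hval0 y v hv hvR, hz v (by rw [Finset.mem_union, not_or]; exact ⟨hv, hvR⟩), sub_zero])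
      (fun v hv => by
        have h2 := hk v (Finset.mem_union_left _ hv)
        have h3 := hcombD y v hv
        simp only [mul_sub, Finset.sum_sub_distrib]
        rw [h2, h3, sub_zero])
    have hzy : ∀ v, z v = ∑ t ∈ R, y t * u t v := fun v => by
      have := congrFun h1 v
      simp only [Pi.zero_apply] at this
      linarith
    have h2 : y = 0 := hNS y hy0 (fun v hv => by
      have h3 := hk v (Finset.mem_union_right _ hv)
      have h4 : ∑ w, A v w * z w = ∑ w, A v w * (∑ t ∈ R, y t * u t w) :=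
        Finset.sum_congr rfl (fun w _ => by rw [← hzy w])
      rw [h4, hcomb, hfull y hy0] at h3
      exact h3)
    funext v
    rw [hzy v, h2]
    simp

/-- the matrix of a set -/
def MX {τ R₀ : Type} [DecidableEq τ] [Zero R₀] [One R₀] (b : τ × τ → R₀) (R : Finset τ) :
    Matrix τ τ R₀ :=
  Matrix.of fun s t => if s ∈ R ∧ t ∈ R then b (s, t) else if s = t then 1 else 0

theorem det_iff (T : Finset V) (B : V → V → ℚ) (R : Finset {x // x ∈ T}) :
    (MX (fun p : {x // x ∈ T} × {x // x ∈ T} => B p.1.1 p.2.1) R).det ≠ 0 ↔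
      NS B (R.map (Function.Embedding.subtype _)) := by
  set b : {x // x ∈ T} × {x // x ∈ T} → ℚ := fun p => B p.1.1 p.2.1 with hb
  have hrow0 : ∀ (v : {x // x ∈ T} → ℚ) (s), s ∉ R → (Matrix.mulVec (MX b R) v) s = v s := by
    intro v s hs
    rw [Matrix.mulVec, dotProduct, Finset.sum_eq_single s]
    · simp [MX, hs]
    · intro t _ hts
      simp [MX, hs, Ne.symm hts]
    · intro h; exact absurd (Finset.mem_univ _) h
  have hrow1 : ∀ (v : {x // x ∈ T} → ℚ) (s), s ∈ R → (∀ t, t ∉ R → v t = 0) →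
      (Matrix.mulVec (MX b R) v) s = ∑ t, b (s, t) * v t := by
    intro v s hs hv
    rw [Matrix.mulVec, dotProduct]
    refine Finset.sum_congr rfl (fun t _ => ?_)
    by_cases ht : t ∈ R
    · simp [MX, hs, ht]
    · rw [hv t ht]; simp
  have hmem : ∀ v : V, v ∈ R.map (Function.Embedding.subtype _) ↔ ∃ hv : v ∈ T, (⟨v, hv⟩ : {x // x ∈ T}) ∈ R := by
    intro v
    rw [Finset.mem_map]
    constructor
    · rintro ⟨⟨w, hw⟩, h1, rfl⟩
      exact ⟨hw, h1⟩
    · rintro ⟨hv, h1⟩
      exact ⟨⟨v, hv⟩, h1, rfl⟩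
  have hsum : ∀ (y : V → ℚ) (s : V), (∀ v, v ∉ T → y v = 0) →
      ∑ w, B s w * y w = ∑ t : {x // x ∈ T}, B s t.1 * y t.1 := by
    intro y s hy
    rw [Finset.sum_coe_sort T (fun w => B s w * y w)]
    exact (Finset.sum_subset (Finset.subset_univ T) (fun w _ hw => by rw [hy w hw, mul_zero])).symm
  constructor
  · intro hdet y hy hk
    have hyT : ∀ v, v ∉ T → y v = 0 := fun v hv => hy v (fun h => by
      obtain ⟨h1, -⟩ := (hmem v).1 h
      exact hv h1)
    have hv0 : ∀ t : {x // x ∈ T}, t ∉ R → y t.1 = 0 := fun t ht => hy t.1 (fun h => by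
      obtain ⟨h1, h2⟩ := (hmem t.1).1 h
      exact ht h2)
    have h1 : Matrix.mulVec (MX b R) (fun t => y t.1) = 0 := by
      funext s
      by_cases hs : s ∈ R
      · rw [hrow1 _ s hs hv0]
        have h2 := hk s.1 ((hmem s.1).2 ⟨s.2, hs⟩)
        rw [hsum y s.1 hyT] at h2
        exact h2
      · rw [hrow0 _ s hs]
        exact hv0 s hs
    have h2 : (fun t : {x // x ∈ T} => y t.1) = 0 := by
      by_contra hne
      exact hdet (Matrix.exists_mulVec_eq_zero_iff.1 ⟨_, hne, h1⟩)
    funext v
    by_cases hv : v ∈ T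
    · exact congrFun h2 ⟨v, hv⟩
    · exact hyT v hv
  · intro hNS hdet
    obtain ⟨v, hv, hv2⟩ := Matrix.exists_mulVec_eq_zero_iff.2 hdet
    apply hv
    have hv0 : ∀ t, t ∉ R → v t = 0 := by
      intro t ht
      rw [← hrow0 v t ht, hv2]; rfl
    set y : V → ℚ := fun w => if hw : w ∈ T then v ⟨w, hw⟩ else 0 with hy
    have hyT : ∀ w, w ∉ T → y w = 0 := fun w hw => by simp [hy, hw]
    have h1 := hNS y (fun w hw => by
      by_cases hwT : w ∈ T
      · simp only [hy, dif_pos hwT]
        apply hv0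
        intro h
        exact hw ((hmem w).2 ⟨hwT, h⟩)
      · exact hyT w hwT) (fun s hs => by
      obtain ⟨hsT, hsR⟩ := (hmem s).1 hs
      rw [hsum y s hyT]
      have h2 := hrow1 v ⟨s, hsT⟩ hsR hv0
      rw [hv2] at h2
      have h3 : ∑ t : {x // x ∈ T}, B s t.1 * y t.1 = ∑ t, b (⟨s, hsT⟩, t) * v t := by
        refine Finset.sum_congr rfl (fun t _ => ?_)
        simp [hy, hb]
      rw [h3, ← h2]
      rfl)
    funext t
    have h2 := congrFun h1 t.1
    simpa [hy] using h2

section poly

variable {τ : Type} [Fintype τ] [DecidableEq τ]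

/-- the polynomial of a set -/
noncomputable def PR (R : Finset τ) : MvPolynomial (τ × τ) ℚ := (MX MvPolynomial.X R).det

theorem eval_PR (b : τ × τ → ℚ) (R : Finset τ) :
    MvPolynomial.eval b (PR R) = (MX b R).det := by
  unfold PR
  rw [RingHom.map_det]
  congr 1
  ext s t
  simp only [RingHom.mapMatrix_apply, Matrix.map_apply, MX, Matrix.of_apply]
  split_ifs <;> simp

theorem degree_PR (R : Finset τ) (n : τ × τ) : MvPolynomial.degreeOf n (PR R) ≤ 1 := by
  unfold PR
  rw [Matrix.det_apply']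
  refine (MvPolynomial.degreeOf_sum_le _ _ _).trans (Finset.sup_le (fun σ _ => ?_))
  have h1 : (((Equiv.Perm.sign σ : ℤˣ) : ℤ) : MvPolynomial (τ × τ) ℚ) =
      MvPolynomial.C (((Equiv.Perm.sign σ : ℤˣ) : ℤ) : ℚ) := by
    simp
  rw [h1]
  refine (MvPolynomial.degreeOf_C_mul_le _ _ _).trans ?_
  refine (MvPolynomial.degreeOf_prod_le _ _ _).trans ?_
  have h2 : ∀ s : τ, MvPolynomial.degreeOf n (MX (MvPolynomial.X (R := ℚ)) R (σ s) s) ≤
      if s = n.2 then 1 else 0 := by
    intro s
    simp only [MX, Matrix.of_apply]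
    split_ifs with h3 h4 h5 h6 h7
    · rw [MvPolynomial.degreeOf_X]
      split_ifs <;> omega
    · rw [MvPolynomial.degreeOf_X]
      rw [if_neg]
      rintro rfl
      exact h4 rfl
    all_goals simp
  refine (Finset.sum_le_sum (fun s _ => h2 s)).trans ?_
  simp

/-- dimension count -/
theorem dim {σ ι : Type} [Fintype σ] [DecidableEq σ] [Fintype ι] (m : ℕ)
    (g : ι → MvPolynomial σ ℚ) (hg : ∀ i n, MvPolynomial.degreeOf n (g i) ≤ m)
    (hli : ∀ c : ι → ℚ, ∑ i, c i • g i = 0 → c = 0) : Fintype.card ι ≤ (m + 1) ^ Fintype.card σ := by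
  let φ : ι → ((σ → Fin (m + 1)) → ℚ) := fun i a =>
    MvPolynomial.coeff (Finsupp.equivFunOnFinite.symm (fun j => (a j : ℕ))) (g i)
  have h1 : LinearIndependent ℚ φ := by
    rw [Fintype.linearIndependent_iff]
    intro c hc
    have h2 : ∑ i, c i • g i = 0 := by
      ext s
      rw [MvPolynomial.coeff_sum, MvPolynomial.coeff_zero]
      by_cases hs : ∀ j, s j < m + 1
      · have h3 := congrFun hc (fun j => ⟨s j, hs j⟩)
        simp only [Finset.sum_apply, Pi.smul_apply, smul_eq_mul, Pi.zero_apply, φ] at h3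
        have h4 : (Finsupp.equivFunOnFinite.symm (fun j => s j)) = s := by
          ext j; simp
        rw [h4] at h3
        rw [← h3]
        refine Finset.sum_congr rfl (fun i _ => ?_)
        rw [MvPolynomial.coeff_smul, smul_eq_mul]
      · push Not at hs
        obtain ⟨j, hj⟩ := hs
        refine Finset.sum_eq_zero (fun i _ => ?_)
        rw [MvPolynomial.coeff_smul]
        have h3 : MvPolynomial.coeff s (g i) = 0 := by
          by_contra hne
          have h4 := (MvPolynomial.degreeOf_le_iff.1 (hg i j)) s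
            (MvPolynomial.mem_support_iff.2 hne)
          omega
        rw [h3, smul_zero]
    exact fun i => congrFun (hli c h2) i
  have h2 := h1.fintype_card_le_finrank
  rw [Module.finrank_fintype_fun_eq_card] at h2
  simpa using h2

end poly

end ZERL

open ZERL in
theorem zer : S_ZER := by
  intro V _ _ A T 𝓕 hF hinj
  -- Schur complements
  have hS : ∀ D : Finset V, ∃ B : V → V → ℚ, D ∈ 𝓕 → ∀ R : Finset V, Disjoint D R →
      (NS A (D ∪ R) ↔ NS B R) := by
    intro D
    by_cases hD : D ∈ 𝓕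
    · obtain ⟨B, hB⟩ := schur A D (hF D hD).2
      exact ⟨B, fun _ => hB⟩
    · exact ⟨fun _ _ => 0, fun h => absurd h hD⟩
  choose B hB using hS
  let b : Finset V → ({x // x ∈ T} × {x // x ∈ T} → ℚ) := fun D p => B D p.1.1 p.2.1
  let Pat : Finset V → Finset (Finset {x // x ∈ T}) := fun D =>
    univ.filter (fun R => MvPolynomial.eval (b D) (PR R) ≠ 0)
  have hPat : ∀ D ∈ 𝓕, ∀ R : Finset {x // x ∈ T}, R ∈ Pat D ↔
      NS A (D ∪ R.map (Function.Embedding.subtype _)) := by
    intro D hD R
    have h1 : Disjoint D (R.map (Function.Embedding.subtype _)) := by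
      rw [Finset.disjoint_left]
      intro v hv hv2
      rw [Finset.mem_map] at hv2
      obtain ⟨w, -, rfl⟩ := hv2
      exact Finset.disjoint_left.1 (hF D hD).1 hv w.2
    rw [hB D hD _ h1, ← det_iff, ← eval_PR, Finset.mem_filter]
    exact ⟨fun h => h.2, fun h => ⟨Finset.mem_univ _, h⟩⟩
  have hPinj : ∀ D ∈ 𝓕, ∀ D' ∈ 𝓕, Pat D = Pat D' → D = D' := by
    intro D hD D' hD' h
    apply hinj D hD D' hD'
    intro R hR
    have h1 : R = (R.subtype (fun x => x ∈ T)).map (Function.Embedding.subtype _) := by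
      rw [Finset.subtype_map]
      ext v
      rw [Finset.mem_filter]
      exact ⟨fun h => ⟨h, hR h⟩, fun h => h.1⟩
    rw [h1, ← hPat D hD, ← hPat D' hD', h]
  -- the polynomials
  let g : {D // D ∈ 𝓕} → MvPolynomial ({x // x ∈ T} × {x // x ∈ T}) ℚ := fun D =>
    ∏ R ∈ Pat D.1, PR R
  have hg : ∀ i n, MvPolynomial.degreeOf n (g i) ≤ 2 ^ T.card := by
    intro D n
    refine (MvPolynomial.degreeOf_prod_le _ _ _).trans ?_
    refine (Finset.sum_le_sum (fun R _ => degree_PR R n)).trans ?_
    rw [Finset.sum_const, smul_eq_mul, mul_one]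
    refine (Finset.card_le_univ _).trans ?_
    rw [Fintype.card_finset, Fintype.card_coe]
  have heval : ∀ D D' : {D // D ∈ 𝓕}, MvPolynomial.eval (b D.1) (g D') ≠ 0 ↔ Pat D'.1 ⊆ Pat D.1 := by
    intro D D'
    simp only [g]
    rw [map_prod, Finset.prod_ne_zero_iff]
    constructor
    · intro h R hR
      rw [Finset.mem_filter]
      exact ⟨Finset.mem_univ _, h R hR⟩
    · intro h R hR
      exact (Finset.mem_filter.1 (h hR)).2
  have hli : ∀ c : {D // D ∈ 𝓕} → ℚ, ∑ i, c i • g i = 0 → c = 0 := by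
    intro c hc
    by_contra hne
    have hne2 : (univ.filter (fun D => c D ≠ 0)).Nonempty := by
      rw [Finset.nonempty_iff_ne_empty]
      intro h
      apply hne
      funext D
      by_contra h2
      have : D ∈ univ.filter (fun D => c D ≠ 0) := Finset.mem_filter.2 ⟨Finset.mem_univ _, h2⟩
      rw [h] at this
      exact absurd this (Finset.notMem_empty _)
    obtain ⟨D, hD, hmin⟩ := Finset.exists_min_image _ (fun D : {D // D ∈ 𝓕} => (Pat D.1).card) hne2
    have hcD : c D ≠ 0 := (Finset.mem_filter.1 hD).2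
    have h1 := congrArg (MvPolynomial.eval (b D.1)) hc
    rw [map_sum, map_zero, Finset.sum_eq_single D] at h1
    · rw [MvPolynomial.smul_eval] at h1
      rcases mul_eq_zero.1 h1 with h2 | h2
      · exact hcD h2
      · exact (heval D D).2 (Finset.Subset.refl _) h2
    · intro D' _ hD'
      rw [MvPolynomial.smul_eval]
      by_cases hc' : c D' = 0
      · rw [hc', zero_mul]
      · by_cases he : MvPolynomial.eval (b D.1) (g D') = 0
        · rw [he, mul_zero]
        · exfalso
          have h2 := (heval D D').1 he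
          have h3 := hmin D' (Finset.mem_filter.2 ⟨Finset.mem_univ _, hc'⟩)
          have h4 := Finset.eq_of_subset_of_card_le h2 h3
          exact hD' (Subtype.ext (hPinj D'.1 D'.2 D.1 D.2 h4))
    · intro h; exact absurd (Finset.mem_univ _) h
  have h1 := dim (2 ^ T.card) g hg hli
  rw [Fintype.card_coe, Fintype.card_prod, Fintype.card_coe] at h1
  rw [pow_two T.card]
  exact h1

end Pool.Agent.H689.MM
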