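import Pool.Agent.H689.MM.Irr
import Pool.Agent.H689.MM.BAR
import Pool.Agent.H689.MM.GEN
import Pool.Agent.H689.MM.VAN
import Pool.Agent.H689.MM.BAS
import Pool.Agent.H689.MM.ZER
import Pool.Agent.H689.MM.IND
import Pool.Agent.H689.MM.TRA
import Pool.Agent.H689.MM.CNV

/-!
The extremal network, the reduction, and the final bound.
-/

namespace Pool.Agent.H689.MM

open Finset

section Ext

variable {τ : Type} [Fintype τ] [DecidableEq τ]

/-- nonterminals together with the terminals in `R` -/
abbrev vs (τ α : Type) [Fintype α] [DecidableEq τ] [DecidableEq α] (R : Finset τ) :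
    Finset (τ ⊕ α) :=
  R.map Function.Embedding.inl ∪ univ.map Function.Embedding.inr

theorem beh_mono {V : Type*} {G G' : SimpleGraph V} (h : G ≤ G') {A : Finset V}
    (hp : HasPM G A) : HasPM G' A := by
  obtain ⟨f, hf⟩ := hp
  exact ⟨f, hf.mem, fun v hv => h (hf.adj v hv), hf.inv⟩

/-- a perfect matching of `G + xy` in a graph `G[A]` without perfect matching -/
theorem edge_pm {V : Type*} [DecidableEq V] {G : SimpleGraph V} {A : Finset V} {x y : V}
    (hno : ¬ HasPM G A) (h : HasPM (G ⊔ SimpleGraph.edge x y) A) :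
    x ∈ A ∧ y ∈ A ∧ HasPM G (A \ {x, y}) := by
  obtain ⟨f, hf⟩ := h
  have hex : ∃ v ∈ A, ¬ G.Adj v (f v) := by
    by_contra hcon
    push Not at hcon
    exact hno ⟨f, hf.mem, hcon, hf.inv⟩
  obtain ⟨v, hv, hnadj⟩ := hex
  have hadj := hf.adj v hv
  rw [SimpleGraph.sup_adj, SimpleGraph.edge_adj] at hadj
  have hcases := (hadj.resolve_left hnadj).1
  have hxy : x ∈ A ∧ f x = y := by
    rcases hcases with ⟨h1, h2⟩ | ⟨h1, h2⟩
    · subst h1; exact ⟨hv, h2⟩
    · subst h1
      rw [← h2]
      exact ⟨hf.mem v hv, hf.inv v hv⟩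
  obtain ⟨hxA, hfx⟩ := hxy
  have hyA : y ∈ A := by rw [← hfx]; exact hf.mem x hxA
  refine ⟨hxA, hyA, f, ?_⟩
  have hr := hf.remove hxA hfx
  refine ⟨hr.mem, ?_, hr.inv⟩
  intro w hw
  have h1 := hr.adj w hw
  rw [SimpleGraph.sup_adj, SimpleGraph.edge_adj] at h1
  rcases h1 with h1 | ⟨h1, _⟩
  · exact h1
  · exfalso
    rw [Finset.mem_sdiff, Finset.mem_insert, Finset.mem_singleton] at hw
    rcases h1 with ⟨h1, _⟩ | ⟨h1, _⟩
    · exact hw.2 (Or.inl h1)
    · exact hw.2 (Or.inr h1)

theorem small (β : Finset τ → Prop) (h0 : β ∅) (hex : ∃ n, Beh τ (Fin n) β) :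
    ∃ n, n ≤ (2 * (Lk (Fintype.card τ) + 1) + 1) *
      ((Fintype.card τ + 1) * Fintype.card τ ^ 2) ∧ Beh τ (Fin n) β := by
  classical
  set n := Nat.find hex with hn
  have hbeh : Beh τ (Fin n) β := Nat.find_spec hex
  have hmin : ∀ m, m < n → ¬ Beh τ (Fin m) β := fun m hm => Nat.find_min hex hm
  let s : Set (SimpleGraph (τ ⊕ Fin n)) := {G | ∀ R : Finset τ, β R ↔ HasPM G (vs τ (Fin n) R)}
  have hs : s.Nonempty := by
    obtain ⟨G, hG⟩ := hbeh
    exact ⟨G, hG⟩
  obtain ⟨G, hGmax⟩ := (Set.toFinite s).exists_maximal hs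
  have hG : ∀ R : Finset τ, β R ↔ HasPM G (vs τ (Fin n) R) := hGmax.prop
  have hmaxG : ∀ G' : SimpleGraph (τ ⊕ Fin n), (∀ R : Finset τ, β R ↔
      HasPM G' (vs τ (Fin n) R)) → G ≤ G' → G' ≤ G := fun G' h1 h2 => hGmax.le_of_ge h1 h2
  set T : Finset (τ ⊕ Fin n) := univ.map Function.Embedding.inl with hT
  set N : Finset (τ ⊕ Fin n) := univ.map Function.Embedding.inr with hN
  have hirr : Irr G N T := by
    refine ⟨?_, ?_, ?_, ?_⟩
    · ext v
      rcases v with v | v <;> simp [hN, hT]
    · have := (hG ∅).1 h0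
      simpa [vs, hN] using this
    · intro x y hxy hadj
      have hG' : ¬ ∀ R : Finset τ, β R ↔
          HasPM (G ⊔ SimpleGraph.edge x y) (vs τ (Fin n) R) := by
        intro h
        have h1 := hmaxG _ h le_sup_left
        apply hadj
        apply h1
        rw [SimpleGraph.sup_adj, SimpleGraph.edge_adj]
        exact Or.inr ⟨Or.inl ⟨rfl, rfl⟩, hxy⟩
      push Not at hG'
      obtain ⟨R, hR⟩ := hG'
      have hR2 : ¬ HasPM G (vs τ (Fin n) R) ∧
          HasPM (G ⊔ SimpleGraph.edge x y) (vs τ (Fin n) R) := by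
        rcases hR with ⟨h1, h2⟩ | ⟨h1, h2⟩
        · exact absurd (beh_mono le_sup_left ((hG R).1 h1)) h2
        · exact ⟨fun h => h1 ((hG R).2 h), h2⟩
      have hcomm : N ∪ R.map Function.Embedding.inl = vs τ (Fin n) R := Finset.union_comm _ _
      obtain ⟨h1, h2, h3⟩ := edge_pm hR2.1 hR2.2
      refine ⟨R.map Function.Embedding.inl, Finset.map_subset_map.2 (Finset.subset_univ _), ?_⟩
      rw [hcomm]
      exact ⟨hR2.1, h1, h2, h3⟩
    · intro u hu v hv huv
      by_contra hcon
      push Not at hcon
      obtain ⟨a, -, ha⟩ := Finset.mem_map.1 hu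
      obtain ⟨b, -, hb⟩ := Finset.mem_map.1 hv
      have ha' : u = Sum.inr a := ha.symm
      have hb' : v = Sum.inr b := hb.symm
      have hab : a ≠ b := by
        intro e
        apply huv.ne
        rw [ha', hb', e]
      let α := {c : Fin n // c ≠ a ∧ c ≠ b}
      let e : (τ ⊕ α) ↪ (τ ⊕ Fin n) :=
        ⟨Sum.map id Subtype.val, Sum.map_injective.2 ⟨Function.injective_id,
          Subtype.val_injective⟩⟩
      have hmap : ∀ R : Finset τ, (vs τ α R).map e = vs τ (Fin n) R \ {u, v} := by
        intro R
        ext w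
        rw [Finset.mem_map, Finset.mem_sdiff, Finset.mem_insert, Finset.mem_singleton]
        constructor
        · rintro ⟨w', hw', rfl⟩
          rcases w' with t | c
          · have ht : t ∈ R := by simpa [vs] using hw'
            refine ⟨by simpa [vs, e] using ht, ?_⟩
            rw [ha', hb']
            simp [e]
          · refine ⟨by simp [vs, e], ?_⟩
            rw [ha', hb']
            have h1 := c.2.1
            have h2 := c.2.2
            simp only [e, Function.Embedding.coeFn_mk, Sum.map_inr, Sum.inr.injEq, not_or]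
            exact ⟨h1, h2⟩
        · rintro ⟨hw, hne⟩
          rw [ha', hb'] at hne
          rcases w with t | c
          · refine ⟨Sum.inl t, by simpa [vs] using hw, rfl⟩
          · have hc : c ≠ a ∧ c ≠ b := by
              refine ⟨?_, ?_⟩
              · rintro rfl; exact hne (Or.inl rfl)
              · rintro rfl; exact hne (Or.inr rfl)
            exact ⟨Sum.inr ⟨c, hc⟩, by simp [vs], rfl⟩
      have hbehα : Beh τ α β := by
        refine ⟨G.comap e, fun R => ?_⟩
        rw [tra.1 (τ ⊕ α) (τ ⊕ Fin n) e G]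
        change β R ↔ HasPM G ((vs τ α R).map e)
        rw [hmap R, hG R]
        have huvs : u ∈ vs τ (Fin n) R := Finset.mem_union_right _ hu
        have hvvs : v ∈ vs τ (Fin n) R := Finset.mem_union_right _ hv
        constructor
        · intro hp
          have hcomm : N ∪ R.map Function.Embedding.inl = vs τ (Fin n) R :=
            Finset.union_comm _ _
          have := hcon (R.map Function.Embedding.inl)
            (Finset.map_subset_map.2 (Finset.subset_univ _))
          rw [hcomm] at this
          exact this hp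
        · intro hp
          exact hasPM_add huvs hvvs huv hp
      have hcard : Fintype.card α < n := by
        have h1 : Fintype.card α < Fintype.card (Fin n) := by
          apply Fintype.card_subtype_lt (x := a)
          simp
        simpa using h1
      exact hmin _ hcard (tra.2.1 τ α (Fin (Fintype.card α)) β (Fintype.equivFin α) hbehα)
  have hb := irr_bound bar gen (van bar) bas zer ind hirr
  have hNc : N.card = n := by
    rw [hN, Finset.card_map, Finset.card_univ, Fintype.card_fin]
  have hTc : T.card = Fintype.card τ := by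
    rw [hT, Finset.card_map, Finset.card_univ]
  rw [hNc, hTc] at hb
  exact ⟨n, hb, hbeh⟩

theorem twistSet {β : Finset τ → Prop} {n : ℕ} (h : Beh τ (Fin n) β) (R0 : Finset τ) :
    Beh τ (Fin (n + R0.card)) (fun R => β (symmDiff R R0)) := by
  classical
  induction R0 using Finset.induction_on with
  | empty =>
    have : (fun R : Finset τ => β (symmDiff R ∅)) = β := by
      funext R
      congr 1
      exact symmDiff_bot R
    rw [this]
    exact h
  | insert t R0 ht ih =>
    have h1 := tra.2.2 τ (Fin (n + R0.card)) _ t ih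
    have h2 := tra.2.1 τ _ (Fin (n + R0.card + 1)) _ (finSuccEquiv (n + R0.card)).symm h1
    have h3 : (fun R : Finset τ => β (symmDiff R (insert t R0))) =
        fun R : Finset τ => β (symmDiff (symmDiff R {t}) R0) := by
      funext R
      congr 1
      rw [symmDiff_assoc]
      congr 1
      ext v
      rw [Finset.mem_symmDiff, Finset.mem_insert, Finset.mem_singleton]
      by_cases e : v = t
      · subst e; simp [ht]
      · simp [e]
    rw [h3, Finset.card_insert_of_notMem ht, ← add_assoc]
    exact h2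

theorem main_beh (β : Finset τ → Prop) (hex : ∃ n, Beh τ (Fin n) β) :
    ∃ n, Fintype.card τ + n ≤ 232 * Fintype.card τ ^ 8 + 1 ∧ Beh τ (Fin n) β := by
  classical
  by_cases hR : ∃ R, β R
  · obtain ⟨R0, hR0⟩ := hR
    obtain ⟨n, hn⟩ := hex
    obtain ⟨m, hm, hb⟩ := small (fun R => β (symmDiff R R0))
      (by
        have : symmDiff ∅ R0 = R0 := bot_symmDiff R0
        rw [this]; exact hR0)
      ⟨_, twistSet hn R0⟩
    refine ⟨m + R0.card, ?_, ?_⟩
    · have hR0c : R0.card ≤ Fintype.card τ := Finset.card_le_univ R0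
      set k := Fintype.card τ with hk
      rcases Nat.eq_zero_or_pos k with h0 | hpos
      · rw [h0] at hm hR0c ⊢
        simp at hm
        omega
      · have h1 : (2 * (Lk k + 1) + 1) * ((k + 1) * k ^ 2) ≤ 230 * k ^ 8 := by
          have h3 : k ^ 3 ≤ k ^ 5 := Nat.pow_le_pow_right hpos (by norm_num)
          have h5 : 1 ≤ k ^ 5 := Nat.one_le_pow _ _ hpos
          have h6 : 2 * (Lk k + 1) + 1 ≤ 115 * k ^ 5 := by
            have : 2 * (Lk k + 1) + 1 = 72 * k ^ 3 + 40 * k ^ 5 + 3 := by
              unfold Lk; ring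
            omega
          have h7 : (k + 1) * k ^ 2 ≤ 2 * k ^ 3 := by
            have : (k + 1) * k ^ 2 ≤ (k + k) * k ^ 2 := Nat.mul_le_mul_right _ (by omega)
            calc (k + 1) * k ^ 2 ≤ (k + k) * k ^ 2 := this
              _ = 2 * k ^ 3 := by ring
          calc (2 * (Lk k + 1) + 1) * ((k + 1) * k ^ 2) ≤ (115 * k ^ 5) * (2 * k ^ 3) :=
                Nat.mul_le_mul h6 h7
            _ = 230 * k ^ 8 := by ring
        have h2 : k ≤ k ^ 8 := Nat.le_self_pow (by norm_num) k
        omega
    · have h1 := twistSet hb R0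
      have h2 : (fun R : Finset τ => (fun R : Finset τ => β (symmDiff R R0)) (symmDiff R R0)) =
          β := by
        funext R
        change β (symmDiff (symmDiff R R0) R0) = β R
        rw [symmDiff_symmDiff_cancel_right]
      rw [h2] at h1
      exact h1
  · push Not at hR
    refine ⟨1, ?_, ⊥, ?_⟩
    · set k := Fintype.card τ with hk
      rcases Nat.eq_zero_or_pos k with h0 | hpos
      · rw [h0]; norm_num
      · have h2 : k ≤ k ^ 8 := Nat.le_self_pow (by norm_num) k
        omega
    · intro R
      refine ⟨fun h => absurd h (hR R), ?_⟩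
      rintro ⟨f, hf⟩
      have := hf.adj (Sum.inr 0) (by simp)
      exact absurd this (by simp)

end Ext

/-- transport along an injection, in all universes -/
theorem map_iff' {V W : Type*} (e : V ↪ W) (G : SimpleGraph W) (A : Finset V) :
    HasPM (G.comap e) A ↔ HasPM G (A.map e) := by
  classical
  constructor
  · rintro ⟨f, hf⟩
    let g : W → W := fun w => if h : ∃ v, e v = w then e (f h.choose) else w
    have hg : ∀ v, g (e v) = e (f v) := by
      intro v
      have h : ∃ v', e v' = e v := ⟨v, rfl⟩
      have h1 : g (e v) = e (f h.choose) := dif_pos h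
      rw [h1, e.injective h.choose_spec]
    refine ⟨g, ?_, ?_, ?_⟩
    · intro w hw
      obtain ⟨v, hv, rfl⟩ := mem_map.mp hw
      rw [hg]
      exact mem_map.mpr ⟨f v, hf.mem v hv, rfl⟩
    · intro w hw
      obtain ⟨v, hv, rfl⟩ := mem_map.mp hw
      rw [hg]
      exact hf.adj v hv
    · intro w hw
      obtain ⟨v, hv, rfl⟩ := mem_map.mp hw
      rw [hg, hg, hf.inv v hv]
  · rintro ⟨g, hg⟩
    let f : V → V := fun v => if h : ∃ v', e v' = g (e v) then h.choose else v
    have hf : ∀ v ∈ A, f v ∈ A ∧ e (f v) = g (e v) := by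
      intro v hv
      have hm := hg.mem (e v) (mem_map.mpr ⟨v, hv, rfl⟩)
      obtain ⟨v', hv', he⟩ := mem_map.mp hm
      have h : ∃ v', e v' = g (e v) := ⟨v', he⟩
      have h1 : f v = h.choose := dif_pos h
      have h2 := h.choose_spec
      have h3 : h.choose = v' := e.injective (h2.trans he.symm)
      rw [h1, h3]
      exact ⟨hv', he⟩
    refine ⟨f, ?_, ?_, ?_⟩
    · intro v hv
      exact (hf v hv).1
    · intro v hv
      change G.Adj (e v) (e (f v))
      rw [(hf v hv).2]
      exact hg.adj (e v) (mem_map.mpr ⟨v, hv, rfl⟩)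
    · intro v hv
      apply e.injective
      rw [(hf (f v) (hf v hv).1).2, (hf v hv).2]
      exact hg.inv (e v) (mem_map.mpr ⟨v, hv, rfl⟩)

universe u

theorem final {V : Type u} [Fintype V] (G : SimpleGraph V) (T : Set V) :
    ∃ (V' : Type) (_ : Fintype V') (G' : SimpleGraph V') (e : T ↪ V'),
      Fintype.card V' ≤ 232 * T.ncard ^ 8 + 1 ∧
      ∀ S : Set T,
        (∃ M : (G.induce (Subtype.val '' S)ᶜ).Subgraph, M.IsPerfectMatching) ↔
          ∃ M : (G'.induce (e '' S)ᶜ).Subgraph, M.IsPerfectMatching := by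
  classical
  have hk : Fintype.card T = T.ncard := by
    rw [← Nat.card_eq_fintype_card]; rfl
  set k := Fintype.card T with hkdef
  let e0 : T ≃ Fin k := Fintype.equivFin T
  let n := Fintype.card (↑(Tᶜ) : Type u)
  let e1 : (↑(Tᶜ) : Type u) ≃ Fin n := Fintype.equivFin _
  let φ : (Fin k ⊕ Fin n) ≃ V := (Equiv.sumCongr e0 e1).symm.trans (Equiv.Set.sumCompl T)
  have hφl : ∀ i, φ (Sum.inl i) = (e0.symm i : V) := fun i => rfl
  have hφr : ∀ j, φ (Sum.inr j) = (e1.symm j : V) := fun j => rfl
  obtain ⟨m, hm, G', hG'⟩ := main_beh (τ := Fin k)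
    (fun R => HasPM (G.comap φ.toEmbedding) (vs (Fin k) (Fin n) R)) ⟨n, _, fun R => Iff.rfl⟩
  rw [Fintype.card_fin, hk] at hm
  refine ⟨Fin k ⊕ Fin m, inferInstance, G', e0.toEmbedding.trans Function.Embedding.inl, ?_, ?_⟩
  · rw [Fintype.card_sum, Fintype.card_fin, Fintype.card_fin, hk]
    exact hm
  · intro S
    set R : Finset (Fin k) := univ.filter (fun i => e0.symm i ∉ S) with hR
    have hS1 : (Subtype.val '' S : Set V) = (((Subtype.val '' S : Set V).toFinset : Finset V) :
        Set V) := by rw [Set.coe_toFinset]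
    have hS2 : ((e0.toEmbedding.trans Function.Embedding.inl : T ↪ Fin k ⊕ Fin m) '' S) =
        ((((e0.toEmbedding.trans Function.Embedding.inl : T ↪ Fin k ⊕ Fin m) '' S).toFinset :
          Finset (Fin k ⊕ Fin m)) : Set (Fin k ⊕ Fin m)) := by rw [Set.coe_toFinset]
    rw [hS1, hS2, cnv V G, cnv (Fin k ⊕ Fin m) G']
    have hset1 : univ \ (Subtype.val '' S : Set V).toFinset =
        (vs (Fin k) (Fin n) R).map φ.toEmbedding := by
      ext v
      obtain ⟨w, rfl⟩ := φ.surjective v
      rw [Finset.mem_map_equiv, Equiv.symm_apply_apply, Finset.mem_sdiff, Set.mem_toFinset]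
      rcases w with i | j
      · rw [hφl]
        simp [hR, vs]
      · rw [hφr]
        have := (e1.symm j).2
        simp only [Finset.mem_univ, true_and, vs, Finset.mem_union, Finset.mem_map]
        constructor
        · intro _
          exact Or.inr ⟨j, rfl⟩
        · rintro _ ⟨x, hx, hxe⟩
          apply this
          rw [← hxe]
          exact x.2
    have hset2 : univ \ ((e0.toEmbedding.trans Function.Embedding.inl : T ↪ Fin k ⊕ Fin m) ''
        S).toFinset = vs (Fin k) (Fin m) R := by
      ext w
      rw [Finset.mem_sdiff, Set.mem_toFinset]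
      rcases w with i | j
      · simp only [Finset.mem_univ, true_and, vs, Finset.mem_union, Finset.mem_map, hR,
          Finset.mem_filter, Set.mem_image]
        constructor
        · intro h
          left
          refine ⟨i, fun hi => h ⟨e0.symm i, hi, ?_⟩, rfl⟩
          simp
        · rintro (⟨i', hi', he⟩ | ⟨j, he⟩)
          · have he' : i' = i := Sum.inl_injective he
            subst he'
            rintro ⟨x, hx, hxe⟩
            have hxe' : e0 x = i' := Sum.inl_injective hxe
            apply hi'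
            rw [← hxe', Equiv.symm_apply_apply]
            exact hx
          · exact absurd he (by simp)
      · simp only [Finset.mem_univ, true_and, vs, Finset.mem_union, Finset.mem_map, Set.mem_image]
        constructor
        · intro _
          exact Or.inr ⟨j, rfl⟩
        · rintro _ ⟨x, hx, hxe⟩
          exact absurd hxe (by simp)
    rw [hset1, hset2, ← map_iff' φ.toEmbedding G]
    exact hG' R

end Pool.Agent.H689.MM
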