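import Pool.Agent.H689.MM.Count
import Pool.Agent.H689.MM.Barrier

/-!
The bound on the number of nonterminals of an irreducible network.
-/

namespace Pool.Agent.H689.MM

open Finset

/-- the key hypotheses on an irreducible network -/
structure Irr {V : Type} [Fintype V] [DecidableEq V] (G : SimpleGraph V) (N T : Finset V) :
    Prop where
  hN : N = univ \ T
  pm : HasPM G N
  S : ∀ x y, x ≠ y → ¬ G.Adj x y → ∃ R ⊆ T, ¬ HasPM G (N ∪ R) ∧ x ∈ N ∪ R ∧ y ∈ N ∪ R ∧
    HasPM G ((N ∪ R) \ {x, y})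
  V1 : ∀ u ∈ N, ∀ v ∈ N, G.Adj u v → ∃ Q ⊆ T, HasPM G (N ∪ Q) ∧ ¬ HasPM G ((N ∪ Q) \ {u, v})

theorem Irr.V2 {V : Type} [Fintype V] [DecidableEq V] {G : SimpleGraph V} {N T : Finset V}
    (h : Irr G N T) : ∀ u ∈ N, ∀ v ∈ N, G.Adj u v →
      ∃ x y, G.Adj u x ∧ G.Adj v y ∧ x ≠ y ∧ ¬ G.Adj x y := by
  intro u hu v hv huv
  obtain ⟨Q, _, ⟨f, hf⟩, hno⟩ := h.V1 u hu v hv huv
  have huB : u ∈ N ∪ Q := Finset.mem_union_left _ hu
  have hvB : v ∈ N ∪ Q := Finset.mem_union_left _ hv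
  have hfuv : f u ≠ v := fun e => hno (hf.remove huB e).hasPM
  have hfvu : f v ≠ u := by
    intro e
    apply hfuv
    rw [← e, hf.inv v hvB]
  have hfuu : f u ≠ u := hf.ne huB
  have hfvv : f v ≠ v := hf.ne hvB
  refine ⟨f u, f v, hf.adj u huB, hf.adj v hvB, fun e => huv.ne (hf.inj huB hvB e), ?_⟩
  intro hadj
  apply hno
  refine hasPM_add (u := f u) (v := f v) ?_ ?_ hadj ?_
  · rw [Finset.mem_sdiff, Finset.mem_insert, Finset.mem_singleton]
    exact ⟨hf.mem u huB, by push Not; exact ⟨hfuu, hfuv⟩⟩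
  · rw [Finset.mem_sdiff, Finset.mem_insert, Finset.mem_singleton]
    exact ⟨hf.mem v hvB, by push Not; exact ⟨hfvu, hfvv⟩⟩
  · refine (hf.restrict (B := ((N ∪ Q) \ {u, v}) \ {f u, f v})
      (Finset.sdiff_subset.trans Finset.sdiff_subset) ?_).hasPM
    intro w hw
    simp only [Finset.mem_sdiff, Finset.mem_insert, Finset.mem_singleton, not_or] at hw ⊢
    obtain ⟨⟨h1, h2, h3⟩, h4, h5⟩ := hw
    have hff := hf.inv w h1
    refine ⟨⟨hf.mem w h1, ?_, ?_⟩, ?_, ?_⟩
    · intro e; rw [e] at hff; exact h4 hff.symm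
    · intro e; rw [e] at hff; exact h5 hff.symm
    · intro e; exact h2 (hf.inj h1 huB e)
    · intro e; exact h3 (hf.inj h1 hvB e)

/-- the error term -/
def Lk (k : ℕ) : ℕ := 4 * (9 * (k * k ^ 2) + 5 * (k * (k ^ 2) ^ 2))

theorem exists_dat (hBAR : S_BAR) (hGEN : S_GEN) (hVAN : S_VAN) (hBAS : S_BAS)
    {V : Type} [Fintype V] [DecidableEq V] {G : SimpleGraph V} {N T : Finset V}
    (h : Irr G N T) {M : V → V} (hM : IsPM G N M) :
    ∃ (ι : Type) (_ : Fintype ι), Fintype.card ι ≤ T.card ^ 2 ∧ Nonempty (Dat G N T M ι) := by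
  classical
  obtain ⟨A, hA1, hA2, hA3⟩ := hGEN V G
  have hNS : ∀ D : Finset V, HasPM G D ↔ NS A D := fun D =>
    ⟨hA3 D, hVAN V G A hA1 hA2 D⟩
  obtain ⟨𝓘, hI1, hI2, hI3⟩ := hBAS V A T N hA1 h.hN ((hNS N).1 h.pm)
    (T.powerset.filter (fun R => ¬ NS A (N ∪ R) ∧
      ∃ x ∈ N ∪ R, ∃ y ∈ N ∪ R, x ≠ y ∧ NS A ((N ∪ R) \ {x, y})))
    (by
      intro R hR
      obtain ⟨h1, h2, h3⟩ := Finset.mem_filter.1 hR
      exact ⟨Finset.mem_powerset.1 h1, h2, h3⟩)
  have hR : ∀ l : {R // R ∈ 𝓘}, l.1 ⊆ T ∧ ∃ (U : Finset V) (X : Finset (Finset V)),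
      IsBar G (N ∪ l.1) U X ∧ X.card = U.card + 2 ∧
      (∀ v ∈ N ∪ l.1, v ∉ U → ∃ Y ∈ X, v ∈ Y) ∧ (∀ Y ∈ X, ∀ v ∈ Y, HasPM G (Y.erase v)) ∧
      ∀ x ∈ N ∪ l.1, ∀ y ∈ N ∪ l.1, x ≠ y → HasPM G ((N ∪ l.1) \ {x, y}) →
        x ∉ U ∧ y ∉ U ∧ ∀ Y ∈ X, ¬ (x ∈ Y ∧ y ∈ Y) := by
    intro l
    obtain ⟨h1, h2, x, hx, y, hy, hxy, h3⟩ := Finset.mem_filter.1 (hI1 l.2)
    exact ⟨Finset.mem_powerset.1 h1, max_barrier hBAR G (N ∪ l.1) (fun hp => h2 ((hNS _).1 hp))
      hx hy hxy ((hNS _).2 h3)⟩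
  choose hR1 U X hb hc hp hf hs using hR
  refine ⟨{R // R ∈ 𝓘}, inferInstance, by rw [Fintype.card_coe]; exact hI2, ⟨?_⟩⟩
  exact
    { R := fun l => l.1
      U := U
      X := X
      hNT := by rw [h.hN]; exact Finset.sdiff_disjoint
      hM := hM
      hR := hR1
      bar := hb
      crd := hc
      part := hp
      fc := hf
      sep := by
        intro x y hxy hadj
        obtain ⟨R, hRT, h1, h2, h3, h4⟩ := h.S x y hxy hadj
        obtain ⟨R', hR', h5, h6, h7⟩ := hI3 R (Finset.mem_filter.2 ⟨Finset.mem_powerset.2 hRT,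
          fun hns => h1 ((hNS _).2 hns), x, h2, y, h3, hxy, (hNS _).1 h4⟩) x h2 y h3 hxy
          ((hNS _).1 h4)
        obtain ⟨h8, h9, h10⟩ := hs ⟨R', hR'⟩ x h5 y h6 hxy ((hNS _).2 h7)
        exact ⟨⟨R', hR'⟩, h5, h6, h8, h9, h10⟩
      v2 := h.V2 }

theorem irr_agree (hBAR : S_BAR) (hGEN : S_GEN) (hVAN : S_VAN) (hBAS : S_BAS)
    {V : Type} [Fintype V] [DecidableEq V] {G : SimpleGraph V} {N T : Finset V}
    (h : Irr G N T) {M : V → V} (hM : IsPM G N M) {Q : Finset V} (hQ : Q ⊆ T)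
    (hgood : HasPM G (N ∪ Q)) : ∃ g, IsPM G (N ∪ Q) g ∧
      (N.filter (fun v => g v ≠ M v)).card ≤ Lk T.card := by
  obtain ⟨ι, inst, hι, ⟨D⟩⟩ := exists_dat hBAR hGEN hVAN hBAS h hM
  obtain ⟨g, hg, hcard⟩ := D.agree (le_refl T.card) hQ hgood
  refine ⟨g, hg, hcard.trans ?_⟩
  unfold Lk
  have h2 : Fintype.card ι ^ 2 ≤ (T.card ^ 2) ^ 2 := Nat.pow_le_pow_left hι 2
  gcongr

theorem irr_bound (hBAR : S_BAR) (hGEN : S_GEN) (hVAN : S_VAN) (hBAS : S_BAS) (hZER : S_ZER)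
    (hIND : S_IND) {V : Type} [Fintype V] [DecidableEq V] {G : SimpleGraph V} {N T : Finset V}
    (h : Irr G N T) :
    N.card ≤ (2 * (Lk T.card + 1) + 1) * ((T.card + 1) * T.card ^ 2) := by
  classical
  obtain ⟨M, hM⟩ := h.pm
  have hNT : Disjoint N T := by rw [h.hN]; exact Finset.sdiff_disjoint
  obtain ⟨A, hA1, hA2, hA3⟩ := hGEN V G
  have hNS : ∀ D : Finset V, HasPM G D ↔ NS A D := fun D =>
    ⟨hA3 D, hVAN V G A hA1 hA2 D⟩
  have hq : ∀ v ∈ N, ∃ (Q : Finset V) (g : V → V), Q ⊆ T ∧ IsPM G (N ∪ Q) g ∧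
      ¬ HasPM G ((N ∪ Q) \ {v, M v}) ∧ (N.filter (fun w => g w ≠ M w)).card ≤ Lk T.card := by
    intro v hv
    obtain ⟨Q, hQ, h1, h2⟩ := h.V1 v hv (M v) (hM.mem v hv) (hM.adj v hv)
    obtain ⟨g, hg, hc⟩ := irr_agree hBAR hGEN hVAN hBAS h hM hQ h1
    exact ⟨Q, g, hQ, hg, h2, hc⟩
  choose! Q g hQT hg hno hc using hq
  obtain ⟨I, hIN, hIc, hI⟩ := hIND V
    (fun v => if v ∈ N then insert (M v) (N.filter (fun w => g v w ≠ M w)) else ∅)
    (Lk T.card + 1) N (by
      intro v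
      by_cases hv : v ∈ N
      · simp only [hv, if_true]
        exact (Finset.card_insert_le _ _).trans (Nat.add_le_add_right (hc v hv) 1)
      · simp only [hv, if_false, Finset.card_empty]
        exact Nat.zero_le _)
  have hI2 : ∀ v ∈ I, ∀ w ∈ I, v ≠ w → w ≠ M v ∧ g v w = M w := by
    intro v hv w hw hne
    have := hI v hv w hw hne
    simp only [hIN hv, if_true, Finset.mem_insert, Finset.mem_filter, not_or, not_and,
      not_not] at this
    exact ⟨this.1, this.2 (hIN hw)⟩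
  -- the deleted sets
  let S : Finset V → Finset V := fun J => J ∪ J.image M
  have hSN : ∀ J ⊆ I, S J ⊆ N := by
    intro J hJ v hv
    rcases Finset.mem_union.1 hv with hv | hv
    · exact hIN (hJ hv)
    · obtain ⟨w, hw, rfl⟩ := Finset.mem_image.1 hv
      exact hM.mem w (hIN (hJ hw))
  have hSM : ∀ J ⊆ I, ∀ v ∈ S J, M v ∈ S J := by
    intro J hJ v hv
    rcases Finset.mem_union.1 hv with hv | hv
    · exact Finset.mem_union_right _ (Finset.mem_image_of_mem M hv)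
    · obtain ⟨w, hw, rfl⟩ := Finset.mem_image.1 hv
      rw [hM.inv w (hIN (hJ hw))]
      exact Finset.mem_union_left _ hw
  have hSI : ∀ J ⊆ I, ∀ v ∈ I, v ∈ S J → v ∈ J := by
    intro J hJ v hv hvS
    rcases Finset.mem_union.1 hvS with hvS | hvS
    · exact hvS
    · obtain ⟨w, hw, rfl⟩ := Finset.mem_image.1 hvS
      by_contra hcon
      have hne : w ≠ M w := (hM.ne (hIN (hJ hw))).symm
      exact (hI2 w (hJ hw) (M w) hv hne).1 rfl
  have hpat : ∀ J ⊆ I, ∀ v ∈ I, (HasPM G ((N \ S J) ∪ Q v) ↔ v ∉ J) := by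
    intro J hJ v hv
    have hvN := hIN hv
    have hdQ : Disjoint (S J) (Q v) := by
      rw [Finset.disjoint_left]
      intro w hw hw'
      exact (Finset.disjoint_left.1 hNT) (hSN J hJ hw) (hQT v hvN hw')
    have hset : (N \ S J) ∪ Q v = (N ∪ Q v) \ S J := by
      rw [Finset.union_sdiff_distrib, Finset.sdiff_eq_self_of_disjoint hdQ.symm]
    constructor
    · intro hp hvJ
      apply hno v hvN
      have hS2 : IsPM G (S J \ {v, M v}) M :=
        (hM.restrict (hSN J hJ) (hSM J hJ)).remove (Finset.mem_union_left _ hvJ) rfl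
      have hd : Disjoint ((N ∪ Q v) \ S J) (S J \ {v, M v}) := by
        rw [Finset.disjoint_left]
        intro w hw hw'
        exact (Finset.mem_sdiff.1 hw).2 (Finset.mem_sdiff.1 hw').1
      rw [hset] at hp
      have hgl := hp.glue hS2.hasPM hd
      have heq : (N ∪ Q v) \ S J ∪ S J \ {v, M v} = (N ∪ Q v) \ {v, M v} := by
        have hv1 : v ∈ S J := Finset.mem_union_left _ hvJ
        have hv2 : M v ∈ S J := hSM J hJ v hv1
        ext w
        simp only [Finset.mem_union, Finset.mem_sdiff, Finset.mem_insert, Finset.mem_singleton]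
        constructor
        · rintro (⟨h1, h2⟩ | ⟨h1, h2⟩)
          · refine ⟨h1, ?_⟩
            rintro (rfl | rfl)
            · exact h2 hv1
            · exact h2 hv2
          · exact ⟨Or.inl (hSN J hJ h1), h2⟩
        · rintro ⟨h1, h2⟩
          by_cases hw : w ∈ S J
          · exact Or.inr ⟨hw, h2⟩
          · exact Or.inl ⟨h1, hw⟩
      rwa [heq] at hgl
    · intro hvJ
      rw [hset]
      refine ((hg v hvN).sdiff ((hSN J hJ).trans Finset.subset_union_left) ?_).hasPM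
      have hkey : ∀ w ∈ J, g v w = M w := by
        intro w hw
        have hne : v ≠ w := by rintro rfl; exact hvJ hw
        exact (hI2 v hv w (hJ hw) hne).2
      intro w hw
      rcases Finset.mem_union.1 hw with hw | hw
      · rw [hkey w hw]
        exact Finset.mem_union_right _ (Finset.mem_image_of_mem M hw)
      · obtain ⟨w', hw', rfl⟩ := Finset.mem_image.1 hw
        rw [← hkey w' hw', (hg v hvN).inv w' (Finset.mem_union_left _ (hIN (hJ hw')))]
        exact Finset.mem_union_left _ hw'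
  have hinj : Set.InjOn (fun J => N \ S J) (I.powerset : Set (Finset V)) := by
    intro J hJ J' hJ' he
    have hJ1 : J ⊆ I := Finset.mem_powerset.1 (Finset.mem_coe.1 hJ)
    have hJ2 : J' ⊆ I := Finset.mem_powerset.1 (Finset.mem_coe.1 hJ')
    have he' : N \ S J = N \ S J' := he
    have : ∀ v ∈ I, (v ∈ J ↔ v ∈ J') := by
      intro v hv
      have h1 := hpat J hJ1 v hv
      have h2 := hpat J' hJ2 v hv
      rw [he'] at h1
      exact not_iff_not.1 (h1.symm.trans h2)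
    ext v
    constructor
    · intro hv
      exact (this v (hJ1 hv)).1 hv
    · intro hv
      exact (this v (hJ2 hv)).2 hv
  have hcardF : (I.powerset.image (fun J => N \ S J)).card = 2 ^ I.card := by
    rw [Finset.card_image_of_injOn hinj, Finset.card_powerset]
  have hz := hZER V A T (I.powerset.image (fun J => N \ S J))
    (by
      intro D hD
      obtain ⟨J, hJ, rfl⟩ := Finset.mem_image.1 hD
      have hJ1 : J ⊆ I := Finset.mem_powerset.1 hJ
      refine ⟨hNT.mono_left Finset.sdiff_subset, ?_⟩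
      exact (hNS _).1 (hM.sdiff (hSN J hJ1) (hSM J hJ1)).hasPM)
    (by
      intro D hD D' hD' hpp
      obtain ⟨J, hJ, rfl⟩ := Finset.mem_image.1 hD
      obtain ⟨J', hJ', rfl⟩ := Finset.mem_image.1 hD'
      have hJ1 : J ⊆ I := Finset.mem_powerset.1 hJ
      have hJ2 : J' ⊆ I := Finset.mem_powerset.1 hJ'
      have : ∀ v ∈ I, (v ∈ J ↔ v ∈ J') := by
        intro v hv
        have h1 := hpat J hJ1 v hv
        have h2 := hpat J' hJ2 v hv
        have h3 := hpp (Q v) (hQT v (hIN hv))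
        rw [← hNS, ← hNS] at h3
        exact not_iff_not.1 (h1.symm.trans (h3.trans h2))
      have hJJ : J = J' := by
        ext v
        constructor
        · intro hv
          exact (this v (hJ1 hv)).1 hv
        · intro hv
          exact (this v (hJ2 hv)).2 hv
      rw [hJJ])
  rw [hcardF] at hz
  have hIbound : I.card ≤ (T.card + 1) * T.card ^ 2 := by
    have h1 : 2 ^ T.card + 1 ≤ 2 ^ (T.card + 1) := by
      rw [pow_succ]
      have : 1 ≤ 2 ^ T.card := Nat.one_le_two_pow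
      omega
    have h2 : (2 ^ T.card + 1) ^ (T.card ^ 2) ≤ 2 ^ ((T.card + 1) * T.card ^ 2) := by
      rw [pow_mul]
      exact Nat.pow_le_pow_left h1 _
    exact (Nat.pow_le_pow_iff_right (by norm_num)).1 (hz.trans h2)
  exact hIc.trans (Nat.mul_le_mul_left _ hIbound)

end Pool.Agent.H689.MM
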